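import Pool.Agent.H11.TB.Polar

/-!
# AntiD: the antipodal map in polar coordinates, its derivative
-/

open scoped ContDiff NNReal
open Set

namespace TwinBubble

variable {n : ℕ}

theorem norm_anti {x : E n} (hx : x ≠ 0) : ‖anti x‖ = ‖x‖⁻¹ := by
  have h0 : ‖x‖ ≠ 0 := norm_ne_zero_iff.mpr hx
  have hp : 0 < (‖x‖ ^ 2)⁻¹ := by positivity
  rw [anti, norm_neg, norm_smul, Real.norm_of_nonneg hp.le]
  field_simp

theorem anti_ne_zero {x : E n} (hx : x ≠ 0) : anti x ≠ 0 := by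
  have h0 : ‖x‖ ≠ 0 := norm_ne_zero_iff.mpr hx
  rw [← norm_ne_zero_iff, norm_anti hx]
  exact inv_ne_zero h0

theorem anti_anti {x : E n} (hx : x ≠ 0) : anti (anti x) = x := by
  have h0 : ‖x‖ ≠ 0 := norm_ne_zero_iff.mpr hx
  have h1 : anti (anti x) = -((‖anti x‖ ^ 2)⁻¹ • anti x) := rfl
  rw [h1, norm_anti hx, anti, smul_neg, neg_neg, smul_smul]
  have h2 : ((‖x‖⁻¹ ^ 2)⁻¹ * (‖x‖ ^ 2)⁻¹) = 1 := by field_simp
  rw [h2, one_smul]

theorem Tc_anti {x : E n} (hx : x ≠ 0) : Tc (anti x) = -Tc x := by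
  rw [Tc, Tc, norm_anti hx, Real.log_inv]

private theorem inner_anti_div {e x : E n} (hx : x ≠ 0) :
    inner ℝ (anti x) e / ‖anti x‖ = -(inner ℝ x e / ‖x‖) := by
  have h0 : ‖x‖ ≠ 0 := norm_ne_zero_iff.mpr hx
  rw [norm_anti hx, anti, inner_neg_left, real_inner_smul_left]
  field_simp

theorem Ac_anti {e x : E n} (hx : x ≠ 0) : Ac e (anti x) = Real.pi - Ac e x := by
  rw [Ac, Ac, inner_anti_div hx, Real.arccos_neg]

theorem er_anti {x : E n} (hx : x ≠ 0) : er (anti x) = -er x := by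
  have h0 : ‖x‖ ≠ 0 := norm_ne_zero_iff.mpr hx
  rw [er, er, norm_anti hx, anti, smul_neg, smul_smul]
  congr 2
  field_simp

theorem eA_anti {e x : E n} (hx : x ≠ 0) : eA e (anti x) = eA e x := by
  rw [eA, eA, Ac_anti hx, er_anti hx, Real.sin_pi_sub, Real.cos_pi_sub, smul_neg, neg_smul,
    neg_neg]

theorem anti_mem_offAxis {e x : E n} (hx : x ∈ offAxis e) : anti x ∈ offAxis e := by
  have hx0 : x ≠ 0 := ne_zero_of_offAxis hx
  have h0 : 0 < ‖x‖ := norm_pos_iff.mpr hx0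
  have h1 : |inner ℝ x e| < ‖x‖ := hx
  change |inner ℝ (anti x) e| < ‖anti x‖
  have hp : 0 < (‖x‖ ^ 2)⁻¹ := by positivity
  rw [norm_anti hx0, anti, inner_neg_left, real_inner_smul_left, abs_neg, abs_mul,
    abs_of_pos hp]
  calc (‖x‖ ^ 2)⁻¹ * |inner ℝ x e| < (‖x‖ ^ 2)⁻¹ * ‖x‖ := mul_lt_mul_of_pos_left h1 hp
    _ = ‖x‖⁻¹ := by field_simp

private theorem hasFDerivAt_anti {x : E n} (hx : x ≠ 0) :
    HasFDerivAt (anti (n := n))
      (-((‖x‖ ^ 2)⁻¹ • ContinuousLinearMap.id ℝ (E n) +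
        ((-((‖x‖ ^ 2) ^ 2)⁻¹) • ((2 : ℝ) • innerSL ℝ x)).smulRight x)) x := by
  have h0 : ‖x‖ ^ 2 ≠ 0 := pow_ne_zero 2 (norm_ne_zero_iff.mpr hx)
  have h1 : HasFDerivAt (fun y : E n => ‖y‖ ^ 2) ((2 : ℝ) • innerSL ℝ x) x := by
    have h := (hasStrictFDerivAt_norm_sq x).hasFDerivAt
    have h3 : ((2 : ℕ) • innerSL ℝ x) = ((2 : ℝ) • innerSL ℝ x : E n →L[ℝ] ℝ) := by
      rw [← Nat.cast_smul_eq_nsmul ℝ]
      norm_num
    rw [← h3]
    exact h
  have h2 : HasFDerivAt (fun y : E n => (‖y‖ ^ 2)⁻¹)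
      ((-((‖x‖ ^ 2) ^ 2)⁻¹) • ((2 : ℝ) • innerSL ℝ x)) x :=
    (hasDerivAt_inv h0).comp_hasFDerivAt x h1
  exact (h2.smul (hasFDerivAt_id x)).neg

theorem fderiv_anti {x : E n} (hx : x ≠ 0) (v : E n) :
    ‖x‖ ^ 2 • fderiv ℝ anti x v = -v + (2 * inner ℝ (er x) v) • er x := by
  have h0 : ‖x‖ ≠ 0 := norm_ne_zero_iff.mpr hx
  have h1 : ‖x‖ ^ 2 * (‖x‖ ^ 2)⁻¹ = 1 := by field_simp
  rw [(hasFDerivAt_anti hx).fderiv, er, real_inner_smul_left]
  simp only [neg_apply, add_apply, smul_apply, ContinuousLinearMap.smulRight_apply,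
    ContinuousLinearMap.id_apply, innerSL_apply_apply, smul_eq_mul]
  rw [smul_neg, smul_add, smul_smul, smul_smul, smul_smul, h1, one_smul, neg_add]
  congr 1
  rw [← neg_smul]
  congr 1
  field_simp

/-- `‖x‖² d anti (p er + q eA) = p er - q eA` -/
theorem fderiv_anti_comb {e x : E n} (he : ‖e‖ = 1) (hx : x ∈ offAxis e) (p q : ℝ) :
    ‖x‖ ^ 2 • fderiv ℝ anti x (p • er x + q • eA e x) = p • er x - q • eA e x := by
  have hx0 : x ≠ 0 := ne_zero_of_offAxis hx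
  have h1 : inner ℝ (er x) (p • er x + q • eA e x) = p := by
    rw [inner_add_right, real_inner_smul_right, real_inner_smul_right, inner_er_eA he hx,
      real_inner_self_eq_norm_sq, norm_er hx0]
    ring
  rw [fderiv_anti hx0, h1]
  module

end TwinBubble
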