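import Pool.Agent.H11.TB.Cut

/-!
# Bound: a priori bound for `t` as long as `θ ≤ π/2`
`c₁ ≤ c F - K s` on `[0,1] × [0,1]` (from `exists_lower` with `T = 1`).  Put
`a₁ = min (c₁/2) (π/4)` and `T = 1 + (π/2) / sin a₁` (`T ≥ 1`).  As long as `t ≤ 1`,
`t' ≤ 1/c₁`, so by `image_le_of_deriv_right_lt_deriv_boundary'` with `B a = 2 a / c₁` one gets
`t a ≤ 2 a / c₁ ≤ 1` for `a ≤ a₁`; for `a ≥ a₁` the function `t - θ / sin a₁` is nonincreasing
(`cos a ≤ 1 ≤ sin a / sin a₁`) and `0 < θ ≤ π/2`.  `0 ≤ t` since `t' ≥ 0`.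
(`cutDen > 0` everywhere on `[0, π/2]` by `cutDen_lower` and `exists_lower` on `[0,T]`.)
-/

open scoped ContDiff NNReal
open Set

namespace TwinBubble

private theorem cutDen_ge_of_le_one (n : ℕ) (hn : 1 ≤ n) (F K : ℝ → ℝ) (c T c₁ : ℝ) (hT : 1 ≤ T)
    (hc₁ : ∀ t ∈ Icc (0 : ℝ) 1, ∀ s ∈ Icc (0 : ℝ) 1, c₁ ≤ c * F t - K t * s)
    (ε : ℝ) (hε : 0 < ε) (hε' : ε ≤ Real.pi / 2) (a : ℝ) (ha : a ∈ Icc 0 (Real.pi / 2))
    (t θ : ℝ) (ht : t ∈ Icc (0 : ℝ) 1) : c₁ ≤ cutDen n F K c T ε a t θ := by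
  have hpi := Real.pi_pos
  have hcl : cl 0 T t = t := by
    unfold cl
    rw [min_eq_left (ht.2.trans hT), max_eq_right ht.1]
  have hθ1 : ε ≤ cl ε (Real.pi / 2) θ := le_max_left _ _
  have hθ2 : cl ε (Real.pi / 2) θ ≤ Real.pi / 2 := max_le hε' (min_le_right _ _)
  have hcosa : 0 ≤ Real.cos a := Real.cos_nonneg_of_mem_Icc ⟨by linarith [ha.1], ha.2⟩
  have hsina0 : 0 ≤ Real.sin a := Real.sin_nonneg_of_nonneg_of_le_pi ha.1 (by linarith [ha.2])
  have hsina1 : Real.sin a ≤ 1 := Real.sin_le_one a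
  have hcosθ : 0 ≤ Real.cos (cl ε (Real.pi / 2) θ) :=
    Real.cos_nonneg_of_mem_Icc ⟨by linarith, hθ2⟩
  have hsinθ : 0 < Real.sin (cl ε (Real.pi / 2) θ) :=
    Real.sin_pos_of_pos_of_lt_pi (by linarith) (by linarith)
  have hn' : (0 : ℝ) ≤ (n : ℝ) - 1 := by
    have : (1 : ℝ) ≤ n := by exact_mod_cast hn
    linarith
  have h1 := hc₁ t ht (Real.sin a) ⟨hsina0, hsina1⟩
  have h2 : 0 ≤ ((n : ℝ) - 1) * Real.cos a *
      (Real.cos (cl ε (Real.pi / 2) θ) / Real.sin (cl ε (Real.pi / 2) θ)) :=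
    mul_nonneg (mul_nonneg hn' hcosa) (div_nonneg hcosθ hsinθ.le)
  unfold cutDen den
  rw [hcl]
  linarith

theorem exists_bound (n : ℕ) (hn : 1 ≤ n) (F K : ℝ → ℝ) (hF : ContDiff ℝ ∞ F)
    (hK : ContDiff ℝ ∞ K) (c : ℝ)
    (hpos : ∀ t, 0 ≤ t → ∀ s ∈ Icc (0 : ℝ) 1, 0 < c * F t - K t * s) :
    ∃ T > 0, ∀ ε : ℝ, 0 < ε → ε ≤ Real.pi / 2 → ∀ b ∈ Icc 0 (Real.pi / 2), ∀ t θ : ℝ → ℝ,
      t 0 = 0 → 0 < θ 0 →
      (∀ a ∈ Icc 0 b, HasDerivWithinAt t (Real.cos a / cutDen n F K c T ε a (t a) (θ a))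
        (Icc 0 b) a) →
      (∀ a ∈ Icc 0 b, HasDerivWithinAt θ (Real.sin a / cutDen n F K c T ε a (t a) (θ a))
        (Icc 0 b) a) →
      (∀ a ∈ Icc 0 b, θ a ≤ Real.pi / 2) →
      ∀ a ∈ Icc 0 b, t a ∈ Icc 0 T := by
  have hpi := Real.pi_pos
  obtain ⟨c₁, hc₁0, hc₁⟩ := exists_lower F K hF hK c 1 zero_le_one (fun t ht => hpos t ht.1)
  obtain ⟨a₁, ha₁⟩ : ∃ a₁ : ℝ, a₁ = min (c₁ / 2) (Real.pi / 4) := ⟨_, rfl⟩
  have ha₁0 : 0 < a₁ := by rw [ha₁]; exact lt_min (by linarith) (by linarith)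
  have ha₁c : a₁ ≤ c₁ / 2 := by rw [ha₁]; exact min_le_left _ _
  have ha₁p : a₁ ≤ Real.pi / 4 := by rw [ha₁]; exact min_le_right _ _
  have hs₁ : 0 < Real.sin a₁ := Real.sin_pos_of_pos_of_lt_pi ha₁0 (by linarith)
  have hq : 0 < (Real.pi / 2) / Real.sin a₁ := div_pos (by linarith) hs₁
  obtain ⟨T, hT⟩ : ∃ T : ℝ, T = 1 + (Real.pi / 2) / Real.sin a₁ := ⟨_, rfl⟩
  have hT1 : 1 ≤ T := by rw [hT]; linarith
  refine ⟨T, by linarith, ?_⟩
  intro ε hε hε' b hb t θ ht0 hθ0 hdt hdθ hθb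
  obtain ⟨c₀, hc₀0, hc₀⟩ := exists_lower F K hF hK c T (by linarith) (fun t ht => hpos t ht.1)
  have hD : ∀ a ∈ Icc 0 b, 0 < cutDen n F K c T ε a (t a) (θ a) := by
    intro a ha
    have := cutDen_lower n hn F K c T c₀ (by linarith) hc₀ ε hε hε' a ⟨ha.1, ha.2.trans hb.2⟩
      (t a) (θ a)
    linarith
  have hcos : ∀ a ∈ Icc 0 b, 0 ≤ Real.cos a := fun a ha =>
    Real.cos_nonneg_of_mem_Icc ⟨by linarith [ha.1], ha.2.trans hb.2⟩
  have hsin : ∀ a ∈ Icc 0 b, 0 ≤ Real.sin a := fun a ha =>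
    Real.sin_nonneg_of_nonneg_of_le_pi ha.1 (by linarith [ha.2, hb.2])
  have htc : ContinuousOn t (Icc 0 b) := fun a ha => (hdt a ha).continuousWithinAt
  have hθc : ContinuousOn θ (Icc 0 b) := fun a ha => (hdθ a ha).continuousWithinAt
  have hdt' : ∀ a ∈ Ioo 0 b, HasDerivAt t (Real.cos a / cutDen n F K c T ε a (t a) (θ a)) a :=
    fun a ha => (hdt a ⟨ha.1.le, ha.2.le⟩).hasDerivAt (Icc_mem_nhds ha.1 ha.2)
  have hdθ' : ∀ a ∈ Ioo 0 b, HasDerivAt θ (Real.sin a / cutDen n F K c T ε a (t a) (θ a)) a :=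
    fun a ha => (hdθ a ⟨ha.1.le, ha.2.le⟩).hasDerivAt (Icc_mem_nhds ha.1 ha.2)
  have htm : MonotoneOn t (Icc 0 b) := by
    refine monotoneOn_of_deriv_nonneg (convex_Icc 0 b) htc ?_ ?_
    · intro a ha
      rw [interior_Icc] at ha
      exact (hdt' a ha).differentiableAt.differentiableWithinAt
    · intro a ha
      rw [interior_Icc] at ha
      rw [(hdt' a ha).deriv]
      exact div_nonneg (hcos a ⟨ha.1.le, ha.2.le⟩) (hD a ⟨ha.1.le, ha.2.le⟩).le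
  have hθm : MonotoneOn θ (Icc 0 b) := by
    refine monotoneOn_of_deriv_nonneg (convex_Icc 0 b) hθc ?_ ?_
    · intro a ha
      rw [interior_Icc] at ha
      exact (hdθ' a ha).differentiableAt.differentiableWithinAt
    · intro a ha
      rw [interior_Icc] at ha
      rw [(hdθ' a ha).deriv]
      exact div_nonneg (hsin a ⟨ha.1.le, ha.2.le⟩) (hD a ⟨ha.1.le, ha.2.le⟩).le
  have h0mem : (0 : ℝ) ∈ Icc 0 b := ⟨le_refl _, hb.1⟩
  have ht_nonneg : ∀ a ∈ Icc 0 b, 0 ≤ t a := by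
    intro a ha
    have := htm h0mem ha ha.1
    rwa [ht0] at this
  have hθ_pos : ∀ a ∈ Icc 0 b, 0 < θ a := by
    intro a ha
    have := hθm h0mem ha ha.1
    linarith
  -- the first part of the interval
  have hA : ∀ a ∈ Icc 0 (min a₁ b), t a ≤ 2 / c₁ * a := by
    have hsub : Icc 0 (min a₁ b) ⊆ Icc 0 b := Icc_subset_Icc le_rfl (min_le_right _ _)
    intro a ha
    refine image_le_of_deriv_right_lt_deriv_boundary' (f := t)
      (f' := fun a => Real.cos a / cutDen n F K c T ε a (t a) (θ a))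
      (B := fun a => 2 / c₁ * a) (B' := fun _ => 2 / c₁) (htc.mono hsub) ?_ ?_ ?_ ?_ ?_ ha
    · intro x hx
      have hx' : x ∈ Ico 0 b := ⟨hx.1, lt_of_lt_of_le hx.2 (min_le_right _ _)⟩
      exact (hdt x ⟨hx'.1, hx'.2.le⟩).mono_of_mem_nhdsWithin (Icc_mem_nhdsGE_of_mem hx')
    · simp [ht0]
    · exact (continuous_const.mul continuous_id).continuousOn
    · intro x _
      have h := ((hasDerivAt_id x).const_mul (2 / c₁)).hasDerivWithinAt (s := Ici x)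
      simpa using h
    · intro x hx hxe
      have hx1 : x ≤ a₁ := (hx.2.le).trans (min_le_left _ _)
      have hxb : x ∈ Icc 0 b := ⟨hx.1, (hx.2.le).trans (min_le_right _ _)⟩
      have ht1 : t x ≤ 1 := by
        have h1 : 2 / c₁ * x ≤ 2 / c₁ * (c₁ / 2) :=
          mul_le_mul_of_nonneg_left (hx1.trans ha₁c) (by positivity)
        have h2 : 2 / c₁ * (c₁ / 2) = 1 := by field_simp
        have h3 : t x = 2 / c₁ * x := hxe
        linarith
      have hge := cutDen_ge_of_le_one n hn F K c T c₁ hT1 hc₁ ε hε hε' x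
        ⟨hxb.1, hxb.2.trans hb.2⟩ (t x) (θ x) ⟨ht_nonneg x hxb, ht1⟩
      have h4 : Real.cos x / cutDen n F K c T ε x (t x) (θ x) ≤ 1 / c₁ :=
        div_le_div₀ zero_le_one (Real.cos_le_one x) hc₁0 hge
      have h5 : 1 / c₁ < 2 / c₁ := div_lt_div_of_pos_right (by norm_num) hc₁0
      exact lt_of_le_of_lt h4 h5
  have hA1 : ∀ a ∈ Icc 0 (min a₁ b), t a ≤ 1 := by
    intro a ha
    have h1 : 2 / c₁ * a ≤ 2 / c₁ * (c₁ / 2) :=
      mul_le_mul_of_nonneg_left ((ha.2.trans (min_le_left _ _)).trans ha₁c) (by positivity)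
    have h2 : 2 / c₁ * (c₁ / 2) = 1 := by field_simp
    linarith [hA a ha]
  intro a ha
  refine ⟨ht_nonneg a ha, ?_⟩
  rcases le_total a a₁ with h | h
  · exact (hA1 a ⟨ha.1, le_min h ha.2⟩).trans hT1
  · have hab : a₁ ≤ b := h.trans ha.2
    have hsub : Icc a₁ b ⊆ Icc 0 b := Icc_subset_Icc ha₁0.le le_rfl
    have hanti : AntitoneOn (fun x => t x - θ x / Real.sin a₁) (Icc a₁ b) := by
      refine antitoneOn_of_deriv_nonpos (convex_Icc a₁ b)
        ((htc.mono hsub).sub ((hθc.mono hsub).div_const _)) ?_ ?_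
      · intro x hx
        rw [interior_Icc] at hx
        have hx' : x ∈ Ioo 0 b := ⟨ha₁0.trans hx.1, hx.2⟩
        exact (((hdt' x hx').sub ((hdθ' x hx').div_const _)).differentiableAt).differentiableWithinAt
      · intro x hx
        rw [interior_Icc] at hx
        have hx' : x ∈ Ioo 0 b := ⟨ha₁0.trans hx.1, hx.2⟩
        have hd := (hdt' x hx').sub ((hdθ' x hx').div_const (Real.sin a₁))
        have hd' : deriv (fun x => t x - θ x / Real.sin a₁) x =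
            Real.cos x / cutDen n F K c T ε x (t x) (θ x) -
              Real.sin x / cutDen n F K c T ε x (t x) (θ x) / Real.sin a₁ := hd.deriv
        rw [hd']
        have hDx := hD x ⟨hx'.1.le, hx'.2.le⟩
        have hsx : Real.sin a₁ ≤ Real.sin x :=
          Real.sin_le_sin_of_le_of_le_pi_div_two (by linarith) (hx'.2.le.trans hb.2) hx.1.le
        have h1 : 1 ≤ Real.sin x / Real.sin a₁ := by rwa [one_le_div hs₁]
        have h2 : Real.cos x ≤ Real.sin x / Real.sin a₁ := (Real.cos_le_one x).trans h1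
        have h3 : Real.sin x / cutDen n F K c T ε x (t x) (θ x) / Real.sin a₁ =
            (Real.sin x / Real.sin a₁) / cutDen n F K c T ε x (t x) (θ x) := by
          rw [div_right_comm]
        rw [h3, ← sub_div]
        exact div_nonpos_of_nonpos_of_nonneg (by linarith) hDx.le
    have hm1 : a₁ ∈ Icc a₁ b := ⟨le_rfl, hab⟩
    have hle := hanti hm1 ⟨h, ha.2⟩ h
    simp only at hle
    have h1 : t a₁ ≤ 1 := hA1 a₁ ⟨ha₁0.le, le_min le_rfl hab⟩
    have h2 : 0 < θ a₁ / Real.sin a₁ := div_pos (hθ_pos a₁ ⟨ha₁0.le, hab⟩) hs₁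
    have h3 : θ a / Real.sin a₁ ≤ (Real.pi / 2) / Real.sin a₁ :=
      div_le_div_of_nonneg_right (hθb a ha) hs₁.le
    rw [hT]
    linarith

end TwinBubble
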