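import Pool.Agent.H11.TB.Defs

/-!
# FProps: the function `F = |x| φ` of a rotationally symmetric metric
`F t = e^t φ(e^t e₀)`; `F (-t) = F t` from the antipodal symmetry, `K = n F'/F` is odd.
`phi_eq`: `φ x = F (log |x|) / |x|` for `x ≠ 0`.
`exists_slice`: `K t / F t = n F'/F² → +∞` as `t → -∞`
(`F' = e^t φ + e^(2t) Dφ(e^t e₀) e₀`, so `n F'/F² = n e^(-t) (φ + e^t Dφ e₀)/φ²`), `K 0 = 0`; IVT.
-/

open scoped ContDiff NNReal
open Set

namespace TwinBubble

variable {n : ℕ} {φ : E n → ℝ}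

theorem norm_e0 (n : ℕ) : ‖e0 n‖ = 1 := by
  unfold e0
  rw [PiLp.norm_single, norm_one]

theorem Fr_pos (h : IsRotMetric φ) (t : ℝ) : 0 < Fr φ t :=
  mul_pos (Real.exp_pos t) (h.pos _)

theorem Fr_smooth (h : IsRotMetric φ) : ContDiff ℝ ∞ (Fr φ) := by
  have h1 : ContDiff ℝ ∞ (fun t : ℝ => Real.exp t • e0 n) := Real.contDiff_exp.smul contDiff_const
  exact Real.contDiff_exp.mul (h.smooth.comp h1)

theorem Kr_smooth (h : IsRotMetric φ) : ContDiff ℝ ∞ (Kr φ) := by
  have h1 : ContDiff ℝ ∞ (deriv (Fr φ)) := (contDiff_infty_iff_deriv.1 (Fr_smooth h)).2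
  exact (contDiff_const.mul h1).div (Fr_smooth h) fun t => (Fr_pos h t).ne'

theorem Fr_even (h : IsRotMetric φ) (t : ℝ) : Fr φ (-t) = Fr φ t := by
  have hn : ‖Real.exp t • e0 n‖ = Real.exp t := by
    rw [norm_smul, norm_e0, mul_one, Real.norm_eq_abs, abs_of_pos (Real.exp_pos t)]
  have hne : Real.exp t • e0 n ≠ 0 := by
    intro h0
    rw [h0, norm_zero] at hn
    exact (Real.exp_pos t).ne hn
  have h1 := h.anti _ hne
  have h2 : ‖anti (Real.exp t • e0 n)‖ = ‖Real.exp (-t) • e0 n‖ := by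
    unfold anti
    rw [norm_neg, norm_smul, hn, norm_smul, norm_e0, mul_one, Real.norm_eq_abs,
      Real.norm_eq_abs, abs_of_pos (Real.exp_pos (-t)), abs_of_pos (by positivity), Real.exp_neg]
    have := Real.exp_pos t
    field_simp
  have h3 := h.radial _ _ h2
  unfold Fr
  rw [← h3, h1, hn, Real.exp_neg]
  have := Real.exp_pos t
  field_simp

theorem Kr_odd (h : IsRotMetric φ) (t : ℝ) : Kr φ (-t) = -Kr φ t := by
  have h1 : deriv (Fr φ) (-t) = -deriv (Fr φ) t := by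
    have h2 : (fun s => Fr φ (-s)) = Fr φ := funext (Fr_even h)
    have h3 : deriv (fun s => Fr φ (-s)) t = -deriv (Fr φ) (-t) := deriv_comp_neg (Fr φ) t
    rw [h2] at h3
    rw [h3, neg_neg]
  unfold Kr
  rw [h1, Fr_even h, mul_neg, neg_div]

theorem phi_eq (h : IsRotMetric φ) {x : E n} (hx : x ≠ 0) : φ x = Fr φ (Tc x) / ‖x‖ := by
  have hp : 0 < ‖x‖ := norm_pos_iff.2 hx
  unfold Fr Tc
  rw [Real.exp_log hp, mul_comm, mul_div_assoc, div_self hp.ne', mul_one]
  apply h.radial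
  rw [norm_smul, norm_e0, mul_one, norm_norm]

/-- far out `K > c F` -/
theorem fprops_below (h : IsRotMetric φ) (hn : 1 ≤ n) (c : ℝ) :
    ∃ t₂ : ℝ, ∀ t ≤ t₂, c * Fr φ t < Kr φ t := by
  have hG : ContDiff ℝ ∞ (fun s : ℝ => φ (s • e0 n)) :=
    h.smooth.comp (contDiff_id.smul contDiff_const)
  set G : ℝ → ℝ := fun s : ℝ => φ (s • e0 n) with hGdef
  have hGd : Differentiable ℝ G := hG.differentiable (by simp)
  have hG' : Continuous (deriv G) := (contDiff_infty_iff_deriv.1 hG).2.continuous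
  have hQ : Continuous (fun s : ℝ => (n : ℝ) * (G s + s * deriv G s) - c * s * G s ^ 2) := by
    have := hG.continuous
    fun_prop
  have hn' : (0 : ℝ) < n := by exact_mod_cast hn
  have hQ0 : 0 < (fun s : ℝ => (n : ℝ) * (G s + s * deriv G s) - c * s * G s ^ 2) 0 := by
    have h0 : 0 < G 0 := h.pos _
    simp only [zero_mul, add_zero, mul_zero, sub_zero]
    positivity
  obtain ⟨δ, hδ, hδ2⟩ := Metric.eventually_nhds_iff.1
    (hQ.continuousAt.eventually (lt_mem_nhds hQ0))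
  refine ⟨Real.log (δ / 2), fun t ht => ?_⟩
  have he : Real.exp t ≤ δ / 2 := by
    rw [← Real.exp_log (show 0 < δ / 2 by positivity)]
    exact Real.exp_le_exp.2 ht
  have hep := Real.exp_pos t
  have h1 := hδ2 (y := Real.exp t) (by
    rw [Real.dist_eq, sub_zero, abs_of_pos hep]
    linarith)
  have hFd : deriv (Fr φ) t = Real.exp t * (G (Real.exp t) + Real.exp t * deriv G (Real.exp t)) := by
    have h2 : HasDerivAt (fun s => G (Real.exp s)) (deriv G (Real.exp t) * Real.exp t) t :=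
      (hGd (Real.exp t)).hasDerivAt.comp t (Real.hasDerivAt_exp t)
    have h3 : HasDerivAt (Fr φ)
        (Real.exp t * G (Real.exp t) + Real.exp t * (deriv G (Real.exp t) * Real.exp t)) t :=
      (Real.hasDerivAt_exp t).mul h2
    rw [h3.deriv]
    ring
  have hFe : Fr φ t = Real.exp t * G (Real.exp t) := rfl
  have hGp : 0 < G (Real.exp t) := h.pos _
  have hK : Kr φ t = n * (G (Real.exp t) + Real.exp t * deriv G (Real.exp t)) / G (Real.exp t) := by
    unfold Kr
    rw [hFd, hFe]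
    field_simp
  rw [hK, hFe, lt_div_iff₀ hGp]
  have h4 : 0 < (n : ℝ) * (G (Real.exp t) + Real.exp t * deriv G (Real.exp t)) -
    c * Real.exp t * G (Real.exp t) ^ 2 := h1
  nlinarith [h4]

theorem exists_slice (h : IsRotMetric φ) (hn : 1 ≤ n) (c : ℝ) (hc : 0 < c) :
    ∃ t < 0, Kr φ t = c * Fr φ t := by
  obtain ⟨t₂, ht₂⟩ := fprops_below h hn c
  have h0 : Kr φ 0 = 0 := by
    have := Kr_odd h 0
    rw [neg_zero] at this
    linarith
  have hF0 := mul_pos hc (Fr_pos h 0)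
  have ht0 : t₂ < 0 := by
    by_contra hcon
    have := ht₂ 0 (not_lt.1 hcon)
    linarith
  have hcont : ContinuousOn (fun t => Kr φ t - c * Fr φ t) (Icc t₂ 0) :=
    ((Kr_smooth h).continuous.sub ((Fr_smooth h).continuous.const_mul c)).continuousOn
  have h1 : (0 : ℝ) ∈ Icc ((fun t => Kr φ t - c * Fr φ t) 0) ((fun t => Kr φ t - c * Fr φ t) t₂) := by
    constructor
    · show Kr φ 0 - c * Fr φ 0 ≤ 0
      linarith
    · show 0 ≤ Kr φ t₂ - c * Fr φ t₂
      have := ht₂ t₂ le_rfl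
      linarith
  obtain ⟨t, ht, htz⟩ := intermediate_value_Icc' ht0.le hcont h1
  have htz' : Kr φ t - c * Fr φ t = 0 := htz
  refine ⟨t, lt_of_le_of_ne ht.2 ?_, by linarith⟩
  rintro rfl
  linarith

end TwinBubble
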