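import Pool.Agent.H11.TB.Polar
import Pool.Agent.H11.TB.FProps

/-!
# Curv: mean curvature in polar coordinates
Near `x` the field in `meanCurv` is `φ^n (sin a er - cos a eA) = f • y + g • e` with
`f = φ^n (sin a - cos a cos θ / sin θ) / |y|`, `g = φ^n cos a / sin θ`, `a = α (Tc y, Ac e y)`,
`φ^n = (F (Tc y) / |y|)^n`.  `divergence (f • y + g • e) = (n+1) f + Df[x] + Dg[e]`; `D Tc [x] = 1`,
`D Ac [x] = 0`, `D Tc [e] = cos θ / |x|`, `D Ac [e] = - sin θ / |x|`.
-/

open scoped ContDiff NNReal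
open Set

namespace TwinBubble

variable {n : ℕ} {φ : E n → ℝ}

/-- `div (f y + g e) = (n+1) f + Df[x] + Dg[e]` -/
theorem divergence_comb (f g : E n → ℝ) (e x : E n) (f' g' : E n →L[ℝ] ℝ)
    (hf : HasFDerivAt f f' x) (hg : HasFDerivAt g g' x) :
    divergence (fun y => f y • y + g y • e) x = (n + 1) * f x + f' x + g' e := by
  have h1 : HasFDerivAt (fun y => f y • y + g y • e)
      ((f x • ContinuousLinearMap.id ℝ (E n) + f'.smulRight x) + g'.smulRight e) x :=
    (hf.smul (hasFDerivAt_id x)).add (hg.smul_const e)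
  have h2 : ∀ (L : E n →L[ℝ] ℝ) (z : E n), ∑ i, L (EuclideanSpace.single i 1) * z i = L z := by
    intro L z
    have h3 : z = ∑ i, z i • EuclideanSpace.single i (1 : ℝ) := by
      ext j
      simp [Pi.single_apply]
    conv_rhs => rw [h3, map_sum]
    refine Finset.sum_congr rfl fun i _ => ?_
    rw [map_smul, smul_eq_mul, mul_comm]
  unfold divergence
  rw [h1.fderiv]
  have h4 : ∀ i : Fin (n + 1), (((f x • ContinuousLinearMap.id ℝ (E n) + f'.smulRight x) + g'.smulRight e)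
      (EuclideanSpace.single i 1)) i = f x + f' (EuclideanSpace.single i 1) * x i +
        g' (EuclideanSpace.single i 1) * e i := by
    intro i
    simp
  simp only [h4, Finset.sum_add_distrib, h2]
  simp

/-- `divergence` only depends on the germ -/
theorem divergence_congr {X Y : E n → E n} {x : E n} (h : X =ᶠ[nhds x] Y) :
    divergence X x = divergence Y x := by
  unfold divergence
  rw [h.fderiv_eq]

theorem meanCurv_polar (h : IsRotMetric φ) (e : E n) (he : ‖e‖ = 1) (x : E n)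
    (hx : x ∈ offAxis e) (u : E n → ℝ) (α : ℝ × ℝ → ℝ) (μ : E n → ℝ) (α₁ α₂ : ℝ)
    (hμ : ∀ᶠ y in nhds x, 0 < μ y)
    (hu : ∀ᶠ y in nhds x, gradient u y = μ y • (Real.sin (α (Tc y, Ac e y)) • er y -
      Real.cos (α (Tc y, Ac e y)) • eA e y))
    (hα : HasFDerivAt α (α₁ • ContinuousLinearMap.fst ℝ ℝ ℝ + α₂ • ContinuousLinearMap.snd ℝ ℝ ℝ)
      (Tc x, Ac e x)) :
    meanCurv φ u x = (Fr φ (Tc x))⁻¹ *
      (Real.cos (α (Tc x, Ac e x)) * α₁ + Real.sin (α (Tc x, Ac e x)) * α₂ +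
        Kr φ (Tc x) * Real.sin (α (Tc x, Ac e x)) -
        ((n : ℝ) - 1) * Real.cos (α (Tc x, Ac e x)) *
          (Real.cos (Ac e x) / Real.sin (Ac e x))) := by
  classical
  have hx0 : x ≠ 0 := ne_zero_of_offAxis hx
  have hnx : 0 < ‖x‖ := norm_pos_iff.2 hx0
  have hsx : 0 < Real.sin (Ac e x) := sin_Ac_pos hx
  have hoff : ∀ᶠ y in nhds x, y ∈ offAxis e := (isOpen_offAxis e).mem_nhds hx
  set T' : E n →L[ℝ] ℝ := innerSL ℝ (‖x‖⁻¹ • er x) with hT'
  set A' : E n →L[ℝ] ℝ := innerSL ℝ (‖x‖⁻¹ • eA e x) with hA'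
  have hT : HasFDerivAt (Tc (n := n)) T' x := hasFDerivAt_Tc hx0
  have hA : HasFDerivAt (Ac e) A' x := hasFDerivAt_Ac he hx
  have hx_er : x = ‖x‖ • er x := by
    unfold er
    rw [smul_smul, mul_inv_cancel₀ hnx.ne', one_smul]
  have her_e : inner ℝ (er x) e = Real.cos (Ac e x) := by
    rw [cos_Ac he hx0]
    unfold er
    rw [real_inner_smul_left, inv_mul_eq_div]
  have hTx : T' x = 1 := by
    rw [hT', innerSL_apply_apply]
    conv_lhs => rw [hx_er]
    rw [real_inner_smul_left, real_inner_smul_right, ← hx_er]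
    have : inner ℝ (er x) (er x) = 1 := by
      rw [real_inner_self_eq_norm_sq, norm_er hx0]; norm_num
    rw [this]
    field_simp
  have hAx : A' x = 0 := by
    rw [hA', innerSL_apply_apply]
    have : inner ℝ (‖x‖⁻¹ • eA e x) x = ‖x‖⁻¹ * (‖x‖ * inner ℝ (er x) (eA e x)) := by
      conv_lhs => rw [show inner ℝ (‖x‖⁻¹ • eA e x) x = inner ℝ (‖x‖⁻¹ • eA e x) (‖x‖ • er x) from by
        rw [← hx_er]]
      rw [real_inner_smul_left, real_inner_smul_right, real_inner_comm]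
    rw [this, inner_er_eA he hx]; simp
  have hTe : T' e = ‖x‖⁻¹ * Real.cos (Ac e x) := by
    rw [hT', innerSL_apply_apply, real_inner_smul_left, her_e]
  have hAe : A' e = -(‖x‖⁻¹ * Real.sin (Ac e x)) := by
    rw [hA', innerSL_apply_apply, real_inner_smul_left]
    unfold eA
    rw [real_inner_smul_left, inner_sub_left, real_inner_smul_left, her_e,
      real_inner_self_eq_norm_sq, he]
    have h1 := Real.sin_sq_add_cos_sq (Ac e x)
    have h2 : Real.cos (Ac e x) * Real.cos (Ac e x) - 1 ^ 2 = -(Real.sin (Ac e x) ^ 2) := by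
      linarith
    rw [h2]
    field_simp
  -- the derivatives
  have ha : HasFDerivAt (fun y => α (Tc y, Ac e y)) (α₁ • T' + α₂ • A') x := by
    have h1 := hα.comp x (hT.prodMk hA)
    refine h1.congr_fderiv ?_
    ext v
    simp
  have hFpos : 0 < Fr φ (Tc x) := Fr_pos h (Tc x)
  have hF : HasDerivAt (Fr φ) (deriv (Fr φ) (Tc x)) (Tc x) :=
    ((Fr_smooth h).differentiable (by simp)).differentiableAt.hasDerivAt
  set P : E n → ℝ := fun y => (Fr φ (Tc y) * Real.exp (-Tc y)) ^ n with hP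
  have hPd : HasFDerivAt P ((P x * (Kr φ (Tc x) - n)) • T') x := by
    have h1 : HasDerivAt (fun T : ℝ => Real.exp (-T)) (-Real.exp (-Tc x)) (Tc x) := by
      have := (hasDerivAt_neg (Tc x)).exp
      simpa using this
    have h2 := ((hF.mul h1).pow n).comp_hasFDerivAt x hT
    refine (h2.congr_fderiv ?_)
    congr 1
    rw [hP]
    simp only [Pi.mul_apply]
    unfold Kr
    rcases Nat.eq_zero_or_pos n with hn | hn
    · subst hn; simp
    · obtain ⟨k, rfl⟩ : ∃ k, n = k + 1 := ⟨n - 1, by omega⟩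
      have hne : Fr φ (Tc x) ≠ 0 := hFpos.ne'
      rw [Nat.add_sub_cancel, pow_succ]
      field_simp
      ring
  have hq : HasFDerivAt (fun y => Real.exp (-Tc y)) (-(Real.exp (-Tc x)) • T') x := by
    have h1 := hT.neg.exp
    refine h1.congr_fderiv ?_
    ext v; simp
  have hsin := ha.sin
  have hcos := ha.cos
  have hS := hA.sin
  have hC := hA.cos
  set s : ℝ := Real.sin (α (Tc x, Ac e x)) with hs
  set c : ℝ := Real.cos (α (Tc x, Ac e x)) with hc
  set S : ℝ := Real.sin (Ac e x) with hSS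
  set C : ℝ := Real.cos (Ac e x) with hCC
  have hSC : S ^ 2 + C ^ 2 = 1 := Real.sin_sq_add_cos_sq _
  have hSinv : HasFDerivAt (fun y => (Real.sin (Ac e y))⁻¹) (-(C / S ^ 2) • A') x := by
    have h1 : HasDerivAt (fun z : ℝ => z⁻¹) (-(S ^ 2)⁻¹) S := hasDerivAt_inv hsx.ne'
    have h2 := h1.comp_hasFDerivAt x hS
    refine h2.congr_fderiv ?_
    ext v
    simp only [_root_.smul_apply, smul_eq_mul]
    ring
  set f : E n → ℝ := fun y => P y * (Real.sin (α (Tc y, Ac e y)) - Real.cos (α (Tc y, Ac e y)) *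
    (Real.cos (Ac e y) * (Real.sin (Ac e y))⁻¹)) * Real.exp (-Tc y) with hf
  set g : E n → ℝ := fun y => P y * (Real.cos (α (Tc y, Ac e y)) * (Real.sin (Ac e y))⁻¹) with hg
  have hfd := (hPd.mul (hsin.sub (hcos.mul (hC.mul hSinv)))).mul hq
  have hgd := hPd.mul (hcos.mul hSinv)
  have hcong : (fun y => (φ y ^ n * ‖gradient u y‖⁻¹) • gradient u y) =ᶠ[nhds x]
      (fun y => f y • y + g y • e) := by
    filter_upwards [hoff, hμ, hu] with y hy hμy huy
    have hy0 : y ≠ 0 := ne_zero_of_offAxis hy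
    have hny : 0 < ‖y‖ := norm_pos_iff.2 hy0
    have hnorm : ‖Real.sin (α (Tc y, Ac e y)) • er y - Real.cos (α (Tc y, Ac e y)) • eA e y‖ = 1 := by
      have h1 := norm_comb he hy (Real.sin (α (Tc y, Ac e y))) (-Real.cos (α (Tc y, Ac e y)))
      have h2 := Real.sin_sq_add_cos_sq (α (Tc y, Ac e y))
      rw [neg_smul, ← sub_eq_add_neg] at h1
      have h3 : ‖Real.sin (α (Tc y, Ac e y)) • er y - Real.cos (α (Tc y, Ac e y)) • eA e y‖ ^ 2 = 1 := by
        rw [h1]; linarith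
      have h4 := norm_nonneg (Real.sin (α (Tc y, Ac e y)) • er y - Real.cos (α (Tc y, Ac e y)) • eA e y)
      nlinarith
    have hgn : ‖gradient u y‖ = μ y := by
      rw [huy, norm_smul, hnorm, Real.norm_eq_abs, abs_of_pos hμy, mul_one]
    have hexp : Real.exp (-Tc y) = ‖y‖⁻¹ := by
      unfold Tc
      rw [Real.exp_neg, Real.exp_log hny]
    have hφ : φ y = Fr φ (Tc y) * Real.exp (-Tc y) := by
      rw [phi_eq h hy0, hexp, div_eq_mul_inv]
    rw [hgn, huy, smul_smul, mul_assoc, inv_mul_cancel₀ hμy.ne', mul_one, hφ]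
    simp only [hf, hg, hP]
    rw [← hφ]
    unfold eA er
    rw [hexp]
    module
  have hdiv := divergence_comb f g e x _ _ hfd hgd
  unfold meanCurv
  rw [divergence_congr hcong, hdiv]
  have hexpx : Real.exp (-Tc x) = ‖x‖⁻¹ := by
    unfold Tc
    rw [Real.exp_neg, Real.exp_log hnx]
  have hφx : φ x = Fr φ (Tc x) * ‖x‖⁻¹ := by
    rw [phi_eq h hx0, div_eq_mul_inv]
  have hPx : P x = φ x ^ n := by
    simp only [hP]
    rw [hexpx, hφx]
  have hφpos : 0 < φ x := h.pos x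
  simp only [_root_.add_apply, _root_.smul_apply, _root_.sub_apply, Pi.mul_apply, Pi.sub_apply,
    smul_eq_mul, hTx, hAx, hTe, hAe, hexpx, hf]
  simp only [← hs, ← hc, ← hSS, ← hCC, hPx]
  have hFx : (Fr φ (Tc x))⁻¹ = (φ x)⁻¹ * ‖x‖⁻¹ := by
    rw [hφx]; field_simp
  rw [hFx, pow_succ]
  have hS0 : S ≠ 0 := hsx.ne'
  have hφ0 : φ x ^ n ≠ 0 := (pow_pos hφpos n).ne'
  field_simp
  ring

end TwinBubble
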