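import Pool.Agent.H11.TB.FPropsW
import Pool.Agent.H11.TB.Curv
import Pool.Agent.H11.TB.Slice

/-!
# CurvW: the warped mean curvature in polar coordinates
`D(log ψ)(x) v = (Lr ψ)'(Tc x) ⟪|x|⁻¹ er x, v⟫` (from `log_psi_eq`), and `φ x = F / |x|`, so
`∂_ν log ψ = (Lr ψ)' ⟪er, unit normal⟫ / F`.  Add this to `meanCurv_polar`, `meanCurv_radial`.
-/

open scoped ContDiff NNReal
open Set

namespace TwinBubble

variable {n : ℕ} {φ ψ : E n → ℝ}

theorem fderiv_log_psi (h' : IsRotWeight ψ) {x : E n} (hx : x ≠ 0) (v : E n) :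
    fderiv ℝ (fun y => Real.log (ψ y)) x v = deriv (Lr ψ) (Tc x) * (‖x‖⁻¹ * inner ℝ (er x) v) := by
  have hcong : (fun y => Real.log (ψ y)) =ᶠ[nhds x] (Lr ψ) ∘ (Tc (n := n)) := by
    filter_upwards [isOpen_ne.mem_nhds hx] with y hy
    exact log_psi_eq h' hy
  have hL : HasDerivAt (Lr ψ) (deriv (Lr ψ) (Tc x)) (Tc x) :=
    ((Lr_smooth h').differentiable (by simp)).differentiableAt.hasDerivAt
  have h1 := hL.comp_hasFDerivAt x (hasFDerivAt_Tc hx)
  rw [hcong.fderiv_eq, h1.fderiv]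
  simp only [_root_.smul_apply, smul_eq_mul, innerSL_apply_apply, real_inner_smul_left]

private theorem dir_term (h : IsRotMetric φ) (h' : IsRotWeight ψ) {x : E n} (hx : x ≠ 0) (w : E n) :
    fderiv ℝ (fun y => Real.log (ψ y)) x ((φ x)⁻¹ • w) =
      (Fr φ (Tc x))⁻¹ * (deriv (Lr ψ) (Tc x) * inner ℝ (er x) w) := by
  have hnx : 0 < ‖x‖ := norm_pos_iff.2 hx
  have hF : 0 < Fr φ (Tc x) := Fr_pos h (Tc x)
  rw [fderiv_log_psi h' hx, real_inner_smul_right, phi_eq h hx]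
  field_simp

theorem meanCurvW_polar (h : IsRotMetric φ) (h' : IsRotWeight ψ) (e : E n) (he : ‖e‖ = 1)
    (x : E n) (hx : x ∈ offAxis e) (u : E n → ℝ) (α : ℝ × ℝ → ℝ) (μ : E n → ℝ) (α₁ α₂ : ℝ)
    (hμ : ∀ᶠ y in nhds x, 0 < μ y)
    (hu : ∀ᶠ y in nhds x, gradient u y = μ y • (Real.sin (α (Tc y, Ac e y)) • er y -
      Real.cos (α (Tc y, Ac e y)) • eA e y))
    (hα : HasFDerivAt α (α₁ • ContinuousLinearMap.fst ℝ ℝ ℝ + α₂ • ContinuousLinearMap.snd ℝ ℝ ℝ)
      (Tc x, Ac e x)) :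
    meanCurvW φ ψ u x = (Fr φ (Tc x))⁻¹ *
      (Real.cos (α (Tc x, Ac e x)) * α₁ + Real.sin (α (Tc x, Ac e x)) * α₂ +
        KrW φ ψ (Tc x) * Real.sin (α (Tc x, Ac e x)) -
        ((n : ℝ) - 1) * Real.cos (α (Tc x, Ac e x)) *
          (Real.cos (Ac e x) / Real.sin (Ac e x))) := by
  have hx0 : x ≠ 0 := ne_zero_of_offAxis hx
  have hμx : 0 < μ x := hμ.self_of_nhds
  have hux := hu.self_of_nhds
  set s : ℝ := Real.sin (α (Tc x, Ac e x)) with hs
  set c : ℝ := Real.cos (α (Tc x, Ac e x)) with hc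
  have hnorm : ‖s • er x - c • eA e x‖ = 1 := by
    have h1 := norm_comb he hx s (-c)
    have h2 := Real.sin_sq_add_cos_sq (α (Tc x, Ac e x))
    rw [← hs, ← hc] at h2
    rw [neg_smul, ← sub_eq_add_neg] at h1
    have h3 : ‖s • er x - c • eA e x‖ ^ 2 = 1 := by
      rw [h1]; linarith
    have h4 := norm_nonneg (s • er x - c • eA e x)
    nlinarith
  have hg : ‖gradient u x‖⁻¹ • gradient u x = s • er x - c • eA e x := by
    rw [hux, norm_smul, hnorm, Real.norm_eq_abs, abs_of_pos hμx, mul_one, smul_smul,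
      inv_mul_cancel₀ hμx.ne', one_smul]
  have hin : inner ℝ (er x) (s • er x - c • eA e x) = s := by
    rw [inner_sub_right, real_inner_smul_right, real_inner_smul_right, inner_er_eA he hx,
      real_inner_self_eq_norm_sq, norm_er hx0]
    ring
  unfold meanCurvW KrW
  rw [meanCurv_polar h e he x hx u α μ α₁ α₂ hμ hu hα, hg, dir_term h h' hx0, hin, ← hs, ← hc]
  ring

theorem meanCurvW_radial (h : IsRotMetric φ) (h' : IsRotWeight ψ) (σ t₁ : ℝ)
    (hσ : σ = 1 ∨ σ = -1) (x : E n) (hx : x ≠ 0) :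
    meanCurvW φ ψ (fun y => σ * (Real.log ‖y‖ - t₁)) x =
      σ * (KrW φ ψ (Tc x) / Fr φ (Tc x)) := by
  have hnx : 0 < ‖x‖ := norm_pos_iff.2 hx
  have hF : 0 < Fr φ (Tc x) := Fr_pos h (Tc x)
  have hgrad : gradient (fun y : E n => σ * (Real.log ‖y‖ - t₁)) x = σ • (‖x‖⁻¹ • er x) := by
    have h1 : HasFDerivAt (fun y : E n => σ * (Real.log ‖y‖ - t₁))
        (σ • innerSL ℝ (‖x‖⁻¹ • er x)) x := by
      have h2 := ((hasFDerivAt_Tc hx).sub_const t₁).const_mul σ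
      exact h2
    have h3 : HasGradientAt (fun y : E n => σ * (Real.log ‖y‖ - t₁)) (σ • (‖x‖⁻¹ • er x)) x := by
      rw [hasGradientAt_iff_hasFDerivAt]
      refine h1.congr_fderiv ?_
      ext v
      simp
    exact h3.gradient
  have hσ1 : |σ| = 1 := by
    rcases hσ with rfl | rfl <;> simp
  have hg : ‖gradient (fun y : E n => σ * (Real.log ‖y‖ - t₁)) x‖⁻¹ •
      gradient (fun y : E n => σ * (Real.log ‖y‖ - t₁)) x = σ • er x := by
    rw [hgrad, norm_smul, norm_smul, norm_er hx, Real.norm_eq_abs, hσ1, norm_inv, norm_norm,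
      mul_one, one_mul, inv_inv, smul_smul, smul_smul]
    congr 1
    field_simp
  have hin : inner ℝ (er x) (σ • er x) = σ := by
    rw [real_inner_smul_right, real_inner_self_eq_norm_sq, norm_er hx]
    ring
  unfold meanCurvW KrW
  rw [meanCurv_radial h σ t₁ hσ x hx, hg, dir_term h h' hx, hin]
  field_simp

end TwinBubble
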