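import Pool.Agent.H11.TB.Defs

/-!
# Cut: the cut-off vector field is bounded and Lipschitz
`cutDen` is `den` at the clamped point: `t` clamped to `[0, T]`, `θ` clamped to `[ε, π/2]`.
There `cos a (cos θ / sin θ) ≥ 0` for `a ∈ [0, π/2]`, so `cutDen ≥ min (c F - K s) =: c₀ > 0`
(compactness of `[0,T] × [0,1]`).  Lipschitz: `F, K` are C¹ on `[0,T]`, `cos/sin` is C¹ on
`[ε, π/2]`, clamping is 1-Lipschitz, and `1/x` is Lipschitz on `[c₀, ∞)`.
-/

open scoped ContDiff NNReal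
open Set

noncomputable section

namespace TwinBubble

/-- clamp `x` to `[lo, hi]` -/
def cl (lo hi x : ℝ) : ℝ := max lo (min x hi)

/-- `den` at the clamped point -/
def cutDen (n : ℕ) (F K : ℝ → ℝ) (c T ε a t θ : ℝ) : ℝ :=
  den n F K c a (cl 0 T t) (cl ε (Real.pi / 2) θ)

/-- the cut-off vector field -/
def cutField (n : ℕ) (F K : ℝ → ℝ) (c T ε a : ℝ) (p : ℝ × ℝ) : ℝ × ℝ :=
  (Real.cos a / cutDen n F K c T ε a p.1 p.2, Real.sin a / cutDen n F K c T ε a p.1 p.2)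

private theorem cl_mem {lo hi : ℝ} (h : lo ≤ hi) (x : ℝ) : cl lo hi x ∈ Icc lo hi := by
  unfold cl
  exact ⟨le_max_left _ _, max_le h (min_le_right _ _)⟩

private theorem cl_lip (lo hi x y : ℝ) : |cl lo hi x - cl lo hi y| ≤ |x - y| := by
  unfold cl
  refine (abs_max_sub_max_le_max _ _ _ _).trans ?_
  refine max_le ?_ ?_
  · simp
  · refine (abs_min_sub_min_le_max _ _ _ _).trans ?_
    refine max_le le_rfl ?_
    simp

/-- lower bound, uniform in `ε` -/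
theorem cutDen_lower (n : ℕ) (hn : 1 ≤ n) (F K : ℝ → ℝ) (c T c₀ : ℝ) (hT : 0 ≤ T)
    (hc₀ : ∀ t ∈ Icc 0 T, ∀ s ∈ Icc (0 : ℝ) 1, c₀ ≤ c * F t - K t * s)
    (ε : ℝ) (hε : 0 < ε) (hε' : ε ≤ Real.pi / 2) :
    ∀ a ∈ Icc 0 (Real.pi / 2), ∀ t θ, c₀ ≤ cutDen n F K c T ε a t θ := by
  intro a ha t θ
  unfold cutDen den
  have h1 := cl_mem hT t
  have h2 := cl_mem hε' θ
  set t' := cl 0 T t
  set θ' := cl ε (Real.pi / 2) θ
  have hpi := Real.pi_pos
  have hs : Real.sin a ∈ Icc (0 : ℝ) 1 :=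
    ⟨Real.sin_nonneg_of_mem_Icc ⟨ha.1, by linarith [ha.2]⟩, Real.sin_le_one a⟩
  have h3 := hc₀ t' h1 _ hs
  have hcos : 0 ≤ Real.cos a := Real.cos_nonneg_of_mem_Icc ⟨by linarith [ha.1], ha.2⟩
  have hcosθ : 0 ≤ Real.cos θ' := Real.cos_nonneg_of_mem_Icc ⟨by linarith [h2.1], h2.2⟩
  have hsinθ : 0 ≤ Real.sin θ' :=
    Real.sin_nonneg_of_mem_Icc ⟨by linarith [h2.1], by linarith [h2.2]⟩
  have hn' : (0 : ℝ) ≤ (n : ℝ) - 1 := by
    have : (1 : ℝ) ≤ n := by exact_mod_cast hn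
    linarith
  have h4 : 0 ≤ ((n : ℝ) - 1) * Real.cos a * (Real.cos θ' / Real.sin θ') :=
    mul_nonneg (mul_nonneg hn' hcos) (div_nonneg hcosθ hsinθ)
  linarith

theorem exists_lower (F K : ℝ → ℝ) (hF : ContDiff ℝ ∞ F) (hK : ContDiff ℝ ∞ K) (c T : ℝ)
    (hT : 0 ≤ T) (hpos : ∀ t ∈ Icc 0 T, ∀ s ∈ Icc (0 : ℝ) 1, 0 < c * F t - K t * s) :
    ∃ c₀ > 0, ∀ t ∈ Icc 0 T, ∀ s ∈ Icc (0 : ℝ) 1, c₀ ≤ c * F t - K t * s := by
  have hcpt : IsCompact (Icc 0 T ×ˢ Icc (0 : ℝ) 1) := isCompact_Icc.prod isCompact_Icc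
  have hne : (Icc 0 T ×ˢ Icc (0 : ℝ) 1).Nonempty :=
    ⟨(0, 0), ⟨left_mem_Icc.2 hT, left_mem_Icc.2 zero_le_one⟩⟩
  have hcont : Continuous (fun p : ℝ × ℝ => c * F p.1 - K p.1 * p.2) := by
    have := hF.continuous
    have := hK.continuous
    fun_prop
  obtain ⟨p, hp, hmin⟩ := hcpt.exists_isMinOn hne hcont.continuousOn
  refine ⟨c * F p.1 - K p.1 * p.2, hpos p.1 hp.1 p.2 hp.2, ?_⟩
  intro t ht s hs
  exact hmin (show (t, s) ∈ Icc 0 T ×ˢ Icc (0 : ℝ) 1 from ⟨ht, hs⟩)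

private theorem lip_smooth (f : ℝ → ℝ) (hf : ContDiff ℝ ∞ f) (a b : ℝ) :
    ∃ C : ℝ, 0 ≤ C ∧ ∀ x ∈ Icc a b, ∀ y ∈ Icc a b, |f x - f y| ≤ C * |x - y| := by
  have hd : Differentiable ℝ f := hf.differentiable (by simp)
  have hc : Continuous (deriv f) := hf.continuous_deriv (by simp)
  obtain ⟨C, hC⟩ := isCompact_Icc.exists_bound_of_continuousOn (s := Icc a b) hc.continuousOn
  refine ⟨max C 0, le_max_right _ _, ?_⟩
  intro x hx y hy
  have := Convex.norm_image_sub_le_of_norm_deriv_le (𝕜 := ℝ) (f := f) (C := max C 0)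
    (s := Icc a b) (fun z _ => hd z) (fun z hz => (hC z hz).trans (le_max_left _ _))
    (convex_Icc a b) hy hx
  simpa [Real.norm_eq_abs] using this

private theorem lip_cot (ε : ℝ) (hε : 0 < ε) :
    ∃ C : ℝ, 0 ≤ C ∧ ∀ x ∈ Icc ε (Real.pi / 2), ∀ y ∈ Icc ε (Real.pi / 2),
      |Real.cos x / Real.sin x - Real.cos y / Real.sin y| ≤ C * |x - y| := by
  have hpi := Real.pi_pos
  have hpos : ∀ z ∈ Icc ε (Real.pi / 2), 0 < Real.sin z := fun z hz =>
    Real.sin_pos_of_pos_of_lt_pi (by linarith [hz.1]) (by linarith [hz.2])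
  have hderiv : ∀ z ∈ Icc ε (Real.pi / 2),
      HasDerivWithinAt (fun z => Real.cos z / Real.sin z)
        ((-Real.sin z * Real.sin z - Real.cos z * Real.cos z) / Real.sin z ^ 2)
        (Icc ε (Real.pi / 2)) z := fun z hz =>
    ((Real.hasDerivAt_cos z).div (Real.hasDerivAt_sin z) (hpos z hz).ne').hasDerivWithinAt
  have hcont : ContinuousOn
      (fun z => (-Real.sin z * Real.sin z - Real.cos z * Real.cos z) / Real.sin z ^ 2)
      (Icc ε (Real.pi / 2)) := by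
    refine ContinuousOn.div (by fun_prop) (by fun_prop) ?_
    intro z hz
    exact pow_ne_zero 2 (hpos z hz).ne'
  obtain ⟨C, hC⟩ := isCompact_Icc.exists_bound_of_continuousOn
    (s := Icc ε (Real.pi / 2)) hcont
  refine ⟨max C 0, le_max_right _ _, ?_⟩
  intro x hx y hy
  have := Convex.norm_image_sub_le_of_norm_hasDerivWithin_le (C := max C 0) hderiv
    (fun z hz => (hC z hz).trans (le_max_left _ _)) (convex_Icc _ _) hy hx
  simpa [Real.norm_eq_abs] using this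

theorem cutField_props (n : ℕ) (hn : 1 ≤ n) (F K : ℝ → ℝ) (hF : ContDiff ℝ ∞ F)
    (hK : ContDiff ℝ ∞ K) (c T c₀ : ℝ) (hT : 0 ≤ T) (h0 : 0 < c₀)
    (hc₀ : ∀ t ∈ Icc 0 T, ∀ s ∈ Icc (0 : ℝ) 1, c₀ ≤ c * F t - K t * s)
    (ε : ℝ) (hε : 0 < ε) (hε' : ε ≤ Real.pi / 2) :
    ∃ L : ℝ≥0, (∀ a ∈ Icc 0 (Real.pi / 2), LipschitzWith L (cutField n F K c T ε a)) ∧
      (∀ p, ContinuousOn (fun a => cutField n F K c T ε a p) (Icc 0 (Real.pi / 2))) ∧
      ∀ a ∈ Icc 0 (Real.pi / 2), ∀ p, ‖cutField n F K c T ε a p‖ ≤ c₀⁻¹ := by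
  have hlow := cutDen_lower n hn F K c T c₀ hT hc₀ ε hε hε'
  obtain ⟨LF, hLF0, hLF⟩ := lip_smooth F hF 0 T
  obtain ⟨LK, hLK0, hLK⟩ := lip_smooth K hK 0 T
  obtain ⟨LC, hLC0, hLC⟩ := lip_cot ε hε
  have hn' : (0 : ℝ) ≤ (n : ℝ) - 1 := by
    have : (1 : ℝ) ≤ n := by exact_mod_cast hn
    linarith
  -- Lipschitz bound of cutDen
  set M : ℝ := |c| * LF + LK + ((n : ℝ) - 1) * LC with hM
  have hM0 : 0 ≤ M := by positivity
  have hden : ∀ a : ℝ, ∀ p q : ℝ × ℝ,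
      |cutDen n F K c T ε a p.1 p.2 - cutDen n F K c T ε a q.1 q.2| ≤ M * dist p q := by
    intro a p q
    unfold cutDen den
    have h1 := cl_mem hT p.1
    have h2 := cl_mem hT q.1
    have h3 := cl_mem hε' p.2
    have h4 := cl_mem hε' q.2
    have h5 := cl_lip 0 T p.1 q.1
    have h6 := cl_lip ε (Real.pi / 2) p.2 q.2
    have hd1 : |p.1 - q.1| ≤ dist p q := by
      rw [Prod.dist_eq, Real.dist_eq, Real.dist_eq]; exact le_max_left _ _
    have hd2 : |p.2 - q.2| ≤ dist p q := by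
      rw [Prod.dist_eq, Real.dist_eq, Real.dist_eq]; exact le_max_right _ _
    set t₁ := cl 0 T p.1
    set t₂ := cl 0 T q.1
    set θ₁ := cl ε (Real.pi / 2) p.2
    set θ₂ := cl ε (Real.pi / 2) q.2
    have e : c * F t₁ - K t₁ * Real.sin a
          + ((n : ℝ) - 1) * Real.cos a * (Real.cos θ₁ / Real.sin θ₁)
        - (c * F t₂ - K t₂ * Real.sin a
          + ((n : ℝ) - 1) * Real.cos a * (Real.cos θ₂ / Real.sin θ₂))
        = c * (F t₁ - F t₂) + (-(Real.sin a * (K t₁ - K t₂)))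
          + ((n : ℝ) - 1) * (Real.cos a *
            (Real.cos θ₁ / Real.sin θ₁ - Real.cos θ₂ / Real.sin θ₂)) := by ring
    rw [e]
    have hF1 : |F t₁ - F t₂| ≤ LF * dist p q :=
      (hLF _ h1 _ h2).trans (mul_le_mul_of_nonneg_left (h5.trans hd1) hLF0)
    have hK1 : |K t₁ - K t₂| ≤ LK * dist p q :=
      (hLK _ h1 _ h2).trans (mul_le_mul_of_nonneg_left (h5.trans hd1) hLK0)
    have hC1 : |Real.cos θ₁ / Real.sin θ₁ - Real.cos θ₂ / Real.sin θ₂| ≤ LC * dist p q :=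
      (hLC _ h3 _ h4).trans (mul_le_mul_of_nonneg_left (h6.trans hd2) hLC0)
    have hb1 : |c * (F t₁ - F t₂)| ≤ |c| * (LF * dist p q) := by
      rw [abs_mul]; exact mul_le_mul_of_nonneg_left hF1 (abs_nonneg _)
    have hb2 : |-(Real.sin a * (K t₁ - K t₂))| ≤ LK * dist p q := by
      rw [abs_neg, abs_mul]
      calc |Real.sin a| * |K t₁ - K t₂| ≤ 1 * |K t₁ - K t₂| :=
            mul_le_mul_of_nonneg_right (Real.abs_sin_le_one a) (abs_nonneg _)
        _ ≤ LK * dist p q := by rw [one_mul]; exact hK1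
    have hb3 : |((n : ℝ) - 1) * (Real.cos a *
        (Real.cos θ₁ / Real.sin θ₁ - Real.cos θ₂ / Real.sin θ₂))|
        ≤ ((n : ℝ) - 1) * (LC * dist p q) := by
      rw [abs_mul, abs_mul, abs_of_nonneg hn']
      refine mul_le_mul_of_nonneg_left ?_ hn'
      calc |Real.cos a| * |Real.cos θ₁ / Real.sin θ₁ - Real.cos θ₂ / Real.sin θ₂|
          ≤ 1 * |Real.cos θ₁ / Real.sin θ₁ - Real.cos θ₂ / Real.sin θ₂| :=
            mul_le_mul_of_nonneg_right (Real.abs_cos_le_one a) (abs_nonneg _)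
        _ ≤ LC * dist p q := by rw [one_mul]; exact hC1
    calc |c * (F t₁ - F t₂) + (-(Real.sin a * (K t₁ - K t₂)))
          + ((n : ℝ) - 1) * (Real.cos a *
            (Real.cos θ₁ / Real.sin θ₁ - Real.cos θ₂ / Real.sin θ₂))|
        ≤ |c * (F t₁ - F t₂)| + |-(Real.sin a * (K t₁ - K t₂))|
          + |((n : ℝ) - 1) * (Real.cos a *
            (Real.cos θ₁ / Real.sin θ₁ - Real.cos θ₂ / Real.sin θ₂))| := abs_add_three _ _ _
      _ ≤ |c| * (LF * dist p q) + LK * dist p q + ((n : ℝ) - 1) * (LC * dist p q) := by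
          linarith
      _ = M * dist p q := by rw [hM]; ring
  refine ⟨⟨M / c₀ ^ 2, by positivity⟩, ?_, ?_, ?_⟩
  · intro a ha
    refine LipschitzWith.of_dist_le_mul ?_
    intro p q
    have hp := hlow a ha p.1 p.2
    have hq := hlow a ha q.1 q.2
    have hpq := hden a p q
    have key : ∀ u : ℝ, |u| ≤ 1 →
        |u / cutDen n F K c T ε a p.1 p.2 - u / cutDen n F K c T ε a q.1 q.2|
          ≤ M / c₀ ^ 2 * dist p q := by
      intro u hu
      set D₁ := cutDen n F K c T ε a p.1 p.2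
      set D₂ := cutDen n F K c T ε a q.1 q.2
      have h1 : 0 < D₁ := lt_of_lt_of_le h0 hp
      have h2 : 0 < D₂ := lt_of_lt_of_le h0 hq
      have e : u / D₁ - u / D₂ = u * (-(D₁ - D₂)) / (D₁ * D₂) := by
        field_simp
        ring
      rw [e, abs_div, abs_mul, abs_neg, abs_of_pos (mul_pos h1 h2)]
      rw [div_le_iff₀ (mul_pos h1 h2)]
      have h3 : c₀ ^ 2 ≤ D₁ * D₂ := by
        rw [sq]; exact mul_le_mul hp hq h0.le h1.le
      have h4 : |u| * |D₁ - D₂| ≤ M * dist p q :=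
        calc |u| * |D₁ - D₂| ≤ 1 * |D₁ - D₂| :=
              mul_le_mul_of_nonneg_right hu (abs_nonneg _)
          _ ≤ M * dist p q := by rw [one_mul]; exact hpq
      have h5 : M * dist p q = M / c₀ ^ 2 * dist p q * c₀ ^ 2 := by
        field_simp
      have h6 : 0 ≤ M / c₀ ^ 2 * dist p q := by positivity
      calc |u| * |D₁ - D₂| ≤ M * dist p q := h4
        _ = M / c₀ ^ 2 * dist p q * c₀ ^ 2 := h5
        _ ≤ M / c₀ ^ 2 * dist p q * (D₁ * D₂) := mul_le_mul_of_nonneg_left h3 h6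
    rw [Prod.dist_eq]
    refine max_le ?_ ?_
    · rw [Real.dist_eq]
      exact key _ (Real.abs_cos_le_one a)
    · rw [Real.dist_eq]
      exact key _ (Real.abs_sin_le_one a)
  · intro p
    have hD : Continuous (fun a => cutDen n F K c T ε a p.1 p.2) := by
      unfold cutDen den
      fun_prop
    have hne : ∀ a ∈ Icc 0 (Real.pi / 2), cutDen n F K c T ε a p.1 p.2 ≠ 0 := fun a ha =>
      (lt_of_lt_of_le h0 (hlow a ha p.1 p.2)).ne'
    unfold cutField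
    exact (Real.continuous_cos.continuousOn.div hD.continuousOn hne).prodMk
      (Real.continuous_sin.continuousOn.div hD.continuousOn hne)
  · intro a ha p
    have hp := hlow a ha p.1 p.2
    have key : ∀ u : ℝ, |u| ≤ 1 → ‖u / cutDen n F K c T ε a p.1 p.2‖ ≤ c₀⁻¹ := by
      intro u hu
      rw [Real.norm_eq_abs, abs_div, abs_of_pos (lt_of_lt_of_le h0 hp), ← one_div]
      exact div_le_div₀ zero_le_one hu h0 hp
    unfold cutField
    rw [Prod.norm_def]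
    exact max_le (key _ (Real.abs_cos_le_one a)) (key _ (Real.abs_sin_le_one a))

end TwinBubble

end
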