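import Mathlib

/-!
# MP_3e1759_gt: closed CMC hypersurfaces in rotationally symmetric projective spaces

Definitions.  `S^(n+1) = ℝ^(n+1) ∪ {∞}` (stereographic chart), the antipodal map is
`anti x = - x / |x|²`, and an `O(n+1)`-invariant metric on `RP^(n+1)` is `φ² |dx|²` with a smooth
positive radial `φ` with `φ (anti x) = |x|² φ x`.
-/

open scoped ContDiff
open Set

noncomputable section

namespace TwinBubble

/-- The chart `ℝ^(n+1)` of the sphere `S^(n+1) = ℝ^(n+1) ∪ {∞}`. -/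
abbrev E (n : ℕ) := EuclideanSpace ℝ (Fin (n + 1))

variable {n : ℕ}

/-- The antipodal map of `S^(n+1)` in the stereographic chart, `x ↦ - x / |x|²`. -/
def anti (x : E n) : E n := -((‖x‖ ^ 2)⁻¹ • x)

/-- `φ² |dx|²` is a smooth rotationally symmetric Riemannian metric on `S^(n+1)` for which the
antipodal map is an isometry, i.e. it is (the lift of) an `O(n+1)`-invariant metric on
`RP^(n+1)`.  Since `|d anti_x| = |x|⁻²`, the last clause says that `anti` is an isometry; it also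
gives the smoothness of the metric at `∞`. -/
structure IsRotMetric (φ : E n → ℝ) : Prop where
  smooth : ContDiff ℝ ∞ φ
  pos : ∀ x, 0 < φ x
  radial : ∀ x y : E n, ‖x‖ = ‖y‖ → φ x = φ y
  anti : ∀ x : E n, x ≠ 0 → φ (TwinBubble.anti x) = ‖x‖ ^ 2 * φ x

/-- Euclidean divergence `∑ ∂ᵢ Xᵢ`. -/
def divergence (X : E n → E n) (x : E n) : ℝ :=
  ∑ i, fderiv ℝ X x (EuclideanSpace.single i 1) i

/-- Mean curvature (sum of the principal curvatures) at `x` of the level set of `u` through `x`, in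
the metric `g = φ² |dx|²` and with respect to the `g`-unit normal `ν = φ⁻¹ ∇u / |∇u|`:
`H = div_g ν = φ^(-(n+1)) div (φ^(n+1) ν) = φ^(-(n+1)) div (φ^n ∇u / |∇u|)`. -/
def meanCurv (φ u : E n → ℝ) (x : E n) : ℝ :=
  (φ x ^ (n + 1))⁻¹ * divergence (fun y => (φ y ^ n * ‖gradient u y‖⁻¹) • gradient u y) x

/-- `S ⊂ ℝ^(n+1) ∖ {0}` is the preimage in the double cover `S^(n+1)` of a closed (compact,
boundaryless) connected smoothly embedded two-sided hypersurface of `RP^(n+1)`, which has constant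
mean curvature `c` with respect to a global unit normal.  `ν` is the direction of the lifted unit
normal (a Euclidean unit vector), and it is invariant under the antipodal map. -/
structure IsClosedCMC (φ : E n → ℝ) (c : ℝ) (S : Set (E n)) : Prop where
  compact : IsCompact S
  zero : (0 : E n) ∉ S
  anti : ∀ x ∈ S, TwinBubble.anti x ∈ S
  conn : ∃ A : Set (E n), IsConnected A ∧ S = A ∪ TwinBubble.anti '' A
  cmc : ∃ ν : E n → E n,
    (∀ x ∈ S, ν (TwinBubble.anti x) = ‖x‖ ^ 2 • fderiv ℝ TwinBubble.anti x (ν x)) ∧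
    ∀ x ∈ S, ∃ (U : Set (E n)) (u : E n → ℝ), IsOpen U ∧ x ∈ U ∧ ContDiffOn ℝ ∞ u U ∧
      (∀ y ∈ U, gradient u y ≠ 0) ∧ (∀ y ∈ U, y ∈ S ↔ u y = 0) ∧
      ∀ y ∈ U, y ∈ S → ν y = ‖gradient u y‖⁻¹ • gradient u y ∧ meanCurv φ u y = c

/-- The concentric sphere of radius `r` together with its antipodal image. -/
def slice (n : ℕ) (r : ℝ) : Set (E n) := {x | ‖x‖ = r ∨ ‖x‖ = r⁻¹}

/-! ## Profile curves -/

/-- The reciprocal of the speed of a profile curve in the parametrisation by the tangent angle `a`: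
`c F - K sin a + (n-1) cos a cot θ`. -/
def den (n : ℕ) (F K : ℝ → ℝ) (c a t θ : ℝ) : ℝ :=
  c * F t - K t * Real.sin a + ((n : ℝ) - 1) * Real.cos a * (Real.cos θ / Real.sin θ)

/-- A closed profile curve `a ↦ (t a, θ a)` in `ℝ × (0, π)`, parametrised by its tangent angle. -/
structure Profile (n : ℕ) (F K : ℝ → ℝ) (c : ℝ) (t θ ρ : ℝ → ℝ) : Prop where
  smooth_t : ContDiff ℝ ∞ t
  smooth_θ : ContDiff ℝ ∞ θ
  smooth_ρ : ContDiff ℝ ∞ ρ
  ρ_pos : ∀ a, 0 < ρ a
  deriv_t : ∀ a, HasDerivAt t (ρ a * Real.cos a) a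
  deriv_θ : ∀ a, HasDerivAt θ (ρ a * Real.sin a) a
  θ_pos : ∀ a, 0 < θ a
  θ_lt : ∀ a, θ a < Real.pi
  eqn : ∀ a, ρ a * den n F K c a (t a) (θ a) = 1
  shift_t : ∀ a, t (a + Real.pi) = -t a
  shift_θ : ∀ a, θ (a + Real.pi) = Real.pi - θ a
  zero : t 0 = 0
  θ_zero : θ 0 < Real.pi / 2

/-! ## Polar coordinates -/

/-- `t = log |x|`. -/
def Tc (x : E n) : ℝ := Real.log ‖x‖

/-- `θ` = angle between `x` and `e`. -/
def Ac (e x : E n) : ℝ := Real.arccos ((inner ℝ x e) / ‖x‖)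

/-- Points which are not on the line `ℝ e`. -/
def offAxis (e : E n) : Set (E n) := {x | |inner ℝ x e| < ‖x‖}

/-- radial unit vector -/
def er (x : E n) : E n := ‖x‖⁻¹ • x

/-- unit vector in the direction of increasing `θ` -/
def eA (e x : E n) : E n := (Real.sin (Ac e x))⁻¹ • (Real.cos (Ac e x) • er x - e)

/-- The hypersurface with the profile curve `(t, θ)` and the axis `e`. -/
def torus (t θ : ℝ → ℝ) (e : E n) : Set (E n) :=
  {x | x ≠ 0 ∧ ∃ a, t a = Tc x ∧ θ a = Ac e x}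

/-- First basis vector. -/
def e0 (n : ℕ) : E n := EuclideanSpace.single 0 1

/-- `F t = |x| φ(x)` for `|x| = e^t`. -/
def Fr (φ : E n → ℝ) (t : ℝ) : ℝ := Real.exp t * φ (Real.exp t • e0 n)

/-- `K = n F' / F`. -/
def Kr (φ : E n → ℝ) (t : ℝ) : ℝ := n * deriv (Fr φ) t / Fr φ t

end TwinBubble

end
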