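import Pool.Agent.H11.TB.Defs

/-!
# DefsW: warped products over rotationally symmetric projective spaces

`M = RP^(n+1) ×_k N` with an `O(n+1)`-invariant metric `φ² |dx|²` and an `O(n+1)`-invariant warping
function `k`, `N^q` any closed Riemannian manifold, metric `φ² |dx|² + k² g_N`.  For a hypersurface
`Σ` of `RP^(n+1)` with unit normal `ν` the hypersurface `Σ × N` has the principal curvatures of `Σ`
and `q` times `∂_ν log k`, so its mean curvature is `H_Σ + ∂_ν log ψ` with `ψ = k^q`.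
-/

open scoped ContDiff
open Set

noncomputable section

namespace TwinBubble

variable {n : ℕ}

/-- A smooth positive `O(n+1)`-invariant function on `RP^(n+1)`, lifted to the chart. -/
structure IsRotWeight (ψ : E n → ℝ) : Prop where
  smooth : ContDiff ℝ ∞ ψ
  pos : ∀ x, 0 < ψ x
  radial : ∀ x y : E n, ‖x‖ = ‖y‖ → ψ x = ψ y
  anti : ∀ x : E n, x ≠ 0 → ψ (TwinBubble.anti x) = ψ x

/-- `H_Σ + ∂_ν log ψ`, where `Σ` is the level set of `u` through `x` and
`ν = φ⁻¹ ∇u / |∇u|` its unit normal for `φ² |dx|²`: for `ψ = k^q` this is the mean curvature (sum of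
the principal curvatures) of `Σ × N^q` in the warped product with metric `φ² |dx|² + k² g_N`. -/
def meanCurvW (φ ψ u : E n → ℝ) (x : E n) : ℝ :=
  meanCurv φ u x +
    fderiv ℝ (fun y => Real.log (ψ y)) x ((φ x)⁻¹ • (‖gradient u x‖⁻¹ • gradient u x))

/-- As `IsClosedCMC`, for the warped mean curvature `meanCurvW φ ψ`: `S` is the preimage in the
chart of `S^(n+1)` of a closed connected smoothly embedded two-sided hypersurface `Σ` of
`RP^(n+1)`, and `H_Σ + ∂_ν log ψ = c` along `Σ` for a global unit normal. -/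
structure IsClosedCMCW (φ ψ : E n → ℝ) (c : ℝ) (S : Set (E n)) : Prop where
  compact : IsCompact S
  zero : (0 : E n) ∉ S
  anti : ∀ x ∈ S, TwinBubble.anti x ∈ S
  conn : ∃ A : Set (E n), IsConnected A ∧ S = A ∪ TwinBubble.anti '' A
  cmc : ∃ ν : E n → E n,
    (∀ x ∈ S, ν (TwinBubble.anti x) = ‖x‖ ^ 2 • fderiv ℝ TwinBubble.anti x (ν x)) ∧
    ∀ x ∈ S, ∃ (U : Set (E n)) (u : E n → ℝ), IsOpen U ∧ x ∈ U ∧ ContDiffOn ℝ ∞ u U ∧
      (∀ y ∈ U, gradient u y ≠ 0) ∧ (∀ y ∈ U, y ∈ S ↔ u y = 0) ∧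
      ∀ y ∈ U, y ∈ S → ν y = ‖gradient u y‖⁻¹ • gradient u y ∧ meanCurvW φ ψ u y = c

/-- `log ψ` as a function of `t = log |x|` -/
def Lr (ψ : E n → ℝ) (t : ℝ) : ℝ := Real.log (ψ (Real.exp t • e0 n))

/-- `K = n F'/F + (log ψ)'` -/
def KrW (φ ψ : E n → ℝ) (t : ℝ) : ℝ := Kr φ t + deriv (Lr ψ) t

end TwinBubble

end
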