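import Pool.Agent.H11.TB.FProps

/-!
# Dicho: if only one slice has mean curvature `± c`, the shooting hypothesis holds
`m = K / F` is continuous, odd, `→ +∞` at `-∞` and there is exactly one `t₁ < 0` with `|m t₁| = c`.
Then `m t₁ = c` (the point from `exists_slice`), `|m| < c` on `(t₁, 0]` and `m > c` on `(-∞, t₁)`
(IVT, `exists_slice_below`).  Hence for `t ≥ 0`, `m t < c`: for `t < -t₁` `|m t| < c`, for
`t ≥ -t₁` `m t = - m (-t) ≤ -c`.  Finally `c F - K s > 0` for `s ∈ [0,1]` since it is affine in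
`s` and positive at `s = 0` and `s = 1`.
-/

open scoped ContDiff NNReal
open Set

namespace TwinBubble

variable {n : ℕ} {φ : E n → ℝ}

/-- far out `m > c` (`m → +∞` at `-∞`) -/
theorem exists_slice_below (h : IsRotMetric φ) (hn : 1 ≤ n) (c : ℝ) :
    ∃ t₂ : ℝ, ∀ t ≤ t₂, c * Fr φ t < Kr φ t :=
  fprops_below h hn c

theorem dichotomy (h : IsRotMetric φ) (hn : 1 ≤ n) (c : ℝ) (hc : 0 < c) :
    (∃ t₁ t₂ : ℝ, t₁ < t₂ ∧ t₂ < 0 ∧ (Kr φ t₁ = c * Fr φ t₁ ∨ Kr φ t₁ = -(c * Fr φ t₁)) ∧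
      (Kr φ t₂ = c * Fr φ t₂ ∨ Kr φ t₂ = -(c * Fr φ t₂))) ∨
    ∀ t, 0 ≤ t → Kr φ t < c * Fr φ t := by
  by_cases H : ∀ t, 0 ≤ t → Kr φ t < c * Fr φ t
  · exact Or.inr H
  left
  push Not at H
  obtain ⟨s, hs0, hs⟩ := H
  have h0 : Kr φ 0 = 0 := by
    have := Kr_odd h 0
    rw [neg_zero] at this
    linarith
  have hspos : 0 < s := by
    rcases hs0.eq_or_lt with rfl | h1
    · have := mul_pos hc (Fr_pos h 0)
      linarith
    · exact h1
  have hKs : Kr φ (-s) ≤ -(c * Fr φ (-s)) := by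
    rw [Kr_odd h, Fr_even h]
    linarith
  have hFs := mul_pos hc (Fr_pos h (-s))
  obtain ⟨t', ht'⟩ := exists_slice_below h hn c
  set t₀ := min t' (-s) with ht₀
  have hK0 : c * Fr φ t₀ < Kr φ t₀ := ht' t₀ (min_le_left _ _)
  have ht₀s : t₀ ≤ -s := min_le_right _ _
  have hc1 : ContinuousOn (fun t => Kr φ t - c * Fr φ t) (Icc t₀ (-s)) :=
    ((Kr_smooth h).continuous.sub ((Fr_smooth h).continuous.const_mul c)).continuousOn
  have h1 : (0 : ℝ) ∈ Icc ((fun t => Kr φ t - c * Fr φ t) (-s))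
      ((fun t => Kr φ t - c * Fr φ t) t₀) := by
    constructor
    · show Kr φ (-s) - c * Fr φ (-s) ≤ 0
      linarith
    · show 0 ≤ Kr φ t₀ - c * Fr φ t₀
      linarith
  obtain ⟨t₁, ht₁, e₁⟩ := intermediate_value_Icc' ht₀s hc1 h1
  have e₁' : Kr φ t₁ - c * Fr φ t₁ = 0 := e₁
  have hF1 := mul_pos hc (Fr_pos h t₁)
  have hc2 : ContinuousOn (fun t => Kr φ t + c * Fr φ t) (Icc t₁ (-s)) :=
    ((Kr_smooth h).continuous.add ((Fr_smooth h).continuous.const_mul c)).continuousOn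
  have h2 : (0 : ℝ) ∈ Icc ((fun t => Kr φ t + c * Fr φ t) (-s))
      ((fun t => Kr φ t + c * Fr φ t) t₁) := by
    constructor
    · show Kr φ (-s) + c * Fr φ (-s) ≤ 0
      linarith
    · show 0 ≤ Kr φ t₁ + c * Fr φ t₁
      linarith
  obtain ⟨t₂, ht₂, e₂⟩ := intermediate_value_Icc' ht₁.2 hc2 h2
  have e₂' : Kr φ t₂ + c * Fr φ t₂ = 0 := e₂
  refine ⟨t₁, t₂, lt_of_le_of_ne ht₂.1 ?_, lt_of_le_of_lt ht₂.2 (by linarith), Or.inl (by linarith),
    Or.inr (by linarith)⟩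
  rintro rfl
  linarith

theorem shooting_hyp (h : IsRotMetric φ) (c : ℝ) (hc : 0 < c)
    (H : ∀ t, 0 ≤ t → Kr φ t < c * Fr φ t) :
    ∀ t, 0 ≤ t → ∀ s ∈ Icc (0 : ℝ) 1, 0 < c * Fr φ t - Kr φ t * s := by
  intro t ht s hs
  have h1 := H t ht
  have h2 := mul_pos hc (Fr_pos h t)
  rcases le_or_gt (Kr φ t) 0 with h3 | h3
  · have := mul_nonneg_of_nonpos_of_nonpos h3 (neg_nonpos.2 hs.1)
    nlinarith
  · have := mul_le_mul_of_nonneg_left hs.2 h3.le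
    linarith

end TwinBubble
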