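import Pool.Agent.H11.TB.DefsW

/-!
# DichoW: if only one slice has mean curvature `± c`, the shooting hypothesis holds
`m = K / F` is continuous, odd, and `m > c` on `(-∞, t₂']`, `m 0 = 0`.  By IVT there is `t₁ < 0`
with `m t₁ = c`.  If it is the only point of `(-∞, 0)` with `|m| = c`, then `|m| < c` on `(t₁, 0]`
and `m > c` on `(-∞, t₁)` (IVT).  Hence `m t < c` for all `t ≥ 0`: for `t < -t₁` `|m t| < c`, for
`t ≥ -t₁` `m t = - m (-t) ≤ -c`.  `c F - K s` is affine in `s` and positive at `s = 0, 1`.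
-/

open scoped ContDiff NNReal
open Set

namespace TwinBubble

theorem dichotomy_abs (F K : ℝ → ℝ) (hF : Continuous F) (hK : Continuous K)
    (hFp : ∀ t, 0 < F t) (hFe : ∀ t, F (-t) = F t) (hKo : ∀ t, K (-t) = -K t) (c : ℝ)
    (hc : 0 < c) (hfar : ∃ t₂ : ℝ, ∀ t ≤ t₂, c * F t < K t) :
    (∃ t₁ t₂ : ℝ, t₁ < t₂ ∧ t₂ < 0 ∧ (K t₁ = c * F t₁ ∨ K t₁ = -(c * F t₁)) ∧
      (K t₂ = c * F t₂ ∨ K t₂ = -(c * F t₂))) ∨
    ∀ t, 0 ≤ t → K t < c * F t := by
  by_cases H : ∀ t, 0 ≤ t → K t < c * F t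
  · exact Or.inr H
  left
  push Not at H
  obtain ⟨t, ht0, ht⟩ := H
  obtain ⟨t₂', hfar⟩ := hfar
  have hK0 : K 0 = 0 := by
    have h := hKo 0
    rw [neg_zero] at h
    linarith
  have htpos : 0 < t := by
    rcases ht0.lt_or_eq with h | h
    · exact h
    · exfalso
      rw [← h, hK0] at ht
      have := mul_pos hc (hFp 0)
      linarith
  have hs : K (-t) ≤ -(c * F (-t)) := by
    rw [hKo, hFe]
    linarith
  have hcF : ∀ x, 0 < c * F x := fun x => mul_pos hc (hFp x)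
  -- the point where `K = c F`
  obtain ⟨a, ha1, ha2⟩ : ∃ a, a ≤ t₂' ∧ a < -t := by
    refine ⟨min t₂' (-t) - 1, ?_, ?_⟩
    · have := min_le_left t₂' (-t)
      linarith
    · have := min_le_right t₂' (-t)
      linarith
  have hg : ContinuousOn (fun x => K x - c * F x) (Icc a (-t)) :=
    (hK.sub (continuous_const.mul hF)).continuousOn
  have hga : 0 < K a - c * F a := by
    have := hfar a ha1
    linarith
  have hgs : K (-t) - c * F (-t) < 0 := by
    have := hcF (-t)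
    linarith
  obtain ⟨t₁, ht₁, h₁⟩ := intermediate_value_Ioo' ha2.le hg (⟨hgs, hga⟩ : (0 : ℝ) ∈ Ioo _ _)
  -- the point where `K = - c F`
  have hh : ContinuousOn (fun x => K x + c * F x) (Icc (-t) 0) :=
    (hK.add (continuous_const.mul hF)).continuousOn
  have hhs : K (-t) + c * F (-t) ≤ 0 := by linarith
  have hh0 : 0 < K 0 + c * F 0 := by
    rw [hK0]
    have := hcF 0
    linarith
  obtain ⟨u, hu, h₂⟩ := intermediate_value_Ico (by linarith : -t ≤ 0) hh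
    (⟨hhs, hh0⟩ : (0 : ℝ) ∈ Ico _ _)
  refine ⟨t₁, u, lt_of_lt_of_le ht₁.2 hu.1, hu.2, Or.inl ?_, Or.inr ?_⟩
  · have h₁' : K t₁ - c * F t₁ = 0 := h₁
    linarith
  · have h₂' : K u + c * F u = 0 := h₂
    linarith

theorem shooting_hyp_abs (F K : ℝ → ℝ) (hFp : ∀ t, 0 < F t) (c : ℝ) (hc : 0 < c)
    (H : ∀ t, 0 ≤ t → K t < c * F t) :
    ∀ t, 0 ≤ t → ∀ s ∈ Icc (0 : ℝ) 1, 0 < c * F t - K t * s := by
  intro t ht s hs
  have h1 : 0 < c * F t := mul_pos hc (hFp t)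
  have h2 := H t ht
  have h3 : 0 ≤ s := hs.1
  have h4 : s ≤ 1 := hs.2
  rcases le_or_gt (K t) 0 with hk | hk
  · have : K t * s ≤ 0 := mul_nonpos_of_nonpos_of_nonneg hk h3
    linarith
  · have : K t * s ≤ K t * 1 := mul_le_mul_of_nonneg_left h4 hk.le
    linarith

end TwinBubble
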