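import Pool.Agent.H11.TB.Cut

/-!
# Eps: solutions which start near the axis `θ = 0` turn before they reach the equator
`κ = sin (π/4)^(n-1)`, `ε = min (c₀ κ π / 8) (π/8)`.  With `B a = cos a * sin (θ a)^(n-1)` one has
`B' = -(sin a / D) sin θ^(n-1) (c F - K sin a) ≤ - c₀ sin θ^(n-1) θ'` as long as
`θ ∈ [ε, π/2]`, `t ∈ [0, T]` (there `cutDen = den = D`).  `θ` is monotone.  If `θ b = π/2`, take
`a'` with `θ a' = π/4` (IVT): `0 ≤ B b ≤ B a' - c₀ κ π/4 ≤ B 0 - c₀ κ π / 4 ≤ ε - c₀ κ π/4 < 0`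
(`B 0 = sin ε^(n-1) ≤ sin ε ≤ ε` by `n ≥ 2`), a contradiction.
-/

open scoped ContDiff NNReal
open Set

namespace TwinBubble

private theorem Eps_cl {lo hi x : ℝ} (h : x ∈ Icc lo hi) : cl lo hi x = x := by
  unfold cl
  rw [min_eq_left h.2, max_eq_right h.1]

private theorem Eps_anti {f f' : ℝ → ℝ} {p q b : ℝ} (hp : 0 ≤ p) (hqb : q ≤ b)
    (hf : ∀ a ∈ Icc 0 b, HasDerivWithinAt f (f' a) (Icc 0 b) a)
    (hf' : ∀ a ∈ Icc p q, f' a ≤ 0) : AntitoneOn f (Icc p q) := by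
  have hsub : Icc p q ⊆ Icc 0 b := Icc_subset_Icc hp hqb
  have hat : ∀ a ∈ interior (Icc p q), HasDerivAt f (f' a) a := by
    intro a ha
    rw [interior_Icc] at ha
    exact (hf a (hsub (Ioo_subset_Icc_self ha))).hasDerivAt
      (Icc_mem_nhds (lt_of_le_of_lt hp ha.1) (lt_of_lt_of_le ha.2 hqb))
  refine antitoneOn_of_deriv_nonpos (convex_Icc p q) ?_ ?_ ?_
  · intro a ha
    exact ((hf a (hsub ha)).continuousWithinAt).mono hsub
  · intro a ha
    exact (hat a ha).differentiableAt.differentiableWithinAt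
  · intro a ha
    rw [(hat a ha).deriv]
    exact hf' a (interior_subset ha)

theorem exists_eps (n : ℕ) (hn : 2 ≤ n) (F K : ℝ → ℝ) (c T c₀ : ℝ) (hT : 0 ≤ T) (h0 : 0 < c₀)
    (hc₀ : ∀ t ∈ Icc 0 T, ∀ s ∈ Icc (0 : ℝ) 1, c₀ ≤ c * F t - K t * s) :
    ∃ ε : ℝ, 0 < ε ∧ ε < Real.pi / 4 ∧ ∀ b ∈ Icc 0 (Real.pi / 2), ∀ t θ : ℝ → ℝ,
      θ 0 = ε →
      (∀ a ∈ Icc 0 b, HasDerivWithinAt t (Real.cos a / cutDen n F K c T ε a (t a) (θ a))
        (Icc 0 b) a) →
      (∀ a ∈ Icc 0 b, HasDerivWithinAt θ (Real.sin a / cutDen n F K c T ε a (t a) (θ a))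
        (Icc 0 b) a) →
      (∀ a ∈ Icc 0 b, t a ∈ Icc 0 T) →
      (∀ a ∈ Icc 0 b, θ a ≤ Real.pi / 2) →
      θ b ≠ Real.pi / 2 := by
  have hpi := Real.pi_pos
  set κ : ℝ := Real.sin (Real.pi / 4) ^ (n - 1) with hκ
  have hs4 : 0 < Real.sin (Real.pi / 4) := Real.sin_pos_of_pos_of_lt_pi (by linarith) (by linarith)
  have hκ0 : 0 < κ := pow_pos hs4 _
  refine ⟨min (c₀ * κ * Real.pi / 8) (Real.pi / 8), lt_min (by positivity) (by positivity),
    lt_of_le_of_lt (min_le_right _ _) (by linarith), ?_⟩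
  set ε : ℝ := min (c₀ * κ * Real.pi / 8) (Real.pi / 8) with hε
  have hε0 : 0 < ε := lt_min (by positivity) (by positivity)
  have hε1 : ε ≤ c₀ * κ * Real.pi / 8 := min_le_left _ _
  have hε2 : ε ≤ Real.pi / 8 := min_le_right _ _
  intro b hb t θ hθ0 _ hθ htT hθle hθb
  have hmem0 : (0 : ℝ) ∈ Icc 0 b := ⟨le_refl _, hb.1⟩
  have hmemb : b ∈ Icc 0 b := ⟨hb.1, le_refl _⟩
  have hhalf : ∀ a ∈ Icc 0 b, a ∈ Icc 0 (Real.pi / 2) := fun a ha => ⟨ha.1, ha.2.trans hb.2⟩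
  have hlow : ∀ a ∈ Icc 0 b, c₀ ≤ cutDen n F K c T ε a (t a) (θ a) := fun a ha =>
    cutDen_lower n (by omega) F K c T c₀ hT hc₀ ε hε0 (by linarith) a (hhalf a ha) _ _
  have hsin0 : ∀ a ∈ Icc 0 b, 0 ≤ Real.sin a := fun a ha =>
    Real.sin_nonneg_of_nonneg_of_le_pi ha.1 (by linarith [(hhalf a ha).2])
  -- `θ` is monotone
  have hmono : MonotoneOn θ (Icc 0 b) := by
    have h := Eps_anti (f := fun a => -θ a)
      (f' := fun a => -(Real.sin a / cutDen n F K c T ε a (t a) (θ a))) (p := 0) (q := b) (b := b)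
      le_rfl le_rfl (fun a ha => (hθ a ha).neg) (fun a ha => by
        have h1 := hlow a ha
        have h2 := hsin0 a ha
        have h3 : 0 ≤ Real.sin a / cutDen n F K c T ε a (t a) (θ a) :=
          div_nonneg h2 (by linarith)
        show -(Real.sin a / cutDen n F K c T ε a (t a) (θ a)) ≤ 0
        linarith)
    intro x hx y hy hxy
    have := h hx hy hxy
    simpa using this
  have hθε : ∀ a ∈ Icc 0 b, ε ≤ θ a := fun a ha => by
    rw [← hθ0]; exact hmono hmem0 ha ha.1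
  have hsθ : ∀ a ∈ Icc 0 b, 0 < Real.sin (θ a) := fun a ha =>
    Real.sin_pos_of_pos_of_lt_pi (lt_of_lt_of_le hε0 (hθε a ha)) (by linarith [hθle a ha])
  -- the function `B`
  obtain ⟨k, rfl⟩ : ∃ k, n = k + 2 := ⟨n - 2, by omega⟩
  have hk1 : k + 2 - 1 = k + 1 := rfl
  have hB : ∀ a ∈ Icc 0 b, HasDerivWithinAt (fun a => Real.cos a * Real.sin (θ a) ^ (k + 1))
      (-(Real.sin a / cutDen (k + 2) F K c T ε a (t a) (θ a)) * Real.sin (θ a) ^ (k + 1) *
        (c * F (t a) - K (t a) * Real.sin a)) (Icc 0 b) a := by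
    intro a ha
    have h1 := (Real.hasDerivAt_cos a).hasDerivWithinAt (s := Icc 0 b)
    have h2 := ((hθ a ha).sin).pow (k + 1)
    have h3 := h1.mul h2
    have hD : cutDen (k + 2) F K c T ε a (t a) (θ a) = c * F (t a) - K (t a) * Real.sin a +
        ((k : ℝ) + 1) * Real.cos a * (Real.cos (θ a) / Real.sin (θ a)) := by
      unfold cutDen den
      rw [Eps_cl (htT a ha), Eps_cl ⟨hθε a ha, hθle a ha⟩]
      push_cast
      ring
    have hDpos : 0 < cutDen (k + 2) F K c T ε a (t a) (θ a) := lt_of_lt_of_le h0 (hlow a ha)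
    have hs := hsθ a ha
    refine h3.congr_deriv ?_
    have e : c * F (t a) - K (t a) * Real.sin a = cutDen (k + 2) F K c T ε a (t a) (θ a) -
        ((k : ℝ) + 1) * Real.cos a * (Real.cos (θ a) / Real.sin (θ a)) := by rw [hD]; ring
    rw [e]
    generalize cutDen (k + 2) F K c T ε a (t a) (θ a) = D at hDpos
    simp only [Nat.add_sub_cancel, Pi.pow_apply]
    push_cast
    field_simp
    ring
  have hBneg : ∀ a ∈ Icc 0 b,
      -(Real.sin a / cutDen (k + 2) F K c T ε a (t a) (θ a)) * Real.sin (θ a) ^ (k + 1) *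
        (c * F (t a) - K (t a) * Real.sin a) ≤
      -(c₀ * Real.sin (θ a) ^ (k + 1) *
        (Real.sin a / cutDen (k + 2) F K c T ε a (t a) (θ a))) := by
    intro a ha
    have h1 : c₀ ≤ c * F (t a) - K (t a) * Real.sin a :=
      hc₀ (t a) (htT a ha) (Real.sin a) ⟨hsin0 a ha, Real.sin_le_one a⟩
    have h2 : 0 ≤ Real.sin a / cutDen (k + 2) F K c T ε a (t a) (θ a) :=
      div_nonneg (hsin0 a ha) (by linarith [hlow a ha])
    have h3 : 0 ≤ Real.sin (θ a) ^ (k + 1) := (pow_pos (hsθ a ha) _).le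
    nlinarith [mul_nonneg (mul_nonneg h2 h3) (sub_nonneg.mpr h1)]
  -- intermediate value
  have hcont : ContinuousOn θ (Icc 0 b) := fun a ha => (hθ a ha).continuousWithinAt
  obtain ⟨a', ha', hθa'⟩ : Real.pi / 4 ∈ θ '' Icc 0 b := by
    refine intermediate_value_Icc hb.1 hcont ⟨?_, ?_⟩
    · rw [hθ0]; linarith
    · rw [hθb]; linarith
  have hBanti := Eps_anti (p := 0) (q := a') (b := b) le_rfl ha'.2 hB (fun a ha => by
    have ha2 : a ∈ Icc 0 b := ⟨ha.1, ha.2.trans ha'.2⟩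
    refine (hBneg a ha2).trans ?_
    have h2 : 0 ≤ Real.sin a / cutDen (k + 2) F K c T ε a (t a) (θ a) :=
      div_nonneg (hsin0 a ha2) (by linarith [hlow a ha2])
    have h3 : 0 ≤ Real.sin (θ a) ^ (k + 1) := (pow_pos (hsθ a ha2) _).le
    have h4 := mul_nonneg (mul_nonneg h0.le h3) h2
    linarith)
  have hW := Eps_anti (f := fun a => Real.cos a * Real.sin (θ a) ^ (k + 1) + c₀ * κ * θ a)
    (p := a') (q := b) (b := b) ha'.1 le_rfl
    (fun a ha => (hB a ha).add ((hθ a ha).const_mul (c₀ * κ))) (fun a ha => by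
    have ha2 : a ∈ Icc 0 b := ⟨ha'.1.trans ha.1, ha.2⟩
    have h1 := hBneg a ha2
    have h2 : 0 ≤ Real.sin a / cutDen (k + 2) F K c T ε a (t a) (θ a) :=
      div_nonneg (hsin0 a ha2) (by linarith [hlow a ha2])
    have h3 : Real.pi / 4 ≤ θ a := by rw [← hθa']; exact hmono ha' ha2 ha.1
    have h4 : Real.sin (Real.pi / 4) ≤ Real.sin (θ a) :=
      Real.sin_le_sin_of_le_of_le_pi_div_two (by linarith) (hθle a ha2) h3
    have h5 : κ ≤ Real.sin (θ a) ^ (k + 1) := by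
      rw [hκ, hk1]; exact pow_le_pow_left₀ hs4.le h4 _
    have h6 := mul_nonneg (mul_nonneg h0.le (sub_nonneg.mpr h5)) h2
    show _ + _ ≤ 0
    linarith)
  have hcosb : 0 ≤ Real.cos b :=
    Real.cos_nonneg_of_neg_pi_div_two_le_of_le (by linarith [hb.1]) hb.2
  have e1 := hW ⟨le_refl _, ha'.2⟩ ⟨ha'.2, le_refl _⟩ ha'.2
  have e2 := hBanti ⟨le_refl _, ha'.1⟩ ⟨ha'.1, le_refl _⟩ ha'.1
  simp only [hθb, hθa', hθ0, Real.sin_pi_div_two, one_pow, mul_one, Real.cos_zero, one_mul] at e1 e2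
  have e3 : Real.sin ε ^ (k + 1) ≤ ε := by
    have h1 : 0 ≤ Real.sin ε := Real.sin_nonneg_of_nonneg_of_le_pi hε0.le (by linarith)
    calc Real.sin ε ^ (k + 1) ≤ Real.sin ε ^ 1 :=
          pow_le_pow_of_le_one h1 (Real.sin_le_one ε) (by omega)
      _ = Real.sin ε := pow_one _
      _ ≤ ε := Real.sin_le hε0.le
  have h7 : 0 < c₀ * κ * Real.pi := by positivity
  nlinarith

end TwinBubble
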