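import Pool.Agent.H11.TB.Defs

/-!
# Extend: reflect the quarter arc to a closed curve
`ρ₀ a = 1 / den n F K c a (t₀ a) (θ₀ a)` on `[0, π/2]`, `ρ a = ρ₀ (arccos |cos a|)`: continuous, even,
`ρ (π - a) = ρ a`, and `ρ = ρ₀` on `[0, π/2]`.  Put `t a = ∫₀^a ρ cos`, `θ a = θ₀ 0 + ∫₀^a ρ sin`.
On `[0, π/2]` they agree with `t₀, θ₀` (same derivative).  Differentiating one gets
`t (-a) = - t a`, `θ (-a) = θ a`, `t (π - a) = t a`, `θ (π - a) = π - θ a` (the last one uses
`θ (π/2) = π/2`).  By the symmetries of `F` (even), `K` (odd), the properties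
`P a : 0 < θ a < π ∧ ρ a * den n F K c a (t a) (θ a) = 1` satisfy `P a → P (-a)`, `P a → P (π - a)`;
every real number can be moved into `[0, π/2]` by these two reflections.
-/

open scoped ContDiff NNReal
open Set

namespace TwinBubble

private theorem const_of_deriv {f g : ℝ → ℝ} {f' : ℝ → ℝ} (hf : ∀ a, HasDerivAt f (f' a) a)
    (hg : ∀ a, HasDerivAt g (f' a) a) (x₀ : ℝ) (h : f x₀ = g x₀) (x : ℝ) : f x = g x := by
  have h1 : ∀ a, HasDerivAt (fun a => f a - g a) 0 a := fun a => by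
    have := (hf a).sub (hg a)
    rwa [sub_self] at this
  have h2 := is_const_of_deriv_eq_zero (f := fun a => f a - g a)
    (fun a => (h1 a).differentiableAt) (fun a => (h1 a).deriv) x x₀
  have h3 : f x - g x = f x₀ - g x₀ := h2
  linarith

private noncomputable def q (a : ℝ) : ℝ := Real.arccos |Real.cos a|

private theorem q_cont : Continuous q :=
  Real.continuous_arccos.comp (continuous_abs.comp Real.continuous_cos)

private theorem q_mem (a : ℝ) : q a ∈ Icc 0 (Real.pi / 2) :=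
  ⟨Real.arccos_nonneg _, by rw [q, Real.arccos_le_pi_div_two]; exact abs_nonneg _⟩

private theorem q_neg (a : ℝ) : q (-a) = q a := by rw [q, q, Real.cos_neg]

private theorem q_pi_sub (a : ℝ) : q (Real.pi - a) = q a := by
  rw [q, q, Real.cos_pi_sub, abs_neg]

private theorem q_id {a : ℝ} (ha : a ∈ Icc 0 (Real.pi / 2)) : q a = a := by
  have h1 : 0 ≤ Real.cos a :=
    Real.cos_nonneg_of_neg_pi_div_two_le_of_le (by linarith [ha.1, Real.pi_pos]) ha.2
  rw [q, abs_of_nonneg h1, Real.arccos_cos ha.1 (by linarith [ha.2, Real.pi_pos])]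

theorem exists_closed (n : ℕ) (F K : ℝ → ℝ) (hF : Continuous F) (hK : Continuous K)
    (hFe : ∀ t, F (-t) = F t) (hKo : ∀ t, K (-t) = -K t) (c : ℝ) (t₀ θ₀ : ℝ → ℝ)
    (ht0 : t₀ 0 = 0) (hθ0 : 0 < θ₀ 0) (hθ1 : θ₀ 0 < Real.pi / 2)
    (hθ2 : θ₀ (Real.pi / 2) = Real.pi / 2)
    (hθ : ∀ a ∈ Icc 0 (Real.pi / 2), 0 < θ₀ a ∧ θ₀ a ≤ Real.pi / 2)
    (hden : ∀ a ∈ Icc 0 (Real.pi / 2), 0 < den n F K c a (t₀ a) (θ₀ a))
    (hdt : ∀ a ∈ Icc 0 (Real.pi / 2), HasDerivWithinAt t₀
      (Real.cos a / den n F K c a (t₀ a) (θ₀ a)) (Icc 0 (Real.pi / 2)) a)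
    (hdθ : ∀ a ∈ Icc 0 (Real.pi / 2), HasDerivWithinAt θ₀
      (Real.sin a / den n F K c a (t₀ a) (θ₀ a)) (Icc 0 (Real.pi / 2)) a) :
    ∃ t θ ρ : ℝ → ℝ, Continuous ρ ∧ (∀ a, 0 < ρ a) ∧
      (∀ a, HasDerivAt t (ρ a * Real.cos a) a) ∧ (∀ a, HasDerivAt θ (ρ a * Real.sin a) a) ∧
      (∀ a, 0 < θ a) ∧ (∀ a, θ a < Real.pi) ∧
      (∀ a, ρ a * den n F K c a (t a) (θ a) = 1) ∧
      (∀ a, t (a + Real.pi) = -t a) ∧ (∀ a, θ (a + Real.pi) = Real.pi - θ a) ∧
      t 0 = 0 ∧ θ 0 < Real.pi / 2 := by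
  have hpi := Real.pi_pos
  have hI0 : (0 : ℝ) ∈ Icc 0 (Real.pi / 2) := ⟨le_rfl, by linarith⟩
  have hI1 : Real.pi / 2 ∈ Icc 0 (Real.pi / 2) := ⟨by linarith, le_rfl⟩
  set D : ℝ → ℝ := fun a => den n F K c a (t₀ a) (θ₀ a) with hD
  have ht0c : ContinuousOn t₀ (Icc 0 (Real.pi / 2)) := fun a ha => (hdt a ha).continuousWithinAt
  have hθ0c : ContinuousOn θ₀ (Icc 0 (Real.pi / 2)) := fun a ha => (hdθ a ha).continuousWithinAt
  have hsin : ∀ a ∈ Icc 0 (Real.pi / 2), Real.sin (θ₀ a) ≠ 0 := fun a ha =>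
    (Real.sin_pos_of_pos_of_lt_pi (hθ a ha).1 (by linarith [(hθ a ha).2])).ne'
  have hDc : ContinuousOn D (Icc 0 (Real.pi / 2)) := by
    rw [hD]
    unfold den
    refine ((continuousOn_const.mul (hF.comp_continuousOn ht0c)).sub
      ((hK.comp_continuousOn ht0c).mul Real.continuous_sin.continuousOn)).add
      ((continuousOn_const.mul Real.continuous_cos.continuousOn).mul ?_)
    exact (Real.continuous_cos.comp_continuousOn hθ0c).div
      (Real.continuous_sin.comp_continuousOn hθ0c) hsin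
  set ρ : ℝ → ℝ := fun a => (D (q a))⁻¹ with hρ
  have hρc : Continuous ρ := by
    have h1 : Continuous (fun a => D (q a)) :=
      hDc.comp_continuous q_cont q_mem
    exact h1.inv₀ (fun a => (hden _ (q_mem a)).ne')
  have hρpos : ∀ a, 0 < ρ a := fun a => inv_pos.2 (hden _ (q_mem a))
  have hρneg : ∀ a, ρ (-a) = ρ a := fun a => by simp only [hρ, q_neg]
  have hρpi : ∀ a, ρ (Real.pi - a) = ρ a := fun a => by simp only [hρ, q_pi_sub]
  have hρI : ∀ a ∈ Icc 0 (Real.pi / 2), ρ a = (D a)⁻¹ := fun a ha => by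
    simp only [hρ, q_id ha]
  set t : ℝ → ℝ := fun a => ∫ x in (0 : ℝ)..a, ρ x * Real.cos x with ht
  set θ : ℝ → ℝ := fun a => θ₀ 0 + ∫ x in (0 : ℝ)..a, ρ x * Real.sin x with hθdef
  have htd : ∀ a, HasDerivAt t (ρ a * Real.cos a) a := fun a =>
    ((hρc.mul Real.continuous_cos).integral_hasStrictDerivAt 0 a).hasDerivAt
  have hθd : ∀ a, HasDerivAt θ (ρ a * Real.sin a) a := fun a =>
    (((hρc.mul Real.continuous_sin).integral_hasStrictDerivAt 0 a).hasDerivAt).const_add _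
  have ht00 : t 0 = 0 := by simp only [ht, intervalIntegral.integral_same]
  have hθ00 : θ 0 = θ₀ 0 := by simp only [hθdef, intervalIntegral.integral_same, add_zero]
  -- agreement on the quarter arc
  have hset : ∀ x ∈ Ico 0 (Real.pi / 2), Icc 0 (Real.pi / 2) ∈ nhdsWithin x (Ici x) :=
    fun x hx => Icc_mem_nhdsGE_of_mem hx
  have htI : ∀ a ∈ Icc 0 (Real.pi / 2), t a = t₀ a := by
    refine eq_of_has_deriv_right_eq (f' := fun a => ρ a * Real.cos a)
      (fun x _ => (htd x).hasDerivWithinAt) (fun x hx => ?_)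
      (fun x _ => (htd x).continuousAt.continuousWithinAt) ht0c (by rw [ht00, ht0])
    have h1 := (hdt x ⟨hx.1, hx.2.le⟩).mono_of_mem_nhdsWithin (hset x hx)
    have h2 : Real.cos x / den n F K c x (t₀ x) (θ₀ x) = ρ x * Real.cos x := by
      rw [hρI x ⟨hx.1, hx.2.le⟩, div_eq_mul_inv, mul_comm]
    rwa [h2] at h1
  have hθI : ∀ a ∈ Icc 0 (Real.pi / 2), θ a = θ₀ a := by
    refine eq_of_has_deriv_right_eq (f' := fun a => ρ a * Real.sin a)
      (fun x _ => (hθd x).hasDerivWithinAt) (fun x hx => ?_)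
      (fun x _ => (hθd x).continuousAt.continuousWithinAt) hθ0c hθ00
    have h1 := (hdθ x ⟨hx.1, hx.2.le⟩).mono_of_mem_nhdsWithin (hset x hx)
    have h2 : Real.sin x / den n F K c x (t₀ x) (θ₀ x) = ρ x * Real.sin x := by
      rw [hρI x ⟨hx.1, hx.2.le⟩, div_eq_mul_inv, mul_comm]
    rwa [h2] at h1
  -- symmetries
  have hneg : ∀ {f : ℝ → ℝ} {f' : ℝ → ℝ}, (∀ a, HasDerivAt f (f' a) a) →
      ∀ a, HasDerivAt (fun a => f (-a)) (-(f' (-a))) a := by
    intro f f' hf a
    have h1 : HasDerivAt (fun a : ℝ => f (-a)) (f' (-a) * -1) a :=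
      HasDerivAt.comp a (hf (-a)) (hasDerivAt_neg a)
    rwa [mul_neg_one] at h1
  have hsubp : ∀ {f : ℝ → ℝ} {f' : ℝ → ℝ}, (∀ a, HasDerivAt f (f' a) a) →
      ∀ a, HasDerivAt (fun a => f (Real.pi - a)) (-(f' (Real.pi - a))) a := by
    intro f f' hf a
    have h1 : HasDerivAt (fun a : ℝ => Real.pi - a) (-1) a := by
      simpa using (hasDerivAt_id a).const_sub Real.pi
    have h2 : HasDerivAt (fun a : ℝ => f (Real.pi - a)) (f' (Real.pi - a) * -1) a :=
      HasDerivAt.comp a (hf (Real.pi - a)) h1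
    rwa [mul_neg_one] at h2
  have htn : ∀ a, t (-a) = -t a := by
    intro a
    refine const_of_deriv (f := fun a => t (-a)) (g := fun a => -t a)
      (f' := fun a => -(ρ a * Real.cos a)) (fun a => ?_) (fun a => (htd a).neg) 0 ?_ a
    · have := hneg htd a
      rwa [hρneg, Real.cos_neg] at this
    · simp only [neg_zero, ht00]
  have hθn : ∀ a, θ (-a) = θ a := by
    intro a
    refine const_of_deriv (f := fun a => θ (-a)) (g := θ)
      (f' := fun a => ρ a * Real.sin a) (fun a => ?_) hθd 0 ?_ a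
    · have := hneg hθd a
      rwa [hρneg, Real.sin_neg, mul_neg, neg_neg] at this
    · simp only [neg_zero]
  have htp : ∀ a, t (Real.pi - a) = t a := by
    intro a
    refine const_of_deriv (f := fun a => t (Real.pi - a)) (g := t)
      (f' := fun a => ρ a * Real.cos a) (fun a => ?_) htd (Real.pi / 2) ?_ a
    · have := hsubp htd a
      rwa [hρpi, Real.cos_pi_sub, mul_neg, neg_neg] at this
    · simp only [sub_half]
  have hθpi2 : θ (Real.pi / 2) = Real.pi / 2 := by rw [hθI _ hI1, hθ2]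
  have hθp : ∀ a, θ (Real.pi - a) = Real.pi - θ a := by
    intro a
    refine const_of_deriv (f := fun a => θ (Real.pi - a)) (g := fun a => Real.pi - θ a)
      (f' := fun a => -(ρ a * Real.sin a)) (fun a => ?_) (fun a => ?_) (Real.pi / 2) ?_ a
    · have := hsubp hθd a
      rwa [hρpi, Real.sin_pi_sub] at this
    · simpa using (hθd a).const_sub Real.pi
    · simp only [sub_half, hθpi2]
  -- the property
  set P : ℝ → Prop := fun a => (0 < θ a ∧ θ a < Real.pi) ∧ ρ a * den n F K c a (t a) (θ a) = 1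
    with hP
  have hPI : ∀ a ∈ Icc 0 (Real.pi / 2), P a := by
    intro a ha
    refine ⟨⟨by rw [hθI a ha]; exact (hθ a ha).1, by rw [hθI a ha]; linarith [(hθ a ha).2]⟩, ?_⟩
    rw [hρI a ha, htI a ha, hθI a ha]
    exact inv_mul_cancel₀ (hden a ha).ne'
  have hPn : ∀ a, P a → P (-a) := by
    intro a h
    refine ⟨by rw [hθn]; exact h.1, ?_⟩
    have h1 : den n F K c (-a) (t (-a)) (θ (-a)) = den n F K c a (t a) (θ a) := by
      rw [htn, hθn]
      unfold den
      rw [hFe, hKo, Real.sin_neg, Real.cos_neg]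
      ring
    rw [h1, hρneg]
    exact h.2
  have hPp : ∀ a, P a → P (Real.pi - a) := by
    intro a h
    refine ⟨by rw [hθp]; constructor <;> linarith [h.1.1, h.1.2], ?_⟩
    have h1 : den n F K c (Real.pi - a) (t (Real.pi - a)) (θ (Real.pi - a)) =
        den n F K c a (t a) (θ a) := by
      rw [htp, hθp]
      unfold den
      rw [Real.sin_pi_sub, Real.cos_pi_sub, Real.cos_pi_sub, Real.sin_pi_sub]
      ring
    rw [h1, hρpi]
    exact h.2
  have hper : Function.Periodic P Real.pi := by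
    intro a
    apply propext
    constructor
    · intro h
      have h1 := hPn _ (hPp _ h)
      have h2 : -(Real.pi - (a + Real.pi)) = a := by ring
      rwa [h2] at h1
    · intro h
      have h1 := hPp _ (hPn _ h)
      have h2 : Real.pi - -a = a + Real.pi := by ring
      rwa [h2] at h1
  have hPall : ∀ a, P a := by
    intro a
    obtain ⟨y, hy, hxy⟩ := hper.exists_mem_Ico₀ hpi a
    rw [hxy]
    by_cases h : y ≤ Real.pi / 2
    · exact hPI y ⟨hy.1, h⟩
    · push Not at h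
      have h1 := hPp _ (hPI (Real.pi - y) ⟨by linarith [hy.2], by linarith⟩)
      have h2 : Real.pi - (Real.pi - y) = y := by ring
      rwa [h2] at h1
  refine ⟨t, θ, ρ, hρc, hρpos, htd, hθd, fun a => (hPall a).1.1, fun a => (hPall a).1.2,
    fun a => (hPall a).2, fun a => ?_, fun a => ?_, ht00, by rw [hθ00]; exact hθ1⟩
  · have h2 : a + Real.pi = Real.pi - -a := by ring
    rw [h2, htp, htn]
  · have h2 : a + Real.pi = Real.pi - -a := by ring
    rw [h2, hθp, hθn]

end TwinBubble
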