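import Pool.Agent.H11.TB.DefsW
import Pool.Agent.H11.TB.FProps

/-!
# FPropsW: `K = n F'/F + (log ψ)'` is smooth and odd, `K/F → +∞` at `-∞`
`Lr ψ` is smooth and even.  `(log ψ)'(t) = e^t D(log ψ)(e^t e₀) e₀`, so
`(log ψ)'/F = D(log ψ)(e^t e₀) e₀ / φ(e^t e₀)` is bounded for `t ≤ 0`, while
`n F'/F² → +∞` (`n F'/F² = n e^(-t) (φ + e^t Dφ(e^t e₀) e₀) / φ²`).
`log_psi_eq`: `log (ψ x) = Lr ψ (Tc x)` for `x ≠ 0`.
-/

open scoped ContDiff NNReal
open Set

namespace TwinBubble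

variable {n : ℕ} {φ ψ : E n → ℝ}

private theorem line_smooth {f : E n → ℝ} (h : ContDiff ℝ ∞ f) :
    ContDiff ℝ ∞ (fun s : ℝ => f (s • e0 n)) :=
  h.comp (contDiff_id.smul contDiff_const)

private theorem norm_line (t : ℝ) : ‖Real.exp t • e0 n‖ = Real.exp t := by
  rw [norm_smul, norm_e0, mul_one, Real.norm_eq_abs, abs_of_pos (Real.exp_pos t)]

theorem Lr_smooth (h : IsRotWeight ψ) : ContDiff ℝ ∞ (Lr ψ) := by
  have h1 : ContDiff ℝ ∞ (fun t : ℝ => ψ (Real.exp t • e0 n)) :=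
    (line_smooth h.smooth).comp Real.contDiff_exp
  exact h1.log fun t => (h.pos _).ne'

theorem Lr_even (h : IsRotWeight ψ) (t : ℝ) : Lr ψ (-t) = Lr ψ t := by
  have h0 : Real.exp t • e0 n ≠ 0 := by
    intro h0
    have h1 := norm_line (n := n) t
    rw [h0, norm_zero] at h1
    exact (Real.exp_pos t).ne h1
  unfold Lr
  rw [← h.anti _ h0]
  congr 1
  apply h.radial
  rw [norm_line, TwinBubble.anti, norm_neg, norm_smul, norm_line, norm_inv, norm_pow,
    Real.norm_eq_abs, abs_of_pos (Real.exp_pos t), Real.exp_neg]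
  field_simp

theorem log_psi_eq (h : IsRotWeight ψ) {x : E n} (hx : x ≠ 0) :
    Real.log (ψ x) = Lr ψ (Tc x) := by
  unfold Lr Tc
  congr 1
  apply h.radial
  rw [norm_line, Real.exp_log (norm_pos_iff.2 hx)]

theorem KrW_smooth (h : IsRotMetric φ) (h' : IsRotWeight ψ) : ContDiff ℝ ∞ (KrW φ ψ) :=
  (Kr_smooth h).add (contDiff_infty_iff_deriv.1 (Lr_smooth h')).2

theorem KrW_odd (h : IsRotMetric φ) (h' : IsRotWeight ψ) (t : ℝ) :
    KrW φ ψ (-t) = -KrW φ ψ t := by
  have h1 : deriv (Lr ψ) t = -deriv (Lr ψ) (-t) := by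
    have h2 : (fun s => Lr ψ (-s)) = Lr ψ := funext fun s => Lr_even h' s
    have h3 := deriv_comp_neg (Lr ψ) t
    rw [h2] at h3
    exact h3
  unfold KrW
  rw [Kr_odd h, h1]
  ring

/-- far out `K > c F` -/
theorem exists_slice_belowW (h : IsRotMetric φ) (h' : IsRotWeight ψ) (hn : 1 ≤ n) (c : ℝ) :
    ∃ t₂ : ℝ, ∀ t ≤ t₂, c * Fr φ t < KrW φ ψ t := by
  obtain ⟨G, hG⟩ : ∃ G : ℝ → ℝ, G = fun s : ℝ => φ (s • e0 n) := ⟨_, rfl⟩
  obtain ⟨H, hH⟩ : ∃ H : ℝ → ℝ, H = fun s : ℝ => ψ (s • e0 n) := ⟨_, rfl⟩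
  have sG : ContDiff ℝ ∞ G := by rw [hG]; exact line_smooth h.smooth
  have sH : ContDiff ℝ ∞ H := by rw [hH]; exact line_smooth h'.smooth
  have pG : ∀ s, 0 < G s := by intro s; rw [hG]; exact h.pos _
  have pH : ∀ s, 0 < H s := by intro s; rw [hH]; exact h'.pos _
  have cG := (contDiff_infty_iff_deriv.1 sG)
  have cH := (contDiff_infty_iff_deriv.1 sH)
  have hFr : Fr φ = fun t => Real.exp t * G (Real.exp t) := by
    funext t; rw [hG]; rfl
  have hLr : Lr ψ = fun t => Real.log (H (Real.exp t)) := by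
    funext t; rw [hH]; rfl
  have dF : ∀ t, HasDerivAt (Fr φ)
      (Real.exp t * G (Real.exp t) + Real.exp t * (deriv G (Real.exp t) * Real.exp t)) t := by
    intro t
    rw [hFr]
    exact (Real.hasDerivAt_exp t).mul
      ((cG.1 (Real.exp t)).hasDerivAt.comp t (Real.hasDerivAt_exp t))
  have dL : ∀ t, HasDerivAt (Lr ψ) ((deriv H (Real.exp t) * Real.exp t) / H (Real.exp t)) t := by
    intro t
    rw [hLr]
    exact ((cH.1 (Real.exp t)).hasDerivAt.comp t (Real.hasDerivAt_exp t)).log (pH _).ne'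
  obtain ⟨Φ, hΦ⟩ : ∃ Φ : ℝ → ℝ, Φ = fun s => n * (1 + s * deriv G s / G s) +
      s * deriv H s / H s - c * (s * G s) := ⟨_, rfl⟩
  have key : ∀ t, KrW φ ψ t - c * Fr φ t = Φ (Real.exp t) := by
    intro t
    have e1 := (dF t).deriv
    have e2 := (dL t).deriv
    unfold KrW Kr
    rw [e1, e2, hΦ, hFr]
    have g1 := (pG (Real.exp t)).ne'
    have g2 := (pH (Real.exp t)).ne'
    have g3 := (Real.exp_pos t).ne'
    field_simp
  have cΦ : Continuous Φ := by
    rw [hΦ]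
    have c1 := sG.continuous
    have c2 := cG.2.continuous
    have c3 := sH.continuous
    have c4 := cH.2.continuous
    have d1 : Continuous fun s => s * deriv G s / G s :=
      (continuous_id.mul c2).div c1 fun s => (pG s).ne'
    have d2 : Continuous fun s => s * deriv H s / H s :=
      (continuous_id.mul c4).div c3 fun s => (pH s).ne'
    exact ((continuous_const.mul (continuous_const.add d1)).add d2).sub
      (continuous_const.mul (continuous_id.mul c1))
  have h0 : 0 < Φ 0 := by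
    rw [hΦ]
    have : (0 : ℝ) < n := by
      have : 0 < n := by omega
      exact_mod_cast this
    simpa using this
  have hev : ∀ᶠ s in nhds (0 : ℝ), 0 < Φ s := cΦ.continuousAt.eventually (lt_mem_nhds h0)
  have hev2 : ∀ᶠ t in Filter.atBot, 0 < Φ (Real.exp t) :=
    Real.tendsto_exp_atBot.eventually hev
  obtain ⟨t₂, ht₂⟩ := Filter.eventually_atBot.1 hev2
  refine ⟨t₂, fun t ht => ?_⟩
  have h1 := ht₂ t ht
  rw [← key t] at h1
  linarith

end TwinBubble
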