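import Pool.Agent.H11.TB.Defs

/-!
# Flow: global solutions of a bounded Lipschitz ODE, continuous in the initial point
Use `IsPicardLindelof.exists_forall_mem_closedBall_eq_hasDerivWithinAt_lipschitzOnWith` with a large
ball (`a = r + B * b`), or Picard-Lindelöf for each point and Grönwall
(`dist_le_of_trajectories_ODE`).
-/

open scoped ContDiff NNReal
open Set

namespace TwinBubble

theorem exists_flow (b : ℝ) (hb : 0 ≤ b) (V : ℝ → ℝ × ℝ → ℝ × ℝ) (L : ℝ≥0) (B : ℝ)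
    (hL : ∀ a ∈ Icc 0 b, LipschitzWith L (V a))
    (hc : ∀ p, ContinuousOn (fun a => V a p) (Icc 0 b))
    (hB : ∀ a ∈ Icc 0 b, ∀ p, ‖V a p‖ ≤ B) :
    ∃ Φ : ℝ × ℝ → ℝ → ℝ × ℝ, (∀ p, Φ p 0 = p) ∧
      (∀ p, ∀ a ∈ Icc 0 b, HasDerivWithinAt (Φ p) (V a (Φ p a)) (Icc 0 b) a) ∧
      ∀ a ∈ Icc 0 b, Continuous fun p => Φ p a := by
  have h0 : (0 : ℝ) ∈ Icc 0 b := ⟨le_rfl, hb⟩
  have hB0 : 0 ≤ B := (norm_nonneg _).trans (hB 0 h0 0)
  have hex : ∀ p : ℝ × ℝ, ∃ α : ℝ → ℝ × ℝ, α 0 = p ∧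
      ∀ t ∈ Icc 0 b, HasDerivWithinAt α (V t (α t)) (Icc 0 b) t := by
    intro p
    have hpl : IsPicardLindelof V (tmin := 0) (tmax := b) ⟨0, h0⟩ p
        (⟨B * b, mul_nonneg hB0 hb⟩ : ℝ≥0) 0 ⟨B, hB0⟩ L := by
      refine ⟨fun t ht => (hL t ht).lipschitzOnWith, fun x _ => hc x, fun t ht x _ => hB t ht x, ?_⟩
      simp only [sub_zero, sub_self, max_eq_left hb, NNReal.coe_zero]
      exact le_rfl
    exact hpl.exists_eq_forall_mem_Icc_hasDerivWithinAt₀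
  choose Φ h1 h2 using hex
  refine ⟨Φ, h1, h2, fun a ha => ?_⟩
  have hcont : ∀ p, ContinuousOn (Φ p) (Icc 0 b) := fun p t ht => (h2 p t ht).continuousWithinAt
  have hder : ∀ p, ∀ t ∈ Ico 0 b, HasDerivWithinAt (Φ p) (V t (Φ p t)) (Ici t) t := by
    intro p t ht
    refine (h2 p t ⟨ht.1, ht.2.le⟩).mono_of_mem_nhdsWithin ?_
    exact Filter.mem_of_superset (Icc_mem_nhdsGE ht.2) (Icc_subset_Icc_left ht.1)
  have hdist : ∀ p q, dist (Φ p a) (Φ q a) ≤ dist p q * Real.exp (L * (a - 0)) := by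
    intro p q
    refine dist_le_of_trajectories_ODE_of_mem (v := V) (K := L) (s := fun _ => univ) (a := 0)
      (b := b) (fun t ht => (hL t ⟨ht.1, ht.2.le⟩).lipschitzOnWith)
      (hcont p) (hder p) (fun _ _ => mem_univ _) (hcont q) (hder q) (fun _ _ => mem_univ _) ?_ a ha
    rw [h1, h1]
  refine (LipschitzWith.of_dist_le_mul (K := ⟨Real.exp (L * (a - 0)), (Real.exp_pos _).le⟩)
    fun p q => ?_).continuous
  rw [mul_comm]
  exact hdist p q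

end TwinBubble
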