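import Pool.Agent.H11.TB.Topo

/-!
# Infin: different axes give different tori
If `torus t θ e = torus t θ e'`, take a unit vector `ξ ⟂ e, e'` (`n + 1 ≥ 3`) and
`x = cos (θ 0) e + sin (θ 0) ξ ∈ torus t θ e` (`|x| = 1`, `a = 0`).  `x ∈ torus t θ e'` has
`Tc x = 0`, so its angle with `e'` is `θ 0` or `π - θ 0` (`Profile.t_eq_zero`), i.e.
`|cos (θ 0) ⟪e, e'⟫| = cos (θ 0)`, so `|⟪e, e'⟫| = 1`.
The unit vectors `e s = cos s e₀ + sin s e₁`, `s ∈ [0, π/2)`, satisfy `|⟪e s, e s'⟫| < 1`.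
-/

open scoped ContDiff NNReal
open Set

namespace TwinBubble

variable {n : ℕ} {F K : ℝ → ℝ} {c : ℝ} {t θ ρ : ℝ → ℝ}

/-- a unit vector orthogonal to `e` and `e'` -/
private theorem inf_perp (hn : 2 ≤ n) (e e' : E n) :
    ∃ ξ : E n, ‖ξ‖ = 1 ∧ inner ℝ ξ e = 0 ∧ inner ℝ ξ e' = 0 := by
  classical
  have h1 : Module.finrank ℝ (Submodule.span ℝ ({e, e'} : Set (E n))) ≤ 2 := by
    have h2 : (({e, e'} : Finset (E n)) : Set (E n)) = {e, e'} := by simp
    have h3 := finrank_span_finset_le_card (R := ℝ) ({e, e'} : Finset (E n))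
    rw [Set.finrank, h2] at h3
    exact h3.trans Finset.card_le_two
  have h4 := (Submodule.span ℝ ({e, e'} : Set (E n))).finrank_add_finrank_orthogonal
  have h5 : Module.finrank ℝ (E n) = n + 1 := by simp
  rw [h5] at h4
  have h6 : 0 < Module.finrank ℝ ((Submodule.span ℝ ({e, e'} : Set (E n)))ᗮ : Submodule ℝ (E n)) := by
    omega
  have h7 : Nontrivial ((Submodule.span ℝ ({e, e'} : Set (E n)))ᗮ : Submodule ℝ (E n)) :=
    Module.nontrivial_of_finrank_pos h6
  obtain ⟨⟨v, hv⟩, hv0⟩ := exists_ne (0 : ((Submodule.span ℝ ({e, e'} : Set (E n)))ᗮ : Submodule ℝ (E n)))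
  have hv1 : v ≠ 0 := by
    intro h
    apply hv0
    ext1
    exact h
  have hn0 : ‖v‖ ≠ 0 := norm_ne_zero_iff.2 hv1
  rw [Submodule.mem_orthogonal'] at hv
  refine ⟨‖v‖⁻¹ • v, ?_, ?_, ?_⟩
  · rw [norm_smul, norm_inv, norm_norm, inv_mul_cancel₀ hn0]
  · rw [real_inner_smul_left, hv e (Submodule.subset_span (by simp)), mul_zero]
  · rw [real_inner_smul_left, hv e' (Submodule.subset_span (by simp)), mul_zero]

theorem torus_ne (hn : 2 ≤ n) (h : Profile n F K c t θ ρ) (e e' : E n) (he : ‖e‖ = 1)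
    (he' : ‖e'‖ = 1) (hee : |inner ℝ e e'| < 1) : torus t θ e ≠ torus t θ e' := by
  intro heq
  obtain ⟨ξ, h1, h2, h3⟩ := inf_perp hn e e'
  have hξ : ξ ∈ perp e := ⟨h1, h2⟩
  set x := par t θ e (0, ξ) with hx
  have hx1 : x ∈ torus t θ e := by
    rw [torus_eq_image h e he]
    exact ⟨(0, ξ), ⟨⟨le_rfl, by have := Real.pi_pos; linarith⟩, hξ⟩, rfl⟩
  have hT : Tc x = 0 := by rw [hx, Tc_par h e he 0 ξ hξ, h.zero]
  have hx2 : x ∈ torus t θ e' := heq ▸ hx1
  obtain ⟨hx0, a, ha1, ha2⟩ := hx2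
  rw [hT] at ha1
  have hnx : ‖x‖ = 1 := by
    have hp : 0 < ‖x‖ := norm_pos_iff.2 hx0
    exact Real.eq_one_of_pos_of_log_eq_zero hp hT
  have hc0 : 0 < Real.cos (θ 0) := Real.cos_pos_of_mem_Ioo
    ⟨by have := h.θ_pos 0; have := Real.pi_pos; linarith, h.θ_zero⟩
  have hin : inner ℝ x e' = Real.cos (θ 0) * inner ℝ e e' := by
    rw [hx, par]
    simp only [h.zero, Real.exp_zero, one_smul]
    rw [inner_add_left, real_inner_smul_left, real_inner_smul_left, h3, mul_zero, add_zero]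
  have hcos := cos_Ac he' hx0
  rw [hnx, div_one, hin, ← ha2] at hcos
  have habs : |Real.cos (θ a)| = Real.cos (θ 0) := by
    rcases h.t_eq_zero ha1 with h4 | h4
    · rw [h4, abs_of_pos hc0]
    · rw [h4, Real.cos_pi_sub, abs_neg, abs_of_pos hc0]
  rw [hcos, abs_mul, abs_of_pos hc0] at habs
  have : Real.cos (θ 0) * |inner ℝ e e'| < Real.cos (θ 0) * 1 := mul_lt_mul_of_pos_left hee hc0
  linarith

theorem infinite_tori (hn : 2 ≤ n) (h : Profile n F K c t θ ρ) :
    {S : Set (E n) | ∃ e : E n, ‖e‖ = 1 ∧ S = torus t θ e}.Infinite := by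
  classical
  set i0 : Fin (n + 1) := ⟨0, by omega⟩ with hi0
  set i1 : Fin (n + 1) := ⟨1, by omega⟩ with hi1
  have hne : i0 ≠ i1 := by
    rw [hi0, hi1]
    intro h
    simp at h
  let v : ℝ → E n := fun s => Real.cos s • EuclideanSpace.single i0 (1 : ℝ) +
    Real.sin s • EuclideanSpace.single i1 (1 : ℝ)
  have o1 : inner ℝ (EuclideanSpace.single i0 (1 : ℝ)) (EuclideanSpace.single i1 (1 : ℝ)) = (0 : ℝ) := by
    rw [EuclideanSpace.inner_single_left]
    simp [hne]
  have o2 : inner ℝ (EuclideanSpace.single i1 (1 : ℝ)) (EuclideanSpace.single i0 (1 : ℝ)) = (0 : ℝ) := by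
    rw [EuclideanSpace.inner_single_left]
    simp [hne.symm]
  have hin : ∀ s s', inner ℝ (v s) (v s') = Real.cos (s - s') := by
    intro s s'
    simp only [v]
    rw [inner_add_left, inner_add_right, inner_add_right, real_inner_smul_left,
      real_inner_smul_left, real_inner_smul_left, real_inner_smul_left, real_inner_smul_right,
      real_inner_smul_right, real_inner_smul_right, real_inner_smul_right, Real.cos_sub, o1, o2]
    simp
  have hno : ∀ s, ‖v s‖ = 1 := by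
    intro s
    have h1 : ‖v s‖ ^ 2 = 1 := by
      rw [← real_inner_self_eq_norm_sq, hin, sub_self, Real.cos_zero]
    have h2 := norm_nonneg (v s)
    nlinarith
  have hinj : Set.InjOn (fun s => torus t θ (v s)) (Set.Ico 0 (Real.pi / 2)) := by
    intro s hs s' hs' heq
    by_contra hss
    refine torus_ne hn h (v s) (v s') (hno s) (hno s') ?_ heq
    rw [hin]
    have hb : |s - s'| < Real.pi / 2 := by
      rw [abs_lt]
      exact ⟨by linarith [hs.1, hs'.2], by linarith [hs.2, hs'.1]⟩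
    have hb' := abs_lt.1 hb
    have hp : 0 < Real.cos (s - s') := Real.cos_pos_of_mem_Ioo ⟨by linarith [hb'.1], hb'.2⟩
    rw [abs_of_pos hp]
    have hq : Real.cos |s - s'| < Real.cos 0 := by
      refine Real.cos_lt_cos_of_nonneg_of_le_pi_div_two le_rfl hb.le ?_
      exact abs_pos.2 (sub_ne_zero.2 hss)
    rwa [Real.cos_abs, Real.cos_zero] at hq
  have hinf : (Set.Ico (0 : ℝ) (Real.pi / 2)).Infinite := Set.Ico_infinite (by positivity)
  exact Set.infinite_of_injOn_mapsTo hinj (fun s _ => ⟨v s, hno s, rfl⟩) hinf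

end TwinBubble
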