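import Pool.Agent.H11.TB.Defs

/-!
# Inj: a profile curve is injective modulo `2π`
`z b = - sin a₀ (t b - t a₀) + cos a₀ (θ b - θ a₀)` has derivative `ρ b sin (b - a₀)`, is
`2π`-periodic, vanishes at `a₀`, hence is strictly positive on `(a₀, a₀ + 2π)` (increasing up to
`a₀ + π`, then decreasing to `0`).
-/

open scoped ContDiff NNReal
open Set

namespace TwinBubble

theorem Profile.period {n : ℕ} {F K : ℝ → ℝ} {c : ℝ} {t θ ρ : ℝ → ℝ}
    (h : Profile n F K c t θ ρ) : Function.Periodic t (2 * Real.pi) ∧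
      Function.Periodic θ (2 * Real.pi) := by
  constructor
  · intro a
    have h1 := h.shift_t a
    have h2 := h.shift_t (a + Real.pi)
    rw [show a + 2 * Real.pi = a + Real.pi + Real.pi by ring, h2, h1, neg_neg]
  · intro a
    have h1 := h.shift_θ a
    have h2 := h.shift_θ (a + Real.pi)
    rw [show a + 2 * Real.pi = a + Real.pi + Real.pi by ring, h2, h1]
    ring

theorem Profile.above {n : ℕ} {F K : ℝ → ℝ} {c : ℝ} {t θ ρ : ℝ → ℝ}
    (h : Profile n F K c t θ ρ) (a₀ b : ℝ) (h1 : a₀ < b) (h2 : b < a₀ + 2 * Real.pi) :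
    0 < -Real.sin a₀ * (t b - t a₀) + Real.cos a₀ * (θ b - θ a₀) := by
  have hpi := Real.pi_pos
  let z : ℝ → ℝ := fun b => -Real.sin a₀ * (t b - t a₀) + Real.cos a₀ * (θ b - θ a₀)
  have hz : ∀ b, HasDerivAt z (ρ b * Real.sin (b - a₀)) b := by
    intro b
    have e1 := ((h.deriv_t b).sub_const (t a₀)).const_mul (-Real.sin a₀)
    have e2 := ((h.deriv_θ b).sub_const (θ a₀)).const_mul (Real.cos a₀)
    have e3 := e1.add e2
    have e4 : -Real.sin a₀ * (ρ b * Real.cos b) + Real.cos a₀ * (ρ b * Real.sin b) = ρ b * Real.sin (b - a₀) := by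
      rw [Real.sin_sub]
      ring
    rw [e4] at e3
    exact e3
  have hc : Continuous z := continuous_iff_continuousAt.2 fun b => (hz b).continuousAt
  have hz0 : z a₀ = 0 := by
    simp [z]
  have hz2 : z (a₀ + 2 * Real.pi) = 0 := by
    change -Real.sin a₀ * (t (a₀ + 2 * Real.pi) - t a₀) + Real.cos a₀ * (θ (a₀ + 2 * Real.pi) - θ a₀) = 0
    rw [h.period.1 a₀, h.period.2 a₀]
    ring
  have hmono : StrictMonoOn z (Icc a₀ (a₀ + Real.pi)) := by
    refine strictMonoOn_of_deriv_pos (convex_Icc _ _) hc.continuousOn fun x hx => ?_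
    rw [interior_Icc] at hx
    rw [(hz x).deriv]
    exact mul_pos (h.ρ_pos x) (Real.sin_pos_of_pos_of_lt_pi (by linarith [hx.1]) (by linarith [hx.2]))
  have hanti : StrictAntiOn z (Icc (a₀ + Real.pi) (a₀ + 2 * Real.pi)) := by
    refine strictAntiOn_of_deriv_neg (convex_Icc _ _) hc.continuousOn fun x hx => ?_
    rw [interior_Icc] at hx
    rw [(hz x).deriv]
    have : Real.sin (x - a₀) < 0 := by
      have e : Real.sin (x - a₀) = -Real.sin (x - a₀ - Real.pi) := by
        rw [Real.sin_sub_pi, neg_neg]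
      rw [e]
      exact neg_neg_of_pos (Real.sin_pos_of_pos_of_lt_pi (by linarith [hx.1]) (by linarith [hx.2]))
    exact mul_neg_of_pos_of_neg (h.ρ_pos x) this
  change 0 < z b
  by_cases hb : b ≤ a₀ + Real.pi
  · rw [← hz0]
    exact hmono ⟨le_rfl, by linarith⟩ ⟨h1.le, hb⟩ h1
  · rw [← hz2]
    exact hanti ⟨by linarith, h2.le⟩ ⟨by linarith, le_rfl⟩ h2

/-- injectivity modulo `2π` -/
theorem Profile.inj {n : ℕ} {F K : ℝ → ℝ} {c : ℝ} {t θ ρ : ℝ → ℝ}
    (h : Profile n F K c t θ ρ) {a b : ℝ} (ht : t a = t b) (hθ : θ a = θ b) :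
    Real.sin a = Real.sin b ∧ Real.cos a = Real.cos b := by
  have hpi := Real.two_pi_pos
  obtain ⟨m, hm, -⟩ := existsUnique_add_zsmul_mem_Ico hpi b a
  rw [zsmul_eq_mul] at hm
  have ht' : t (b + m * (2 * Real.pi)) = t b := by
    have := h.period.1.int_mul m b
    exact this
  have hθ' : θ (b + m * (2 * Real.pi)) = θ b := by
    have := h.period.2.int_mul m b
    exact this
  have hb : b + m * (2 * Real.pi) = a := by
    by_contra hne
    have h1 : a < b + m * (2 * Real.pi) := lt_of_le_of_ne hm.1 (Ne.symm hne)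
    have h2 := h.above a _ h1 hm.2
    rw [ht', hθ', ht, hθ] at h2
    simp at h2
  constructor
  · rw [← hb]
    exact Real.sin_add_int_mul_two_pi b m
  · rw [← hb]
    exact Real.cos_add_int_mul_two_pi b m

private theorem t_pos {n : ℕ} {F K : ℝ → ℝ} {c : ℝ} {t θ ρ : ℝ → ℝ}
    (h : Profile n F K c t θ ρ) {a : ℝ} (h1 : 0 < a) (h2 : a < Real.pi) : 0 < t a := by
  have hpi := Real.pi_pos
  have hc : Continuous t := h.smooth_t.continuous
  have hmono : StrictMonoOn t (Icc 0 (Real.pi / 2)) := by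
    refine strictMonoOn_of_deriv_pos (convex_Icc _ _) hc.continuousOn fun x hx => ?_
    rw [interior_Icc] at hx
    rw [(h.deriv_t x).deriv]
    exact mul_pos (h.ρ_pos x) (Real.cos_pos_of_mem_Ioo ⟨by linarith [hx.1], by linarith [hx.2]⟩)
  have hanti : StrictAntiOn t (Icc (Real.pi / 2) Real.pi) := by
    refine strictAntiOn_of_deriv_neg (convex_Icc _ _) hc.continuousOn fun x hx => ?_
    rw [interior_Icc] at hx
    rw [(h.deriv_t x).deriv]
    exact mul_neg_of_pos_of_neg (h.ρ_pos x) (Real.cos_neg_of_pi_div_two_lt_of_lt hx.1 (by linarith [hx.2]))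
  by_cases ha : a ≤ Real.pi / 2
  · rw [← h.zero]
    exact hmono ⟨le_rfl, by linarith⟩ ⟨h1.le, ha⟩ h1
  · have h0 : t Real.pi = 0 := by
      have := h.shift_t 0
      rw [zero_add, h.zero, neg_zero] at this
      exact this
    rw [← h0]
    exact hanti ⟨by linarith, h2.le⟩ ⟨by linarith, le_rfl⟩ h2

/-- the points with `t = 0` are the two points `a ∈ π ℤ` -/
theorem Profile.t_eq_zero {n : ℕ} {F K : ℝ → ℝ} {c : ℝ} {t θ ρ : ℝ → ℝ}
    (h : Profile n F K c t θ ρ) {a : ℝ} (ht : t a = 0) : θ a = θ 0 ∨ θ a = Real.pi - θ 0 := by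
  have hpi := Real.two_pi_pos
  have hpi' := Real.pi_pos
  obtain ⟨m, hm, -⟩ := existsUnique_add_zsmul_mem_Ico hpi a 0
  rw [zsmul_eq_mul] at hm
  have ht' : t (a + m * (2 * Real.pi)) = t a := h.period.1.int_mul m a
  have hθ' : θ (a + m * (2 * Real.pi)) = θ a := h.period.2.int_mul m a
  rw [← hθ']
  rw [ht] at ht'
  generalize a + m * (2 * Real.pi) = b at hm ht'
  obtain ⟨hb0, hb1⟩ := hm
  rcases hb0.eq_or_lt with rfl | hb
  · exact Or.inl rfl
  rcases lt_trichotomy b Real.pi with h1 | h1 | h1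
  · exact absurd ht' (t_pos h hb h1).ne'
  · right
    have := h.shift_θ 0
    rw [zero_add] at this
    rw [h1, this]
  · exfalso
    have h2 := h.shift_t (b - Real.pi)
    rw [sub_add_cancel, ht'] at h2
    have h3 := t_pos h (a := b - Real.pi) (by linarith) (by linarith)
    linarith

end TwinBubble
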