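import Pool.Agent.H11.TB.Inj

/-!
# Local: local defining functions of a profile curve
Rotate: `w = cos a₀ t + sin a₀ θ`, `z = - sin a₀ t + cos a₀ θ`.  Along the curve
`w' = ρ cos (b - a₀) > 0` for `|b - a₀| < π/2`, so (inverse function theorem,
`ContDiffAt.toOpenPartialHomeomorph` or `HasStrictDerivAt.localInverse`) there is a smooth `β` near
`w a₀` with `w (β s) = s`, `β (w a₀) = a₀`, `|β s - a₀| < π/2`.  Put `α (t, θ) = β (w (t, θ))` and
`u (t, θ) = z (α) - z (t, θ)` (first `z` = `z` along the curve).  Then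
`∂ₜ u = sin α / cos (α - a₀)`, `∂_θ u = - cos α / cos (α - a₀)`,
`∂ₜ α = cos a₀ / (ρ(α) cos (α - a₀))`, `∂_θ α = sin a₀ / (ρ(α) cos (α - a₀))`.
`W` = small neighbourhood: `w` near `w a₀`, and `W` disjoint from the compact set
`{(t b, θ b) | |b - a₀| ∈ [δ, 2π - δ]}` which does not contain `(t a₀, θ a₀)` by `Profile.inj`/
`Profile.above`; every curve point is `(t b, θ b)` with `|b - a₀| ≤ π` (`Profile.period`).
-/

open scoped ContDiff NNReal
open Set

namespace TwinBubble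

private theorem loc_inv (w : ℝ → ℝ) (hw : ContDiff ℝ ∞ w) (a w' : ℝ) (hd : HasDerivAt w w' a)
    (h0 : w' ≠ 0) : ∃ e : OpenPartialHomeomorph ℝ ℝ, (e : ℝ → ℝ) = w ∧ a ∈ e.source := by
  have h1 : HasStrictDerivAt w w' a := by
    have := (hw.contDiffAt (x := a)).hasStrictDerivAt (by simp)
    rwa [hd.deriv] at this
  have h2 := h1.hasStrictFDerivAt_equiv h0
  exact ⟨h2.toOpenPartialHomeomorph w, h2.toOpenPartialHomeomorph_coe,
    h2.mem_toOpenPartialHomeomorph_source⟩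

private theorem rot (a x y x' y' : ℝ) (h1 : Real.cos a * x + Real.sin a * y =
    Real.cos a * x' + Real.sin a * y') (h2 : -Real.sin a * x + Real.cos a * y =
    -Real.sin a * x' + Real.cos a * y') : x = x' ∧ y = y' := by
  have h := Real.sin_sq_add_cos_sq a
  constructor
  · linear_combination Real.cos a * h1 - Real.sin a * h2 - (x - x') * h
  · linear_combination Real.sin a * h1 + Real.cos a * h2 - (y - y') * h

theorem Profile.local_graph {n : ℕ} {F K : ℝ → ℝ} {c : ℝ} {t θ ρ : ℝ → ℝ}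
    (h : Profile n F K c t θ ρ) (a₀ : ℝ) :
    ∃ (W : Set (ℝ × ℝ)) (α u lam α₁ α₂ : ℝ × ℝ → ℝ), IsOpen W ∧ (t a₀, θ a₀) ∈ W ∧
      ContDiffOn ℝ ∞ u W ∧ (∀ p ∈ W, 0 < lam p) ∧
      (∀ p ∈ W, HasFDerivAt u (lam p • (Real.sin (α p) • ContinuousLinearMap.fst ℝ ℝ ℝ -
        Real.cos (α p) • ContinuousLinearMap.snd ℝ ℝ ℝ)) p) ∧
      (∀ p ∈ W, HasFDerivAt α (α₁ p • ContinuousLinearMap.fst ℝ ℝ ℝ +
        α₂ p • ContinuousLinearMap.snd ℝ ℝ ℝ) p) ∧
      (∀ p ∈ W, ρ (α p) * (Real.cos (α p) * α₁ p + Real.sin (α p) * α₂ p) = 1) ∧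
      (∀ p ∈ W, u p = 0 ↔ ∃ b, (t b, θ b) = p) ∧
      ∀ p ∈ W, u p = 0 → (t (α p), θ (α p)) = p := by
  -- rotated coordinates along the curve
  let w : ℝ → ℝ := fun b => Real.cos a₀ * t b + Real.sin a₀ * θ b
  let z : ℝ → ℝ := fun b => -Real.sin a₀ * t b + Real.cos a₀ * θ b
  have hwd : ∀ b, HasDerivAt w (ρ b * Real.cos (b - a₀)) b := by
    intro b
    have := ((h.deriv_t b).const_mul (Real.cos a₀)).add ((h.deriv_θ b).const_mul (Real.sin a₀))
    refine this.congr_deriv ?_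
    rw [Real.cos_sub]
    ring
  have hzd : ∀ b, HasDerivAt z (ρ b * Real.sin (b - a₀)) b := by
    intro b
    have := ((h.deriv_t b).const_mul (-Real.sin a₀)).add ((h.deriv_θ b).const_mul (Real.cos a₀))
    refine this.congr_deriv ?_
    rw [Real.sin_sub]
    ring
  have hws : ContDiff ℝ ∞ w := (contDiff_const.mul h.smooth_t).add (contDiff_const.mul h.smooth_θ)
  have hzs : ContDiff ℝ ∞ z := (contDiff_const.mul h.smooth_t).add (contDiff_const.mul h.smooth_θ)
  obtain ⟨e, he, hae⟩ := loc_inv w hws a₀ _ (hwd a₀) (by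
    rw [sub_self, Real.cos_zero, mul_one]
    exact (h.ρ_pos a₀).ne')
  obtain ⟨δ₀, hδ₀, hball⟩ := Metric.isOpen_iff.mp e.open_source a₀ hae
  have hpi := Real.pi_pos
  obtain ⟨δ, hδ, hδ1, hδ2⟩ : ∃ δ : ℝ, 0 < δ ∧ δ < δ₀ ∧ δ < Real.pi / 2 :=
    ⟨min (δ₀ / 2) (Real.pi / 4), lt_min (by linarith) (by linarith),
      lt_of_le_of_lt (min_le_left _ _) (by linarith),
      lt_of_le_of_lt (min_le_right _ _) (by linarith)⟩
  have hsrc : ∀ b, |b - a₀| ≤ δ → b ∈ e.source := by
    intro b hb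
    apply hball
    rw [Metric.mem_ball, Real.dist_eq]
    linarith
  -- the smooth inverse
  let β : ℝ → ℝ := e.symm
  let V : Set ℝ := e.symm.source ∩ e.symm ⁻¹' (Metric.ball a₀ δ)
  have hV : IsOpen V := e.symm.isOpen_inter_preimage Metric.isOpen_ball
  have hVt : ∀ y ∈ V, y ∈ e.target ∧ |β y - a₀| < δ := by
    intro y hy
    refine ⟨hy.1, ?_⟩
    have := hy.2
    rw [Set.mem_preimage, Metric.mem_ball, Real.dist_eq] at this
    exact this
  have hcos : ∀ y ∈ V, 0 < Real.cos (β y - a₀) := by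
    intro y hy
    have := abs_lt.mp (hVt y hy).2
    exact Real.cos_pos_of_mem_Ioo ⟨by linarith, by linarith⟩
  have hwβ : ∀ y ∈ V, w (β y) = y := by
    intro y hy
    have := e.right_inv (hVt y hy).1
    rwa [he] at this
  have hβw : ∀ b, |b - a₀| ≤ δ → β (w b) = b := by
    intro b hb
    have := e.left_inv (hsrc b hb)
    rwa [he] at this
  have hβd : ∀ y ∈ V, HasDerivAt β (ρ (β y) * Real.cos (β y - a₀))⁻¹ y := by
    intro y hy
    apply e.hasDerivAt_symm (hVt y hy).1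
    · exact (mul_pos (h.ρ_pos _) (hcos y hy)).ne'
    · rw [he]
      exact hwd _
  have hβs : ∀ y ∈ V, ContDiffAt ℝ ∞ β y := by
    intro y hy
    refine e.contDiffAt_symm_deriv (f₀' := ρ (β y) * Real.cos (β y - a₀))
      (mul_pos (h.ρ_pos _) (hcos y hy)).ne' (hVt y hy).1 ?_ ?_
    · rw [he]
      exact hwd _
    · rw [he]
      exact hws.contDiffAt
  -- the compact set to be avoided
  let Kc : Set (ℝ × ℝ) := (fun b => (t b, θ b)) '' Set.Icc (a₀ + δ) (a₀ + 2 * Real.pi - δ)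
  have hK : IsClosed Kc := by
    apply IsCompact.isClosed
    exact isCompact_Icc.image ((h.smooth_t.continuous).prodMk (h.smooth_θ.continuous))
  let Wf : ℝ × ℝ → ℝ := fun p => Real.cos a₀ * p.1 + Real.sin a₀ * p.2
  have hWc : Continuous Wf := by
    unfold Wf
    fun_prop
  have hWfd : ∀ p, HasFDerivAt Wf (Real.cos a₀ • ContinuousLinearMap.fst ℝ ℝ ℝ +
      Real.sin a₀ • ContinuousLinearMap.snd ℝ ℝ ℝ) p := by
    intro p
    exact (hasFDerivAt_fst.const_mul (Real.cos a₀)).add (hasFDerivAt_snd.const_mul (Real.sin a₀))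
  let Zf : ℝ × ℝ → ℝ := fun p => -Real.sin a₀ * p.1 + Real.cos a₀ * p.2
  have hZfd : ∀ p, HasFDerivAt Zf ((-Real.sin a₀) • ContinuousLinearMap.fst ℝ ℝ ℝ +
      Real.cos a₀ • ContinuousLinearMap.snd ℝ ℝ ℝ) p := by
    intro p
    exact (hasFDerivAt_fst.const_mul (-Real.sin a₀)).add (hasFDerivAt_snd.const_mul (Real.cos a₀))
  let W : Set (ℝ × ℝ) := Wf ⁻¹' V ∩ Kcᶜ
  have hWV : ∀ p ∈ W, Wf p ∈ V := fun p hp => hp.1
  have hαd : ∀ p ∈ W, HasFDerivAt (fun p => β (Wf p))
      ((ρ (β (Wf p)) * Real.cos (β (Wf p) - a₀))⁻¹ • (Real.cos a₀ • ContinuousLinearMap.fst ℝ ℝ ℝ +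
        Real.sin a₀ • ContinuousLinearMap.snd ℝ ℝ ℝ)) p := by
    intro p hp
    exact (hβd _ (hWV p hp)).comp_hasFDerivAt p (hWfd p)
  have hud : ∀ p ∈ W, HasFDerivAt (fun p => z (β (Wf p)) - Zf p)
      ((Real.cos (β (Wf p) - a₀))⁻¹ • (Real.sin (β (Wf p)) • ContinuousLinearMap.fst ℝ ℝ ℝ -
        Real.cos (β (Wf p)) • ContinuousLinearMap.snd ℝ ℝ ℝ)) p := by
    intro p hp
    have h1 := ((hzd (β (Wf p))).comp_hasFDerivAt p (hαd p hp)).sub (hZfd p)
    refine h1.congr_fderiv ?_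
    have hc := (hcos _ (hWV p hp)).ne'
    have hρ := (h.ρ_pos (β (Wf p))).ne'
    have hs1 : Real.sin (β (Wf p)) = Real.sin (β (Wf p) - a₀) * Real.cos a₀ +
        Real.cos (β (Wf p) - a₀) * Real.sin a₀ := by
      rw [← Real.sin_add, sub_add_cancel]
    have hc1 : Real.cos (β (Wf p)) = Real.cos (β (Wf p) - a₀) * Real.cos a₀ -
        Real.sin (β (Wf p) - a₀) * Real.sin a₀ := by
      rw [← Real.cos_add, sub_add_cancel]
    rw [hs1, hc1]
    apply ContinuousLinearMap.ext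
    rintro ⟨x, y⟩
    simp only [FunLike.coe_sub, FunLike.coe_add, FunLike.coe_smul, Pi.sub_apply, Pi.add_apply,
      Pi.smul_apply, ContinuousLinearMap.coe_fst', ContinuousLinearMap.coe_snd', smul_eq_mul]
    field_simp
    ring
  refine ⟨W, fun p => β (Wf p), fun p => z (β (Wf p)) - Zf p,
    fun p => (Real.cos (β (Wf p) - a₀))⁻¹,
    fun p => (ρ (β (Wf p)) * Real.cos (β (Wf p) - a₀))⁻¹ * Real.cos a₀,
    fun p => (ρ (β (Wf p)) * Real.cos (β (Wf p) - a₀))⁻¹ * Real.sin a₀, ?_, ?_, ?_, ?_, hud, ?_, ?_,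
    ?_, ?_⟩
  · exact (hV.preimage hWc).inter hK.isOpen_compl
  · constructor
    · change w a₀ ∈ V
      have h1 : β (w a₀) = a₀ := hβw a₀ (by rw [sub_self, abs_zero]; exact hδ.le)
      constructor
      · have := e.map_source hae
        rw [he] at this
        exact this
      · change β (w a₀) ∈ Metric.ball a₀ δ
        rw [h1]
        exact Metric.mem_ball_self hδ
    · rintro ⟨b, hb, hbe⟩
      have hb1 : t b = t a₀ := congrArg Prod.fst hbe
      have hb2 : θ b = θ a₀ := congrArg Prod.snd hbe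
      have := h.above a₀ b (by linarith [hb.1]) (by linarith [hb.2])
      rw [hb1, hb2, sub_self, sub_self, mul_zero, mul_zero, add_zero] at this
      exact lt_irrefl _ this
  · intro p hp
    apply ContDiffAt.contDiffWithinAt
    have h1 : ContDiffAt ℝ ∞ (fun p => β (Wf p)) p := by
      apply (hβs _ (hWV p hp)).comp p
      apply ContDiff.contDiffAt
      exact (contDiff_const.mul contDiff_fst).add (contDiff_const.mul contDiff_snd)
    have h2 : ContDiffAt ℝ ∞ Zf p := by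
      apply ContDiff.contDiffAt
      exact (contDiff_const.mul contDiff_fst).add (contDiff_const.mul contDiff_snd)
    exact (hzs.contDiffAt.comp p h1).sub h2
  · intro p hp
    exact inv_pos.mpr (hcos _ (hWV p hp))
  · intro p hp
    refine (hαd p hp).congr_fderiv ?_
    rw [smul_add, smul_smul, smul_smul]
  · intro p hp
    have hc := (hcos _ (hWV p hp)).ne'
    have hρ := (h.ρ_pos (β (Wf p))).ne'
    have hc1 : Real.cos (β (Wf p) - a₀) = Real.cos (β (Wf p)) * Real.cos a₀ +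
        Real.sin (β (Wf p)) * Real.sin a₀ := Real.cos_sub _ _
    field_simp
    rw [hc1]
  · intro p hp
    constructor
    · intro hu
      have hz' : z (β (Wf p)) = Zf p := sub_eq_zero.mp hu
      have hw' := hwβ _ (hWV p hp)
      obtain ⟨r1, r2⟩ := rot a₀ _ _ _ _ hw' hz'
      exact ⟨β (Wf p), Prod.ext r1 r2⟩
    · rintro ⟨b, rfl⟩
      -- move `b` into the fundamental interval
      obtain ⟨b', hb', hbb⟩ : ∃ b', b' ∈ Set.Ico (a₀ - δ) (a₀ - δ + 2 * Real.pi) ∧
          (t b', θ b') = (t b, θ b) := by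
        obtain ⟨m, hm⟩ := existsUnique_sub_zsmul_mem_Ico (Real.two_pi_pos) b (a₀ - δ)
        refine ⟨b - m • (2 * Real.pi), hm.1, ?_⟩
        have p1 := h.period.1.sub_zsmul_eq m (x := b)
        have p2 := h.period.2.sub_zsmul_eq m (x := b)
        rw [p1, p2]
      have hlt : b' < a₀ + δ := by
        by_contra hcon
        push Not at hcon
        have hin : (t b, θ b) ∈ Kc := by
          rw [← hbb]
          exact ⟨b', ⟨hcon, by linarith [hb'.2]⟩, rfl⟩
        exact hp.2 hin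
      have hab : |b' - a₀| ≤ δ := by
        rw [abs_le]
        exact ⟨by linarith [hb'.1], by linarith⟩
      have e1 : t b' = t b := congrArg Prod.fst hbb
      have e2 : θ b' = θ b := congrArg Prod.snd hbb
      have hWb : Wf (t b, θ b) = w b' := by
        change Real.cos a₀ * t b + Real.sin a₀ * θ b = Real.cos a₀ * t b' + Real.sin a₀ * θ b'
        rw [e1, e2]
      have hZb : Zf (t b, θ b) = z b' := by
        change -Real.sin a₀ * t b + Real.cos a₀ * θ b = -Real.sin a₀ * t b' + Real.cos a₀ * θ b'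
        rw [e1, e2]
      change z (β (Wf (t b, θ b))) - Zf (t b, θ b) = 0
      rw [hWb, hZb, hβw b' hab, sub_self]
  · intro p hp hu
    have hz' : z (β (Wf p)) = Zf p := sub_eq_zero.mp hu
    have hw' := hwβ _ (hWV p hp)
    obtain ⟨r1, r2⟩ := rot a₀ _ _ _ _ hw' hz'
    exact Prod.ext r1 r2

end TwinBubble
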