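import Pool.Agent.H11.TB.Inj
import Pool.Agent.H11.TB.AntiD

/-!
# Topo: compactness and connectedness of the torus
`torus t θ e` is the image of `[0, 2π] × {ξ | ‖ξ‖ = 1, ξ ⟂ e}` (and of `ℝ × {…}`) under
`(a, ξ) ↦ e^(t a) (cos (θ a) e + sin (θ a) ξ)`.  The unit sphere of `e^⊥` is connected since
`dim e^⊥ = n ≥ 2` (`isConnected_sphere` in the subspace `(ℝ ∙ e)ᗮ`, then `Subtype.val`).
-/

open scoped ContDiff NNReal
open Set

namespace TwinBubble

variable {n : ℕ} {F K : ℝ → ℝ} {c : ℝ} {t θ ρ : ℝ → ℝ}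

/-- the standard parametrisation -/
noncomputable def par (t θ : ℝ → ℝ) (e : E n) (p : ℝ × E n) : E n :=
  Real.exp (t p.1) • (Real.cos (θ p.1) • e + Real.sin (θ p.1) • p.2)

/-- unit vectors orthogonal to `e` -/
def perp (e : E n) : Set (E n) := {ξ | ‖ξ‖ = 1 ∧ inner ℝ ξ e = 0}

theorem isConnected_perp (hn : 2 ≤ n) (e : E n) (he : ‖e‖ = 1) : IsConnected (perp e) := by
  have hne : e ≠ 0 := by
    rintro rfl
    rw [norm_zero] at he
    exact zero_ne_one he
  have h1 : perp e = Subtype.val '' (Metric.sphere (0 : (ℝ ∙ e)ᗮ) 1) := by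
    ext ξ
    constructor
    · rintro ⟨h1, h2⟩
      refine ⟨⟨ξ, ?_⟩, ?_, rfl⟩
      · rw [Submodule.mem_orthogonal_singleton_iff_inner_left]
        exact h2
      · rw [mem_sphere_zero_iff_norm]
        exact h1
    · rintro ⟨⟨ξ', hξ'⟩, h1, rfl⟩
      rw [mem_sphere_zero_iff_norm] at h1
      refine ⟨h1, ?_⟩
      rw [Submodule.mem_orthogonal_singleton_iff_inner_left] at hξ'
      exact hξ'
  have hfin : Fact (Module.finrank ℝ (E n) = n + 1) := ⟨by simp⟩
  have h2 : Module.finrank ℝ (ℝ ∙ e)ᗮ = n := Submodule.finrank_orthogonal_span_singleton hne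
  have h3 : 1 < Module.rank ℝ (ℝ ∙ e)ᗮ := by
    rw [← Module.finrank_eq_rank, h2]
    exact_mod_cast hn
  rw [h1]
  exact (isConnected_sphere h3 0 zero_le_one).image _ continuous_subtype_val.continuousOn

private theorem topo_norm (e : E n) (he : ‖e‖ = 1) (b : ℝ) (ξ : E n) (hξ : ξ ∈ perp e) :
    ‖Real.cos b • e + Real.sin b • ξ‖ = 1 := by
  have h1 : ‖Real.cos b • e + Real.sin b • ξ‖ ^ 2 = 1 := by
    rw [norm_add_sq_real, norm_smul, norm_smul, he, hξ.1, real_inner_smul_left,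
      real_inner_smul_right, real_inner_comm, hξ.2, Real.norm_eq_abs, Real.norm_eq_abs, mul_one,
      mul_one, sq_abs, sq_abs]
    have := Real.sin_sq_add_cos_sq b
    linarith
  have h2 := norm_nonneg (Real.cos b • e + Real.sin b • ξ)
  nlinarith

private theorem topo_norm_par (e : E n) (he : ‖e‖ = 1) (a : ℝ) (ξ : E n) (hξ : ξ ∈ perp e) :
    ‖par t θ e (a, ξ)‖ = Real.exp (t a) := by
  show ‖Real.exp (t a) • (Real.cos (θ a) • e + Real.sin (θ a) • ξ)‖ = _
  rw [norm_smul, topo_norm e he (θ a) ξ hξ, mul_one, Real.norm_eq_abs, abs_of_pos (Real.exp_pos _)]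

theorem Tc_par (h : Profile n F K c t θ ρ) (e : E n) (he : ‖e‖ = 1) (a : ℝ) (ξ : E n)
    (hξ : ξ ∈ perp e) : Tc (par t θ e (a, ξ)) = t a := by
  unfold Tc
  rw [topo_norm_par e he a ξ hξ, Real.log_exp]

theorem Ac_par (h : Profile n F K c t θ ρ) (e : E n) (he : ‖e‖ = 1) (a : ℝ) (ξ : E n)
    (hξ : ξ ∈ perp e) : Ac e (par t θ e (a, ξ)) = θ a := by
  unfold Ac
  rw [topo_norm_par e he a ξ hξ]
  have h1 : inner ℝ (par t θ e (a, ξ)) e = Real.exp (t a) * Real.cos (θ a) := by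
    show inner ℝ (Real.exp (t a) • (Real.cos (θ a) • e + Real.sin (θ a) • ξ)) e = _
    rw [real_inner_smul_left, inner_add_left, real_inner_smul_left, real_inner_smul_left, hξ.2,
      real_inner_self_eq_norm_sq, he]
    ring
  rw [h1, mul_div_assoc, mul_comm, div_mul_cancel₀ _ (Real.exp_pos _).ne',
    Real.arccos_cos (h.θ_pos a).le (h.θ_lt a).le]

private theorem topo_par_ne (e : E n) (he : ‖e‖ = 1) (a : ℝ) (ξ : E n) (hξ : ξ ∈ perp e) :
    par t θ e (a, ξ) ≠ 0 := by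
  intro h0
  have := topo_norm_par (t := t) (θ := θ) e he a ξ hξ
  rw [h0, norm_zero] at this
  exact (Real.exp_pos _).ne this

private theorem topo_exists (e : E n) (he : ‖e‖ = 1) {x : E n} (hx : x ≠ 0) {a : ℝ}
    (ht : t a = Tc x) (hθ : θ a = Ac e x) (h0 : 0 < θ a) (hpi : θ a < Real.pi) :
    ∃ ξ ∈ perp e, par t θ e (a, ξ) = x := by
  have hs : 0 < Real.sin (θ a) := Real.sin_pos_of_pos_of_lt_pi h0 hpi
  have hxp : 0 < ‖x‖ := norm_pos_iff.2 hx
  have hc : Real.cos (θ a) = inner ℝ x e / ‖x‖ := by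
    rw [hθ]
    exact cos_Ac he hx
  have her : inner ℝ (er x) e = Real.cos (θ a) := by
    unfold er
    rw [real_inner_smul_left, hc, div_eq_inv_mul]
  have hner : ‖er x‖ = 1 := norm_er hx
  refine ⟨(Real.sin (θ a))⁻¹ • (er x - Real.cos (θ a) • e), ⟨?_, ?_⟩, ?_⟩
  · have h1 : ‖er x - Real.cos (θ a) • e‖ ^ 2 = Real.sin (θ a) ^ 2 := by
      rw [norm_sub_sq_real, real_inner_smul_right, her, hner, norm_smul, he, mul_one,
        Real.norm_eq_abs, sq_abs]
      have := Real.sin_sq_add_cos_sq (θ a)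
      nlinarith
    have h2 : ‖er x - Real.cos (θ a) • e‖ = Real.sin (θ a) := by
      have h3 := norm_nonneg (er x - Real.cos (θ a) • e)
      nlinarith
    rw [norm_smul, h2, norm_inv, Real.norm_eq_abs, abs_of_pos hs, inv_mul_cancel₀ hs.ne']
  · rw [real_inner_smul_left, inner_sub_left, her, real_inner_smul_left,
      real_inner_self_eq_norm_sq, he]
    ring
  · show Real.exp (t a) • (Real.cos (θ a) • e + Real.sin (θ a) •
      ((Real.sin (θ a))⁻¹ • (er x - Real.cos (θ a) • e))) = x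
    rw [smul_inv_smul₀ hs.ne', add_sub_cancel, ht]
    unfold Tc er
    rw [Real.exp_log hxp, smul_inv_smul₀ hxp.ne']

theorem torus_eq_image (h : Profile n F K c t θ ρ) (e : E n) (he : ‖e‖ = 1) :
    torus t θ e = par t θ e '' (Icc 0 (2 * Real.pi) ×ˢ perp e) := by
  ext x
  constructor
  · rintro ⟨hx, a, ht, hθ⟩
    have hp := h.period
    have h2pi : (0 : ℝ) < 2 * Real.pi := by positivity
    obtain ⟨b, hb, hab⟩ : ∃ b ∈ Ico (0 : ℝ) (0 + 2 * Real.pi), ∃ m : ℤ, a = b + m • (2 * Real.pi) := by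
      refine ⟨toIcoMod h2pi 0 a, toIcoMod_mem_Ico h2pi 0 a, toIcoDiv h2pi 0 a, ?_⟩
      exact (toIcoMod_add_toIcoDiv_zsmul h2pi 0 a).symm
    obtain ⟨m, rfl⟩ := hab
    have e1 : t (b + m • (2 * Real.pi)) = t b := (hp.1.zsmul m) b
    have e2 : θ (b + m • (2 * Real.pi)) = θ b := (hp.2.zsmul m) b
    rw [e1] at ht
    rw [e2] at hθ
    obtain ⟨ξ, hξ, hξx⟩ := topo_exists e he hx ht hθ (h.θ_pos b) (h.θ_lt b)
    rw [zero_add] at hb
    exact ⟨(b, ξ), ⟨⟨hb.1, hb.2.le⟩, hξ⟩, hξx⟩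
  · rintro ⟨⟨a, ξ⟩, ⟨_, hξ⟩, rfl⟩
    exact ⟨topo_par_ne e he a ξ hξ, a, (Tc_par h e he a ξ hξ).symm, (Ac_par h e he a ξ hξ).symm⟩

theorem torus_offAxis (h : Profile n F K c t θ ρ) (e : E n) (he : ‖e‖ = 1) :
    torus t θ e ⊆ offAxis e := by
  rintro x ⟨hx, a, ht, hθ⟩
  rw [mem_offAxis_iff he hx, ← hθ]
  exact ⟨h.θ_pos a, h.θ_lt a⟩

private theorem topo_cont (h : Profile n F K c t θ ρ) (e : E n) : Continuous (par t θ e) := by
  have h1 := h.smooth_t.continuous
  have h2 := h.smooth_θ.continuous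
  unfold par
  fun_prop

theorem torus_compact (h : Profile n F K c t θ ρ) (e : E n) (he : ‖e‖ = 1) :
    IsCompact (torus t θ e) := by
  rw [torus_eq_image h e he]
  refine (isCompact_Icc.prod ?_).image (topo_cont h e)
  have h1 : perp e = Metric.sphere (0 : E n) 1 ∩ {ξ | inner ℝ ξ e = 0} := by
    ext ξ
    rw [mem_inter_iff, mem_sphere_zero_iff_norm]
    rfl
  rw [h1]
  refine (isCompact_sphere 0 1).inter_right ?_
  exact isClosed_eq (by fun_prop) continuous_const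

theorem torus_connected (hn : 2 ≤ n) (h : Profile n F K c t θ ρ) (e : E n) (he : ‖e‖ = 1) :
    IsConnected (torus t θ e) := by
  rw [torus_eq_image h e he]
  refine IsConnected.image ?_ _ (topo_cont h e).continuousOn
  exact (isConnected_Icc (by positivity)).prod (isConnected_perp hn e he)

theorem torus_anti (h : Profile n F K c t θ ρ) (e : E n) (x : E n)
    (hx : x ∈ torus t θ e) : anti x ∈ torus t θ e := by
  obtain ⟨hx0, a, ht, hθ⟩ := hx
  refine ⟨anti_ne_zero hx0, a + Real.pi, ?_, ?_⟩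
  · rw [h.shift_t, ht, Tc_anti hx0]
  · rw [h.shift_θ, hθ, Ac_anti hx0]

end TwinBubble
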