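import Pool.Agent.H11.TB.Prof
import Pool.Agent.H11.TB.Dicho
import Pool.Agent.H11.TB.Torus
import Pool.Agent.H11.TB.Slice
import Pool.Agent.H11.TB.Infin

/-!
# Main: at least two closed `c`-CMC hypersurfaces in every rotationally symmetric `RP^(n+1)`
-/

open scoped ContDiff NNReal
open Set

namespace TwinBubble

variable {n : ℕ} {φ : E n → ℝ}

theorem exp_lt_one' {t : ℝ} (h : t < 0) : Real.exp t < 1 := by
  rw [← Real.exp_zero]
  exact Real.exp_lt_exp.2 h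

theorem slice_ne (r₁ r₂ : ℝ) (h1 : 0 < r₁) (h2 : r₁ < r₂) (h3 : r₂ < 1) :
    slice n r₁ ≠ slice n r₂ := by
  intro h
  have h4 : (r₁ • e0 n) ∈ slice n r₂ := by
    rw [← h]
    left
    rw [norm_smul, norm_e0, mul_one, Real.norm_of_nonneg h1.le]
  rcases h4 with h4 | h4 <;>
    rw [norm_smul, norm_e0, mul_one, Real.norm_of_nonneg h1.le] at h4
  · linarith
  · have h5 : 1 < r₂⁻¹ := (one_lt_inv₀ (h1.trans h2)).2 h3
    linarith

theorem infinite_of (hn : 2 ≤ n) (hφ : IsRotMetric φ) (c : ℝ) (hc : 0 < c)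
    (H : ∀ t, 0 ≤ t → Kr φ t < c * Fr φ t) : {S : Set (E n) | IsClosedCMC φ c S}.Infinite := by
  obtain ⟨t, θ, ρ, hp⟩ := exists_profile n hn (Fr φ) (Kr φ) (Fr_smooth hφ) (Kr_smooth hφ)
    (Fr_even hφ) (Kr_odd hφ) c (shooting_hyp hφ c hc H)
  refine (infinite_tori hn hp).mono ?_
  rintro S ⟨e, he, rfl⟩
  exact torus_isClosedCMC hn hφ hp e he

theorem main (hn : 2 ≤ n) (hφ : IsRotMetric φ) (c : ℝ) (hc : 0 < c) :
    (∃ r₁ r₂ : ℝ, 0 < r₁ ∧ r₁ < r₂ ∧ r₂ < 1 ∧ IsClosedCMC φ c (slice n r₁) ∧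
        IsClosedCMC φ c (slice n r₂)) ∨
      {S : Set (E n) | IsClosedCMC φ c S}.Infinite := by
  rcases dichotomy hφ (by omega) c hc with ⟨t₁, t₂, h1, h2, h3, h4⟩ | h
  · left
    refine ⟨Real.exp t₁, Real.exp t₂, Real.exp_pos _, Real.exp_lt_exp.2 h1,
      exp_lt_one' h2, ?_, ?_⟩
    · exact slice_isClosedCMC (by omega) hφ c _ (Real.exp_pos _) (exp_lt_one' (h1.trans h2))
        (by rw [Real.log_exp]; exact h3)
    · exact slice_isClosedCMC (by omega) hφ c _ (Real.exp_pos _) (exp_lt_one' h2)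
        (by rw [Real.log_exp]; exact h4)
  · exact Or.inr (infinite_of hn hφ c hc h)

theorem twin (hn : 2 ≤ n) (hφ : IsRotMetric φ) (c : ℝ) (hc : 0 < c) :
    ∃ S₁ S₂ : Set (E n), IsClosedCMC φ c S₁ ∧ IsClosedCMC φ c S₂ ∧ S₁ ≠ S₂ := by
  rcases main hn hφ c hc with ⟨r₁, r₂, h1, h2, h3, h4, h5⟩ | h
  · exact ⟨_, _, h4, h5, slice_ne r₁ r₂ h1 h2 h3⟩
  · obtain ⟨S₁, hS₁, S₂, hS₂, hne⟩ := h.nontrivial
    exact ⟨S₁, S₂, hS₁, hS₂, hne⟩

end TwinBubble
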