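import Pool.Agent.H11.TB.CurvW
import Pool.Agent.H11.TB.Slice

/-!
# SliceW: concentric spheres in the warped product
Same proof as `Slice.lean` with `meanCurvW_radial` instead of `meanCurv_radial`.
-/

open scoped ContDiff NNReal
open Set

namespace TwinBubble

variable {n : ℕ} {φ ψ : E n → ℝ}

/-- the gradient of `σ (log ‖y‖ - t₁)` -/
private theorem slw_grad (σ t₁ : ℝ) (y : E n) (hy : y ≠ 0) :
    gradient (fun y : E n => σ * (Real.log ‖y‖ - t₁)) y = (σ * ‖y‖⁻¹) • er y := by
  have h1 : HasFDerivAt (fun y : E n => σ * (Real.log ‖y‖ - t₁))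
      (σ • innerSL ℝ (‖y‖⁻¹ • er y)) y := by
    have h2 := hasFDerivAt_Tc (n := n) hy
    exact (h2.sub_const t₁).const_mul σ
  have h3 : HasGradientAt (fun y : E n => σ * (Real.log ‖y‖ - t₁)) ((σ * ‖y‖⁻¹) • er y) y := by
    rw [hasGradientAt_iff_hasFDerivAt]
    refine h1.congr_fderiv ?_
    apply ContinuousLinearMap.ext
    intro v
    rw [InnerProductSpace.toDual_apply_apply, real_inner_smul_left]
    simp only [FunLike.coe_smul, Pi.smul_apply, smul_eq_mul, innerSL_apply_apply]
    rw [real_inner_smul_left]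
    ring
  exact h3.gradient

private theorem slw_nu (σ : ℝ) (hσ : σ = 1 ∨ σ = -1) (t₁ : ℝ) (y : E n) (hy : y ≠ 0) :
    σ • er y = ‖gradient (fun y : E n => σ * (Real.log ‖y‖ - t₁)) y‖⁻¹ •
      gradient (fun y : E n => σ * (Real.log ‖y‖ - t₁)) y := by
  have hn0 : 0 < ‖y‖ := norm_pos_iff.2 hy
  have hσ1 : |σ| = 1 := by rcases hσ with h | h <;> rw [h] <;> simp
  rw [slw_grad σ t₁ y hy, norm_smul, norm_er hy, mul_one, norm_mul, Real.norm_eq_abs, hσ1, one_mul,
    norm_inv, norm_norm, inv_inv, smul_smul]
  congr 1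
  field_simp

private theorem slw_local (h : IsRotMetric φ) (h' : IsRotWeight ψ) (c σ t₁ : ℝ) (hσ : σ = 1 ∨ σ = -1)
    (hm : σ * (KrW φ ψ t₁ / Fr φ t₁) = c) (S U : Set (E n)) (ν : E n → E n) (hU : IsOpen U)
    (hU0 : ∀ y ∈ U, y ≠ 0) (hS : ∀ y ∈ U, (y ∈ S ↔ Real.log ‖y‖ = t₁))
    (hν : ∀ y ∈ U, ν y = σ • er y) (x : E n) (hx : x ∈ U) :
    ∃ (U : Set (E n)) (u : E n → ℝ), IsOpen U ∧ x ∈ U ∧ ContDiffOn ℝ ∞ u U ∧
      (∀ y ∈ U, gradient u y ≠ 0) ∧ (∀ y ∈ U, y ∈ S ↔ u y = 0) ∧
      ∀ y ∈ U, y ∈ S → ν y = ‖gradient u y‖⁻¹ • gradient u y ∧ meanCurvW φ ψ u y = c := by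
  have hσ0 : σ ≠ 0 := by rcases hσ with h | h <;> rw [h] <;> norm_num
  refine ⟨U, fun y => σ * (Real.log ‖y‖ - t₁), hU, hx, ?_, ?_, ?_, ?_⟩
  · intro y hy
    apply ContDiffAt.contDiffWithinAt
    exact contDiffAt_const.mul ((contDiffAt_Tc (hU0 y hy)).sub contDiffAt_const)
  · intro y hy
    have hy0 := hU0 y hy
    have hn0 : 0 < ‖y‖ := norm_pos_iff.2 hy0
    rw [slw_grad σ t₁ y hy0]
    refine smul_ne_zero (mul_ne_zero hσ0 (inv_ne_zero hn0.ne')) ?_
    intro h0
    have := norm_er hy0
    rw [h0, norm_zero] at this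
    norm_num at this
  · intro y hy
    rw [hS y hy]
    constructor
    · intro h1
      beta_reduce
      rw [h1, sub_self, mul_zero]
    · intro h1
      rcases mul_eq_zero.1 h1 with h2 | h2
      · exact absurd h2 hσ0
      · linarith
  · intro y hy hyS
    have hy0 := hU0 y hy
    refine ⟨?_, ?_⟩
    · rw [hν y hy]
      exact slw_nu σ hσ t₁ y hy0
    · rw [meanCurvW_radial h h' σ t₁ hσ y hy0]
      have : Tc y = t₁ := (hS y hy).1 hyS
      rw [this, hm]

private theorem slw_main (hn : 1 ≤ n) (h : IsRotMetric φ) (h' : IsRotWeight ψ) (c r σ : ℝ) (hr : 0 < r) (hr' : r < 1)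
    (hσ : σ = 1 ∨ σ = -1) (hm : σ * (KrW φ ψ (Real.log r) / Fr φ (Real.log r)) = c) :
    IsClosedCMCW φ ψ c (slice n r) := by
  classical
  have hri : 1 < r⁻¹ := (one_lt_inv₀ hr).2 hr'
  have hS0 : ∀ x ∈ slice n r, x ≠ 0 := by
    rintro x hx rfl
    rcases hx with hx | hx <;> rw [norm_zero] at hx
    · linarith
    · linarith
  have hσσ : σ * σ = 1 := by rcases hσ with h | h <;> rw [h] <;> norm_num
  refine ⟨?_, ?_, ?_, ?_, ?_⟩
  · have e1 : slice n r = Metric.sphere (0 : E n) r ∪ Metric.sphere (0 : E n) r⁻¹ := by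
      ext x
      simp [slice]
    rw [e1]
    exact (isCompact_sphere _ _).union (isCompact_sphere _ _)
  · intro h0
    exact hS0 0 h0 rfl
  · intro x hx
    have hx0 := hS0 x hx
    have h1 := norm_anti hx0
    rcases hx with hx | hx
    · right
      rw [h1, hx]
    · left
      rw [h1, hx, inv_inv]
  · refine ⟨Metric.sphere (0 : E n) r, ?_, ?_⟩
    · apply isConnected_sphere _ _ hr.le
      rw [← Module.finrank_eq_rank]
      have : Module.finrank ℝ (E n) = n + 1 := by simp
      rw [this]
      exact_mod_cast (by omega : 1 < n + 1)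
    · ext x
      constructor
      · rintro (hx | hx)
        · left
          simp [hx]
        · right
          have hx0 : x ≠ 0 := hS0 x (Or.inr hx)
          refine ⟨anti x, ?_, anti_anti hx0⟩
          rw [mem_sphere_zero_iff_norm, norm_anti hx0, hx, inv_inv]
      · rintro (hx | ⟨y, hy, rfl⟩)
        · left
          simpa using hx
        · right
          rw [mem_sphere_zero_iff_norm] at hy
          have hy0 : y ≠ 0 := by
            rintro rfl
            rw [norm_zero] at hy
            linarith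
          rw [norm_anti hy0, hy]
  · let ν : E n → E n := fun x => if ‖x‖ < 1 then σ • er x else (-σ) • er x
    refine ⟨ν, ?_, ?_⟩
    · intro x hx
      have hx0 := hS0 x hx
      have h1 := norm_anti hx0
      have h2 : inner ℝ (er x) (er x) = (1 : ℝ) := by
        rw [real_inner_self_eq_norm_sq, norm_er hx0]
        norm_num
      have h3 : ∀ s : ℝ, ‖x‖ ^ 2 • fderiv ℝ TwinBubble.anti x (s • er x) = s • er x := by
        intro s
        rw [fderiv_anti hx0, real_inner_smul_right, h2, mul_one, ← neg_smul, ← add_smul]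
        congr 1
        ring
      rcases hx with hx | hx
      · have e1 : ν x = σ • er x := if_pos (by rw [hx]; exact hr')
        have e2 : ν (TwinBubble.anti x) = (-σ) • er (TwinBubble.anti x) :=
          if_neg (by rw [h1, hx]; exact not_lt.2 hri.le)
        rw [e1, e2, h3, er_anti hx0, smul_neg, neg_smul, neg_neg]
      · have e1 : ν x = (-σ) • er x := if_neg (by rw [hx]; exact not_lt.2 hri.le)
        have e2 : ν (TwinBubble.anti x) = σ • er (TwinBubble.anti x) :=
          if_pos (by rw [h1, hx, inv_inv]; exact hr')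
        rw [e1, e2, h3, er_anti hx0, smul_neg, neg_smul]
    · intro x hx
      rcases hx with hx | hx
      · refine slw_local h h' c σ (Real.log r) hσ hm (slice n r) {y | 0 < ‖y‖ ∧ ‖y‖ < 1} ν ?_ ?_ ?_ ?_
          x ⟨by rw [hx]; exact hr, by rw [hx]; exact hr'⟩
        · exact (isOpen_lt continuous_const continuous_norm).inter
            (isOpen_lt continuous_norm continuous_const)
        · rintro y hy rfl
          have := hy.1
          rw [norm_zero] at this
          exact lt_irrefl _ this
        · intro y hy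
          constructor
          · rintro (h1 | h1)
            · rw [h1]
            · have := hy.2
              rw [h1] at this
              linarith
          · intro h1
            exact Or.inl (Real.log_injOn_pos (Set.mem_Ioi.2 hy.1) (Set.mem_Ioi.2 hr) h1)
        · intro y hy
          exact if_pos hy.2
      · refine slw_local h h' c (-σ) (-Real.log r) (by rcases hσ with h | h <;> rw [h] <;> simp) ?_
          (slice n r) {y | 1 < ‖y‖} ν ?_ ?_ ?_ ?_ x (by change 1 < ‖x‖; rw [hx]; exact hri)
        · rw [KrW_odd h h', Fr_even h, ← hm]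
          ring
        · exact isOpen_lt continuous_const continuous_norm
        · rintro y hy rfl
          have hy1 : 1 < ‖(0 : E n)‖ := hy
          rw [norm_zero] at hy1
          linarith
        · intro y hy
          have hy1 : 1 < ‖y‖ := hy
          rw [← Real.log_inv]
          constructor
          · rintro (h1 | h1)
            · rw [h1] at hy1
              linarith
            · rw [h1]
          · intro h1
            exact Or.inr (Real.log_injOn_pos (Set.mem_Ioi.2 (by linarith))
              (Set.mem_Ioi.2 (by positivity)) h1)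
        · intro y hy
          have hy1 : 1 < ‖y‖ := hy
          exact if_neg (not_lt.2 hy1.le)

theorem slice_isClosedCMCW (hn : 1 ≤ n) (h : IsRotMetric φ) (h' : IsRotWeight ψ) (c r : ℝ)
    (hr : 0 < r) (hr' : r < 1)
    (hm : KrW φ ψ (Real.log r) = c * Fr φ (Real.log r) ∨
      KrW φ ψ (Real.log r) = -(c * Fr φ (Real.log r))) :
    IsClosedCMCW φ ψ c (slice n r) := by
  have hFp := Fr_pos h (Real.log r)
  rcases hm with hm | hm
  · refine slw_main hn h h' c r 1 hr hr' (Or.inl rfl) ?_
    rw [hm, one_mul, mul_div_assoc, div_self hFp.ne', mul_one]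
  · refine slw_main hn h h' c r (-1) hr hr' (Or.inr rfl) ?_
    rw [hm, neg_div, mul_div_assoc, div_self hFp.ne', mul_one]
    ring

end TwinBubble
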