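import Pool.Agent.H11.TB.Local
import Pool.Agent.H11.TB.CurvW
import Pool.Agent.H11.TB.Topo
import Pool.Agent.H11.TB.Torus

/-!
# TorusW: the torus is a closed `c`-CMC hypersurface of the warped product
Same proof as `Torus.lean` with `meanCurvW_polar` instead of `meanCurv_polar`.
-/

open scoped ContDiff NNReal
open Set

namespace TwinBubble

variable {n : ℕ} {φ ψ : E n → ℝ}

open Classical in
/-- the tangent angle at a point of the torus -/
private noncomputable def torw_ang (t θ : ℝ → ℝ) (e x : E n) : ℝ :=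
  if h : ∃ a, t a = Tc x ∧ θ a = Ac e x then h.choose else 0

private theorem torw_ang_spec {t θ : ℝ → ℝ} {e x : E n} (h : ∃ a, t a = Tc x ∧ θ a = Ac e x) :
    t (torw_ang t θ e x) = Tc x ∧ θ (torw_ang t θ e x) = Ac e x := by
  unfold torw_ang
  rw [dif_pos h]
  exact h.choose_spec

private noncomputable def torw_nu (t θ : ℝ → ℝ) (e x : E n) : E n :=
  Real.sin (torw_ang t θ e x) • er x - Real.cos (torw_ang t θ e x) • eA e x

private theorem torw_nu_eq {F K : ℝ → ℝ} {c : ℝ} {t θ ρ : ℝ → ℝ} (h : Profile n F K c t θ ρ)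
    (e x : E n) {b : ℝ} (h1 : t b = Tc x) (h2 : θ b = Ac e x) :
    torw_nu t θ e x = Real.sin b • er x - Real.cos b • eA e x := by
  obtain ⟨h3, h4⟩ := torw_ang_spec (t := t) (θ := θ) (e := e) (x := x) ⟨b, h1, h2⟩
  obtain ⟨h5, h6⟩ := h.inj (h3.trans h1.symm) (h4.trans h2.symm)
  unfold torw_nu
  rw [h5, h6]

private theorem torw_norm {e x : E n} (he : ‖e‖ = 1) (hx : x ∈ offAxis e) (b : ℝ) :
    ‖Real.sin b • er x - Real.cos b • eA e x‖ = 1 := by
  have h := norm_comb he hx (Real.sin b) (-Real.cos b)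
  rw [neg_smul, ← sub_eq_add_neg, neg_sq, Real.sin_sq_add_cos_sq] at h
  have h0 : 0 ≤ ‖Real.sin b • er x - Real.cos b • eA e x‖ := norm_nonneg _
  nlinarith

private theorem torw_contDiffAt {e : E n} (he : ‖e‖ = 1) {y : E n} (hy : y ∈ offAxis e) :
    ContDiffAt ℝ ∞ (fun y : E n => (Tc y, Ac e y)) y :=
  (contDiffAt_Tc (ne_zero_of_offAxis hy)).prodMk (contDiffAt_Ac he hy)

private theorem torw_isOpen {e : E n} (he : ‖e‖ = 1) {W : Set (ℝ × ℝ)} (hW : IsOpen W) :
    IsOpen (offAxis e ∩ (fun y : E n => (Tc y, Ac e y)) ⁻¹' W) := by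
  refine ContinuousOn.isOpen_inter_preimage ?_ (isOpen_offAxis e) hW
  intro y hy
  exact (torw_contDiffAt he hy).continuousAt.continuousWithinAt

private theorem torw_grad {e : E n} (he : ‖e‖ = 1) {y : E n} (hy : y ∈ offAxis e)
    {u : ℝ × ℝ → ℝ} {l s k : ℝ}
    (hu : HasFDerivAt u (l • (s • ContinuousLinearMap.fst ℝ ℝ ℝ -
      k • ContinuousLinearMap.snd ℝ ℝ ℝ)) (Tc y, Ac e y)) :
    gradient (fun y : E n => u (Tc y, Ac e y)) y =
      (l * ‖y‖⁻¹) • (s • er y - k • eA e y) := by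
  have h1 := (hasFDerivAt_Tc (ne_zero_of_offAxis hy)).prodMk (hasFDerivAt_Ac he hy)
  have h2 := hu.comp y h1
  have h3 : HasGradientAt (fun y : E n => u (Tc y, Ac e y))
      ((l * ‖y‖⁻¹) • (s • er y - k • eA e y)) y := by
    rw [hasGradientAt_iff_hasFDerivAt]
    refine h2.congr_fderiv ?_
    apply ContinuousLinearMap.ext
    intro v
    simp only [ContinuousLinearMap.comp_apply, ContinuousLinearMap.prod_apply,
      smul_apply, sub_apply,
      ContinuousLinearMap.coe_fst', ContinuousLinearMap.coe_snd', innerSL_apply_apply,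
      InnerProductSpace.toDual_apply_apply, inner_smul_left, inner_sub_left, smul_eq_mul,
      RCLike.conj_to_real]
    ring
  exact h3.gradient

theorem torus_isClosedCMCW (hn : 2 ≤ n) (hφ : IsRotMetric φ) (hψ : IsRotWeight ψ) {c : ℝ}
    {t θ ρ : ℝ → ℝ} (h : Profile n (Fr φ) (KrW φ ψ) c t θ ρ) (e : E n) (he : ‖e‖ = 1) :
    IsClosedCMCW φ ψ c (torus t θ e) := by
  have hoff := torus_offAxis h e he
  refine ⟨torus_compact h e he, fun h0 => h0.1 rfl, fun x hx => torus_anti h e x hx,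
    ⟨torus t θ e, torus_connected hn h e he, ?_⟩, torw_nu t θ e, ?_, ?_⟩
  · refine (Set.union_eq_left.2 ?_).symm
    rintro _ ⟨x, hx, rfl⟩
    exact torus_anti h e x hx
  · intro x hx
    obtain ⟨hx0, b, hb1, hb2⟩ := hx
    have hxo : x ∈ offAxis e := hoff ⟨hx0, b, hb1, hb2⟩
    have e1 : t (b + Real.pi) = Tc (anti x) := by rw [h.shift_t, Tc_anti hx0, hb1]
    have e2 : θ (b + Real.pi) = Ac e (anti x) := by rw [h.shift_θ, Ac_anti hx0, hb2]
    rw [torw_nu_eq h e x hb1 hb2, torw_nu_eq h e (anti x) e1 e2, er_anti hx0, eA_anti hx0,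
      Real.sin_add_pi, Real.cos_add_pi]
    have h3 := fderiv_anti_comb he hxo (Real.sin b) (-Real.cos b)
    rw [neg_smul, ← sub_eq_add_neg] at h3
    rw [h3]
    simp only [neg_smul, smul_neg, neg_neg, sub_neg_eq_add]
  · intro x hx
    obtain ⟨hx0, a₀, ha1, ha2⟩ := hx
    have hxo : x ∈ offAxis e := hoff ⟨hx0, a₀, ha1, ha2⟩
    obtain ⟨W, α, u, lam, α₁, α₂, hW, haW, hus, hlam, hud, hαd, hρ, hzero, hpt⟩ :=
      h.local_graph a₀
    have hUo : IsOpen (offAxis e ∩ (fun y : E n => (Tc y, Ac e y)) ⁻¹' W) := torw_isOpen he hW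
    have hgrad : ∀ y ∈ offAxis e ∩ (fun y : E n => (Tc y, Ac e y)) ⁻¹' W,
        gradient (fun y : E n => u (Tc y, Ac e y)) y =
          (lam (Tc y, Ac e y) * ‖y‖⁻¹) • (Real.sin (α (Tc y, Ac e y)) • er y -
            Real.cos (α (Tc y, Ac e y)) • eA e y) := by
      rintro y ⟨hy1, hy2⟩
      exact torw_grad he hy1 (hud _ hy2)
    have hμ : ∀ y ∈ offAxis e ∩ (fun y : E n => (Tc y, Ac e y)) ⁻¹' W,
        0 < lam (Tc y, Ac e y) * ‖y‖⁻¹ := by
      rintro y ⟨hy1, hy2⟩
      exact mul_pos (hlam _ hy2) (inv_pos.2 (norm_pos_iff.2 (ne_zero_of_offAxis hy1)))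
    refine ⟨offAxis e ∩ (fun y : E n => (Tc y, Ac e y)) ⁻¹' W, fun y => u (Tc y, Ac e y), hUo,
      ⟨hxo, ?_⟩, ?_, ?_, ?_, ?_⟩
    · change (Tc x, Ac e x) ∈ W
      rw [← ha1, ← ha2]
      exact haW
    · intro y hy
      have h1 : ContDiffAt ℝ ∞ u (Tc y, Ac e y) := (hus _ hy.2).contDiffAt (hW.mem_nhds hy.2)
      exact (h1.comp y (torw_contDiffAt he hy.1)).contDiffWithinAt
    · intro y hy h0
      rw [hgrad y hy] at h0
      have h1 := congrArg norm h0
      rw [norm_smul, torw_norm he hy.1, norm_zero, mul_one, Real.norm_eq_abs,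
        abs_of_pos (hμ y hy)] at h1
      exact absurd h1 (hμ y hy).ne'
    · intro y hy
      change _ ↔ u (Tc y, Ac e y) = 0
      rw [hzero _ hy.2]
      constructor
      · rintro ⟨_, b, hb1, hb2⟩
        exact ⟨b, Prod.ext hb1 hb2⟩
      · rintro ⟨b, hb⟩
        exact ⟨ne_zero_of_offAxis hy.1, b, congrArg Prod.fst hb, congrArg Prod.snd hb⟩
    · intro y hy hyS
      obtain ⟨hy0, b, hb1, hb2⟩ := hyS
      have hu0 : u (Tc y, Ac e y) = 0 := (hzero _ hy.2).2 ⟨b, Prod.ext hb1 hb2⟩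
      have hp := hpt _ hy.2 hu0
      have hp1 : t (α (Tc y, Ac e y)) = Tc y := congrArg Prod.fst hp
      have hp2 : θ (α (Tc y, Ac e y)) = Ac e y := congrArg Prod.snd hp
      constructor
      · rw [torw_nu_eq h e y hp1 hp2, hgrad y hy, norm_smul, torw_norm he hy.1, mul_one,
          Real.norm_eq_abs, abs_of_pos (hμ y hy), smul_smul, inv_mul_cancel₀ (hμ y hy).ne',
          one_smul]
      · have hnh : offAxis e ∩ (fun y : E n => (Tc y, Ac e y)) ⁻¹' W ∈ nhds y :=
          hUo.mem_nhds hy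
        have hm := meanCurvW_polar hφ hψ e he y hy.1 (fun y => u (Tc y, Ac e y)) α
          (fun y => lam (Tc y, Ac e y) * ‖y‖⁻¹) (α₁ (Tc y, Ac e y)) (α₂ (Tc y, Ac e y))
          (Filter.mem_of_superset hnh fun z hz => hμ z hz)
          (Filter.mem_of_superset hnh fun z hz => hgrad z hz) (hαd _ hy.2)
        rw [hm]
        have h1 := hρ _ hy.2
        have h2 := h.eqn (α (Tc y, Ac e y))
        rw [hp1, hp2] at h2
        have h3 : Real.cos (α (Tc y, Ac e y)) * α₁ (Tc y, Ac e y) +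
            Real.sin (α (Tc y, Ac e y)) * α₂ (Tc y, Ac e y) =
            den n (Fr φ) (KrW φ ψ) c (α (Tc y, Ac e y)) (Tc y) (Ac e y) := by
          have hρ0 := (h.ρ_pos (α (Tc y, Ac e y))).ne'
          exact mul_left_cancel₀ hρ0 (h1.trans h2.symm)
        rw [h3]
        unfold den
        have hF := (Fr_pos hφ (Tc y)).ne'
        field_simp
        ring

end TwinBubble
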