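import Pool.Agent.H11.TB.Main
import Pool.Agent.H11.TB.DichoW
import Pool.Agent.H11.TB.TorusW
import Pool.Agent.H11.TB.SliceW

/-!
# MainW: at least two closed `c`-CMC hypersurfaces in every warped product `RP^(n+1) ×_k N`
-/

open scoped ContDiff NNReal
open Set

namespace TwinBubble

variable {n : ℕ} {φ ψ : E n → ℝ}

theorem infinite_ofW (hn : 2 ≤ n) (hφ : IsRotMetric φ) (hψ : IsRotWeight ψ) (c : ℝ) (hc : 0 < c)
    (H : ∀ t, 0 ≤ t → KrW φ ψ t < c * Fr φ t) :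
    {S : Set (E n) | IsClosedCMCW φ ψ c S}.Infinite := by
  obtain ⟨t, θ, ρ, hp⟩ := exists_profile n hn (Fr φ) (KrW φ ψ) (Fr_smooth hφ)
    (KrW_smooth hφ hψ) (Fr_even hφ) (KrW_odd hφ hψ) c
    (shooting_hyp_abs _ _ (Fr_pos hφ) c hc H)
  refine (infinite_tori hn hp).mono ?_
  rintro S ⟨e, he, rfl⟩
  exact torus_isClosedCMCW hn hφ hψ hp e he

theorem mainW (hn : 2 ≤ n) (hφ : IsRotMetric φ) (hψ : IsRotWeight ψ) (c : ℝ) (hc : 0 < c) :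
    (∃ r₁ r₂ : ℝ, 0 < r₁ ∧ r₁ < r₂ ∧ r₂ < 1 ∧ IsClosedCMCW φ ψ c (slice n r₁) ∧
        IsClosedCMCW φ ψ c (slice n r₂)) ∨
      {S : Set (E n) | IsClosedCMCW φ ψ c S}.Infinite := by
  rcases dichotomy_abs (Fr φ) (KrW φ ψ) (Fr_smooth hφ).continuous (KrW_smooth hφ hψ).continuous
    (Fr_pos hφ) (Fr_even hφ) (KrW_odd hφ hψ) c hc
    (exists_slice_belowW hφ hψ (by omega) c) with ⟨t₁, t₂, h1, h2, h3, h4⟩ | h
  · left
    refine ⟨Real.exp t₁, Real.exp t₂, Real.exp_pos _, Real.exp_lt_exp.2 h1,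
      exp_lt_one' h2, ?_, ?_⟩
    · exact slice_isClosedCMCW (by omega) hφ hψ c _ (Real.exp_pos _) (exp_lt_one' (h1.trans h2))
        (by rw [Real.log_exp]; exact h3)
    · exact slice_isClosedCMCW (by omega) hφ hψ c _ (Real.exp_pos _) (exp_lt_one' h2)
        (by rw [Real.log_exp]; exact h4)
  · exact Or.inr (infinite_ofW hn hφ hψ c hc h)

theorem twinW (hn : 2 ≤ n) (hφ : IsRotMetric φ) (hψ : IsRotWeight ψ) (c : ℝ) (hc : 0 < c) :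
    ∃ S₁ S₂ : Set (E n), IsClosedCMCW φ ψ c S₁ ∧ IsClosedCMCW φ ψ c S₂ ∧ S₁ ≠ S₂ := by
  rcases mainW hn hφ hψ c hc with ⟨r₁, r₂, h1, h2, h3, h4, h5⟩ | h
  · exact ⟨_, _, h4, h5, slice_ne r₁ r₂ h1 h2 h3⟩
  · obtain ⟨S₁, hS₁, S₂, hS₂, hne⟩ := h.nontrivial
    exact ⟨S₁, S₂, hS₁, hS₂, hne⟩

end TwinBubble
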