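import Pool.Agent.H11.TB.Defs

/-!
# Polar: the coordinates `t = log |x|`, `θ = angle (x, e)`
-/

open scoped ContDiff NNReal
open Set

namespace TwinBubble

variable {n : ℕ}

theorem isOpen_offAxis (e : E n) : IsOpen (offAxis e) := by
  have h1 : Continuous fun x : E n => |inner ℝ x e| :=
    (continuous_id.inner continuous_const).abs
  exact isOpen_lt h1 continuous_norm

theorem ne_zero_of_offAxis {e x : E n} (hx : x ∈ offAxis e) : x ≠ 0 := by
  rintro rfl
  have h : |inner ℝ (0 : E n) e| < ‖(0 : E n)‖ := hx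
  simp at h

private lemma polar_abs {e x : E n} (hx : x ∈ offAxis e) : |inner ℝ x e / ‖x‖| < 1 := by
  have h0 : 0 < ‖x‖ := norm_pos_iff.2 (ne_zero_of_offAxis hx)
  have h : |inner ℝ x e| < ‖x‖ := hx
  rw [abs_div, abs_of_pos h0, div_lt_one h0]
  exact h

private lemma polar_cos {e x : E n} (hx : x ∈ offAxis e) :
    Real.cos (Ac e x) = inner ℝ x e / ‖x‖ := by
  have h := abs_lt.1 (polar_abs hx)
  exact Real.cos_arccos h.1.le h.2.le

private lemma polar_sin {e x : E n} (hx : x ∈ offAxis e) :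
    Real.sin (Ac e x) = √(1 - (inner ℝ x e / ‖x‖) ^ 2) := Real.sin_arccos _

/-- a point `x ≠ 0` is off the axis iff its angle is in `(0, π)` -/
theorem mem_offAxis_iff {e x : E n} (he : ‖e‖ = 1) (hx : x ≠ 0) :
    x ∈ offAxis e ↔ 0 < Ac e x ∧ Ac e x < Real.pi := by
  have h0 : 0 < ‖x‖ := norm_pos_iff.2 hx
  unfold Ac
  rw [Real.arccos_pos, Real.arccos_lt_pi, div_lt_one h0, lt_div_iff₀ h0]
  constructor
  · intro h
    have h' : |inner ℝ x e| < ‖x‖ := h
    have h2 := abs_lt.1 h'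
    exact ⟨h2.2, by linarith [h2.1]⟩
  · rintro ⟨h1, h2⟩
    show |inner ℝ x e| < ‖x‖
    exact abs_lt.2 ⟨by linarith, h1⟩

theorem cos_Ac {e x : E n} (he : ‖e‖ = 1) (hx : x ≠ 0) :
    Real.cos (Ac e x) = inner ℝ x e / ‖x‖ := by
  have h0 : 0 < ‖x‖ := norm_pos_iff.2 hx
  have h1 : |inner ℝ x e / ‖x‖| ≤ 1 := by
    rw [abs_div, abs_of_pos h0, div_le_one h0]
    have := abs_real_inner_le_norm x e
    rw [he, mul_one] at this
    exact this
  have h2 := abs_le.1 h1
  exact Real.cos_arccos h2.1 h2.2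

theorem sin_Ac_pos {e x : E n} (hx : x ∈ offAxis e) : 0 < Real.sin (Ac e x) := by
  rw [polar_sin hx]
  apply Real.sqrt_pos.2
  have h := abs_lt.1 (polar_abs hx)
  nlinarith [h.1, h.2]

private lemma polar_sq {x : E n} (_hx : x ≠ 0) :
    HasFDerivAt (fun y : E n => ‖y‖ ^ 2) (2 • innerSL ℝ x) x :=
  (hasStrictFDerivAt_norm_sq x).hasFDerivAt

theorem hasFDerivAt_Tc {x : E n} (hx : x ≠ 0) :
    HasFDerivAt (Tc (n := n)) (innerSL ℝ (‖x‖⁻¹ • er x)) x := by
  have h0 : ‖x‖ ≠ 0 := norm_ne_zero_iff.2 hx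
  have h1 := ((polar_sq hx).log (pow_ne_zero 2 h0)).const_mul ((1 : ℝ) / 2)
  have e1 : (fun y : E n => (1 : ℝ) / 2 * Real.log (‖y‖ ^ 2)) = Tc (n := n) := by
    funext y
    simp only [Tc, Real.log_pow]
    push_cast
    ring
  rw [e1] at h1
  refine h1.congr_fderiv ?_
  ext v
  simp only [smul_apply, innerSL_apply_apply, er, inner_smul_left,
    smul_eq_mul, nsmul_eq_mul, conj_trivial]
  push_cast
  field_simp

private lemma polar_norm {x : E n} (hx : x ≠ 0) :
    HasFDerivAt (fun y : E n => ‖y‖) (innerSL ℝ (er x)) x := by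
  have h0 : 0 < ‖x‖ := norm_pos_iff.2 hx
  have h1 := (hasFDerivAt_Tc hx).exp
  have h2 : (fun y : E n => Real.exp (Tc y)) =ᶠ[nhds x] fun y => ‖y‖ := by
    filter_upwards [isOpen_ne.mem_nhds hx] with y hy
    exact Real.exp_log (norm_pos_iff.2 hy)
  have h3 := h1.congr_of_eventuallyEq h2.symm
  refine h3.congr_fderiv ?_
  ext v
  simp only [smul_apply, innerSL_apply_apply, inner_smul_left,
    smul_eq_mul, conj_trivial, Tc, Real.exp_log h0]
  field_simp

theorem hasFDerivAt_Ac {e x : E n} (he : ‖e‖ = 1) (hx : x ∈ offAxis e) :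
    HasFDerivAt (Ac e) (innerSL ℝ (‖x‖⁻¹ • eA e x)) x := by
  have hx0 := ne_zero_of_offAxis hx
  have h0 : ‖x‖ ≠ 0 := norm_ne_zero_iff.2 hx0
  have hin : HasFDerivAt (fun y : E n => inner ℝ y e) (innerSL ℝ e) x := by
    have h := (innerSL ℝ e).hasFDerivAt (x := x)
    refine h.congr_of_eventuallyEq ?_
    refine Filter.Eventually.of_forall fun y => ?_
    simp only [innerSL_apply_apply]
    exact real_inner_comm _ _
  have hinv : HasFDerivAt (fun y : E n => ‖y‖⁻¹) (-(‖x‖ ^ 2)⁻¹ • innerSL ℝ (er x)) x :=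
    (hasDerivAt_inv h0).comp_hasFDerivAt x (polar_norm hx0)
  have hr : HasFDerivAt (fun y : E n => inner ℝ y e / ‖y‖)
      (inner ℝ x e • (-(‖x‖ ^ 2)⁻¹ • innerSL ℝ (er x)) + ‖x‖⁻¹ • innerSL ℝ e) x := by
    have h := hin.mul hinv
    refine h.congr_of_eventuallyEq (Filter.Eventually.of_forall fun y => ?_)
    simp only [Pi.mul_apply, div_eq_mul_inv]
  have hab := abs_lt.1 (polar_abs hx)
  have hac := (Real.hasDerivAt_arccos (x := inner ℝ x e / ‖x‖) (by linarith [hab.1] : _ ≠ _)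
    (by linarith [hab.2] : _ ≠ _)).comp_hasFDerivAt x hr
  have hs := sin_Ac_pos hx
  have hc := polar_cos hx
  have hs' := polar_sin hx
  refine (hac.congr_fderiv ?_)
  ext v
  simp only [smul_apply, add_apply, innerSL_apply_apply,
    inner_smul_left, inner_sub_left, smul_eq_mul, conj_trivial, eA, er, hc, ← hs']
  field_simp
  ring

theorem contDiffAt_Tc {x : E n} (hx : x ≠ 0) : ContDiffAt ℝ ∞ (Tc (n := n)) x :=
  (contDiffAt_norm ℝ hx).log (norm_ne_zero_iff.2 hx)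

theorem contDiffAt_Ac {e x : E n} (he : ‖e‖ = 1) (hx : x ∈ offAxis e) :
    ContDiffAt ℝ ∞ (Ac e) x := by
  have hx0 := ne_zero_of_offAxis hx
  have hab := abs_lt.1 (polar_abs hx)
  have h1 : ContDiffAt ℝ ∞ (fun y : E n => inner ℝ y e / ‖y‖) x :=
    (contDiffAt_id.inner ℝ contDiffAt_const).div (contDiffAt_norm ℝ hx0)
      (norm_ne_zero_iff.2 hx0)
  exact (Real.contDiffAt_arccos (ne_of_gt hab.1) (ne_of_lt hab.2)).comp x h1

theorem norm_er {x : E n} (hx : x ≠ 0) : ‖er x‖ = 1 := by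
  have h0 : ‖x‖ ≠ 0 := norm_ne_zero_iff.2 hx
  unfold er
  rw [norm_smul, norm_inv, norm_norm, inv_mul_cancel₀ h0]

private lemma polar_inner {e x : E n} (hx : x ∈ offAxis e) :
    inner ℝ (er x) e = Real.cos (Ac e x) := by
  rw [polar_cos hx]
  unfold er
  rw [real_inner_smul_left]
  ring

theorem inner_er_eA {e x : E n} (he : ‖e‖ = 1) (hx : x ∈ offAxis e) :
    inner ℝ (er x) (eA e x) = 0 := by
  have h1 : inner ℝ (er x) (er x) = (1 : ℝ) := by
    rw [real_inner_self_eq_norm_sq, norm_er (ne_zero_of_offAxis hx)]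
    norm_num
  unfold eA
  rw [real_inner_smul_right, inner_sub_right, real_inner_smul_right, h1, polar_inner hx]
  ring

theorem norm_eA {e x : E n} (he : ‖e‖ = 1) (hx : x ∈ offAxis e) : ‖eA e x‖ = 1 := by
  have hs := sin_Ac_pos hx
  have h1 : ‖Real.cos (Ac e x) • er x - e‖ ^ 2 = Real.sin (Ac e x) ^ 2 := by
    rw [norm_sub_sq_real, norm_smul, real_inner_smul_left, polar_inner hx, he,
      norm_er (ne_zero_of_offAxis hx), Real.norm_eq_abs, mul_one, sq_abs]
    have := Real.sin_sq_add_cos_sq (Ac e x)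
    linarith
  have h2 : ‖Real.cos (Ac e x) • er x - e‖ = Real.sin (Ac e x) := by
    have h3 := (sq_eq_sq₀ (norm_nonneg _) hs.le).1 h1
    exact h3
  unfold eA
  rw [norm_smul, h2, norm_inv, Real.norm_eq_abs, abs_of_pos hs, inv_mul_cancel₀ hs.ne']

/-- hence `‖p er + q eA‖² = p² + q²` -/
theorem norm_comb {e x : E n} (he : ‖e‖ = 1) (hx : x ∈ offAxis e) (p q : ℝ) :
    ‖p • er x + q • eA e x‖ ^ 2 = p ^ 2 + q ^ 2 := by
  rw [norm_add_sq_real, norm_smul, norm_smul, real_inner_smul_left, real_inner_smul_right,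
    inner_er_eA he hx, norm_er (ne_zero_of_offAxis hx), norm_eA he hx, Real.norm_eq_abs,
    Real.norm_eq_abs, mul_one, mul_one, sq_abs, sq_abs]
  ring

end TwinBubble
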