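import Pool.Agent.H11.TB.Defs

/-!
# Smooth: the closed curve is smooth (bootstrap)
`ρ = 1 / den n F K c a (t a) (θ a)`, and `den` is a smooth function of `(a, t, θ)` for
`sin θ ≠ 0`.  Induction on `k`: `t, θ` of class `C^k` ⟹ `ρ` of class `C^k` ⟹ `t' = ρ cos`,
`θ' = ρ sin` of class `C^k` ⟹ `t, θ` of class `C^(k+1)` (`contDiff_succ_iff_deriv`,
`contDiff_infty`).
-/

open scoped ContDiff NNReal
open Set

namespace TwinBubble

private theorem smooth_rho (n : ℕ) (F K : ℝ → ℝ) (hF : ContDiff ℝ ∞ F) (hK : ContDiff ℝ ∞ K)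
    (c : ℝ) (t θ ρ : ℝ → ℝ) (k : ℕ)
    (hθ0 : ∀ a, 0 < θ a) (hθ1 : ∀ a, θ a < Real.pi)
    (heq : ∀ a, ρ a * den n F K c a (t a) (θ a) = 1)
    (ht : ContDiff ℝ k t) (hθ : ContDiff ℝ k θ) : ContDiff ℝ k ρ := by
  have h1 : ∀ a, den n F K c a (t a) (θ a) ≠ 0 := fun a h => by
    have := heq a
    rw [h, mul_zero] at this
    exact zero_ne_one this
  have h2 : ρ = fun a => (den n F K c a (t a) (θ a))⁻¹ := by
    funext a
    exact eq_inv_of_mul_eq_one_left (heq a)
  have hF' : ContDiff ℝ k F := hF.of_le (by exact_mod_cast le_top)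
  have hK' : ContDiff ℝ k K := hK.of_le (by exact_mod_cast le_top)
  have hs : ContDiff ℝ k Real.sin := Real.contDiff_sin
  have hc : ContDiff ℝ k Real.cos := Real.contDiff_cos
  have hsθ : ∀ a, Real.sin (θ a) ≠ 0 := fun a => (Real.sin_pos_of_pos_of_lt_pi (hθ0 a) (hθ1 a)).ne'
  rw [h2]
  refine ContDiff.inv ?_ h1
  unfold den
  exact ((contDiff_const.mul (hF'.comp ht)).sub ((hK'.comp ht).mul hs)).add
    ((contDiff_const.mul hc).mul ((hc.comp hθ).div (hs.comp hθ) hsθ))

theorem smooth_closed (n : ℕ) (F K : ℝ → ℝ) (hF : ContDiff ℝ ∞ F) (hK : ContDiff ℝ ∞ K)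
    (c : ℝ) (t θ ρ : ℝ → ℝ) (hρ : Continuous ρ)
    (hdt : ∀ a, HasDerivAt t (ρ a * Real.cos a) a) (hdθ : ∀ a, HasDerivAt θ (ρ a * Real.sin a) a)
    (hθ0 : ∀ a, 0 < θ a) (hθ1 : ∀ a, θ a < Real.pi)
    (heq : ∀ a, ρ a * den n F K c a (t a) (θ a) = 1) :
    ContDiff ℝ ∞ t ∧ ContDiff ℝ ∞ θ ∧ ContDiff ℝ ∞ ρ := by
  have key : ∀ k : ℕ, ContDiff ℝ k t ∧ ContDiff ℝ k θ := by
    intro k
    induction k with
    | zero =>
      refine ⟨?_, ?_⟩
      · have : Continuous t := continuous_iff_continuousAt.2 fun a => (hdt a).continuousAt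
        exact_mod_cast contDiff_zero.2 this
      · have : Continuous θ := continuous_iff_continuousAt.2 fun a => (hdθ a).continuousAt
        exact_mod_cast contDiff_zero.2 this
    | succ k ih =>
      have hr := smooth_rho n F K hF hK c t θ ρ k hθ0 hθ1 heq ih.1 ih.2
      have hs : ContDiff ℝ k Real.sin := Real.contDiff_sin
      have hc : ContDiff ℝ k Real.cos := Real.contDiff_cos
      have e1 : deriv t = fun a => ρ a * Real.cos a := funext fun a => (hdt a).deriv
      have e2 : deriv θ = fun a => ρ a * Real.sin a := funext fun a => (hdθ a).deriv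
      push_cast
      refine ⟨?_, ?_⟩
      · refine contDiff_succ_iff_deriv.2 ⟨fun a => (hdt a).differentiableAt, ?_, ?_⟩
        · intro h; simp at h
        · rw [e1]; exact hr.mul hc
      · refine contDiff_succ_iff_deriv.2 ⟨fun a => (hdθ a).differentiableAt, ?_, ?_⟩
        · intro h; simp at h
        · rw [e2]; exact hr.mul hs
  refine ⟨contDiff_infty.2 fun k => (key k).1, contDiff_infty.2 fun k => (key k).2,
    contDiff_infty.2 fun k => smooth_rho n F K hF hK c t θ ρ k hθ0 hθ1 heq (key k).1 (key k).2⟩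

end TwinBubble
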