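import Pool.Agent.H11.TB.Shoot
import Pool.Agent.H11.TB.Extend
import Pool.Agent.H11.TB.Smooth

/-!
# Prof: existence of a closed profile curve
-/

open scoped ContDiff NNReal
open Set

namespace TwinBubble

theorem exists_profile (n : ℕ) (hn : 2 ≤ n) (F K : ℝ → ℝ) (hF : ContDiff ℝ ∞ F)
    (hK : ContDiff ℝ ∞ K) (hFe : ∀ t, F (-t) = F t) (hKo : ∀ t, K (-t) = -K t) (c : ℝ)
    (hpos : ∀ t, 0 ≤ t → ∀ s ∈ Icc (0 : ℝ) 1, 0 < c * F t - K t * s) :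
    ∃ t θ ρ : ℝ → ℝ, Profile n F K c t θ ρ := by
  obtain ⟨t₀, θ₀, h1, h2, h3, h4, h5, h6, h7, h8⟩ := exists_arc n hn F K hF hK c hpos
  obtain ⟨t, θ, ρ, g1, g2, g3, g4, g5, g6, g7, g8, g9, g10, g11⟩ :=
    exists_closed n F K hF.continuous hK.continuous hFe hKo c t₀ θ₀ h1 h2 h3 h4 h5 h6 h7 h8
  obtain ⟨s1, s2, s3⟩ := smooth_closed n F K hF hK c t θ ρ g1 g3 g4 g5 g6 g7
  exact ⟨t, θ, ρ, ⟨s1, s2, s3, g2, g3, g4, g5, g6, g7, g8, g9, g10, g11⟩⟩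

end TwinBubble
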