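import Pool.Agent.H11.TB.Flow
import Pool.Agent.H11.TB.Bound
import Pool.Agent.H11.TB.Eps

/-!
# Shoot: the quarter arc
`T` from `exists_bound`, `c₀` from `exists_lower`, `ε` from `exists_eps`, `V = cutField`, `Φ` from
`exists_flow` (`b = π/2`).  `G θ₀ = (Φ (0, θ₀) (π/2)).2` is continuous.  The second component is
strictly increasing on `[0, π/2]` (derivative `sin a / cutDen > 0` for `a > 0`), so
`G (π/2) > π/2`.  `G ε < π/2`: otherwise let `b` be a point with `θ b = π/2` (IVT), on `[0, b]`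
`θ ≤ π/2`, `exists_bound` and `exists_eps` give a contradiction.  IVT: `G θ₀ = π/2` with
`ε < θ₀ < π/2`; for this solution `θ a ∈ [ε, π/2]` and `t a ∈ [0, T]`, so `cutDen = den`.
-/

open scoped ContDiff NNReal
open Set

namespace TwinBubble

private theorem cl_eq {lo hi x : ℝ} (h : x ∈ Icc lo hi) : cl lo hi x = x := by
  unfold cl
  rw [min_eq_left h.2, max_eq_right h.1]

private theorem snd_strictMono {b : ℝ} (hb : b ≤ Real.pi / 2) (θ D : ℝ → ℝ)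
    (hD : ∀ a ∈ Icc 0 b, 0 < D a)
    (hθ : ∀ a ∈ Icc 0 b, HasDerivWithinAt θ (Real.sin a / D a) (Icc 0 b) a) :
    StrictMonoOn θ (Icc 0 b) := by
  refine strictMonoOn_of_deriv_pos (convex_Icc 0 b)
    (fun a ha => (hθ a ha).continuousWithinAt) ?_
  intro a ha
  rw [interior_Icc] at ha
  have hm : a ∈ Icc 0 b := ⟨ha.1.le, ha.2.le⟩
  have h1 : HasDerivAt θ (Real.sin a / D a) a :=
    (hθ a hm).hasDerivAt (Icc_mem_nhds ha.1 ha.2)
  rw [h1.deriv]
  refine div_pos (Real.sin_pos_of_pos_of_lt_pi ha.1 ?_) (hD a hm)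
  have := Real.pi_pos
  linarith [ha.2]

theorem exists_arc (n : ℕ) (hn : 2 ≤ n) (F K : ℝ → ℝ) (hF : ContDiff ℝ ∞ F)
    (hK : ContDiff ℝ ∞ K) (c : ℝ)
    (hpos : ∀ t, 0 ≤ t → ∀ s ∈ Icc (0 : ℝ) 1, 0 < c * F t - K t * s) :
    ∃ t θ : ℝ → ℝ, t 0 = 0 ∧ 0 < θ 0 ∧ θ 0 < Real.pi / 2 ∧ θ (Real.pi / 2) = Real.pi / 2 ∧
      (∀ a ∈ Icc 0 (Real.pi / 2), 0 < θ a ∧ θ a ≤ Real.pi / 2) ∧
      (∀ a ∈ Icc 0 (Real.pi / 2), 0 < den n F K c a (t a) (θ a)) ∧
      (∀ a ∈ Icc 0 (Real.pi / 2), HasDerivWithinAt t (Real.cos a / den n F K c a (t a) (θ a))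
        (Icc 0 (Real.pi / 2)) a) ∧
      (∀ a ∈ Icc 0 (Real.pi / 2), HasDerivWithinAt θ (Real.sin a / den n F K c a (t a) (θ a))
        (Icc 0 (Real.pi / 2)) a) := by
  have hpi := Real.pi_pos
  obtain ⟨T, hT, hbd⟩ := exists_bound n (by omega) F K hF hK c hpos
  obtain ⟨c₀, h0, hc₀⟩ := exists_lower F K hF hK c T hT.le (fun t ht => hpos t ht.1)
  obtain ⟨ε, hε, hε4, heps⟩ := exists_eps n hn F K c T c₀ hT.le h0 hc₀
  have hε2 : ε ≤ Real.pi / 2 := by linarith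
  obtain ⟨L, hL, hcont, hB⟩ := cutField_props n (by omega) F K hF hK c T c₀ hT.le h0 hc₀ ε hε hε2
  obtain ⟨Φ, hΦ0, hΦd, hΦc⟩ := exists_flow (Real.pi / 2) (by linarith)
    (cutField n F K c T ε) L c₀⁻¹ hL hcont hB
  have hlow := cutDen_lower n (by omega) F K c T c₀ hT.le hc₀ ε hε hε2
  have hp0 : (0 : ℝ) ∈ Icc 0 (Real.pi / 2) := ⟨le_refl _, by linarith⟩
  have hp1 : Real.pi / 2 ∈ Icc 0 (Real.pi / 2) := ⟨by linarith, le_refl _⟩
  have hd1 : ∀ p : ℝ × ℝ, ∀ a ∈ Icc 0 (Real.pi / 2), HasDerivWithinAt (fun a => (Φ p a).1)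
      (Real.cos a / cutDen n F K c T ε a (Φ p a).1 (Φ p a).2) (Icc 0 (Real.pi / 2)) a := by
    intro p a ha
    exact (hasFDerivAt_fst (𝕜 := ℝ) (E := ℝ) (F := ℝ)).comp_hasDerivWithinAt a (hΦd p a ha)
  have hd2 : ∀ p : ℝ × ℝ, ∀ a ∈ Icc 0 (Real.pi / 2), HasDerivWithinAt (fun a => (Φ p a).2)
      (Real.sin a / cutDen n F K c T ε a (Φ p a).1 (Φ p a).2) (Icc 0 (Real.pi / 2)) a := by
    intro p a ha
    exact (hasFDerivAt_snd (𝕜 := ℝ) (E := ℝ) (F := ℝ)).comp_hasDerivWithinAt a (hΦd p a ha)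
  have hmono : ∀ p : ℝ × ℝ, StrictMonoOn (fun a => (Φ p a).2) (Icc 0 (Real.pi / 2)) := by
    intro p
    exact snd_strictMono (le_refl _) _
      (fun a => cutDen n F K c T ε a (Φ p a).1 (Φ p a).2)
      (fun a ha => lt_of_lt_of_le h0 (hlow a ha _ _)) (hd2 p)
  -- the shooting function
  have hG : Continuous fun x : ℝ => (Φ (0, x) (Real.pi / 2)).2 :=
    continuous_snd.comp ((hΦc _ hp1).comp (by fun_prop))
  have hG1 : Real.pi / 2 < (Φ (0, Real.pi / 2) (Real.pi / 2)).2 := by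
    have h := hmono (0, Real.pi / 2) hp0 hp1 (by linarith)
    simp only [hΦ0] at h
    exact h
  have hG0 : (Φ (0, ε) (Real.pi / 2)).2 < Real.pi / 2 := by
    by_contra hcon
    push Not at hcon
    have hcts : ContinuousOn (fun a => (Φ (0, ε) a).2) (Icc 0 (Real.pi / 2)) :=
      fun a ha => (hd2 (0, ε) a ha).continuousWithinAt
    have hiv := intermediate_value_Icc (show (0 : ℝ) ≤ Real.pi / 2 by linarith) hcts
    have hmem : Real.pi / 2 ∈ Icc ((Φ (0, ε) 0).2) ((Φ (0, ε) (Real.pi / 2)).2) := by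
      rw [hΦ0]
      exact ⟨hε2, hcon⟩
    obtain ⟨b, hb, hbe⟩ := hiv hmem
    have hbe' : (Φ (0, ε) b).2 = Real.pi / 2 := hbe
    have hsub : Icc 0 b ⊆ Icc 0 (Real.pi / 2) := Icc_subset_Icc_right hb.2
    have hle : ∀ a ∈ Icc 0 b, (Φ (0, ε) a).2 ≤ Real.pi / 2 := by
      intro a ha
      rw [← hbe']
      exact (hmono (0, ε)).monotoneOn (hsub ha) hb ha.2
    have hda := fun a (ha : a ∈ Icc 0 b) => (hd1 (0, ε) a (hsub ha)).mono hsub
    have hdb := fun a (ha : a ∈ Icc 0 b) => (hd2 (0, ε) a (hsub ha)).mono hsub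
    have ht := hbd ε hε hε2 b hb (fun a => (Φ (0, ε) a).1) (fun a => (Φ (0, ε) a).2)
      (by simp only [hΦ0]) (by simp only [hΦ0]; exact hε) hda hdb hle
    exact heps b hb (fun a => (Φ (0, ε) a).1) (fun a => (Φ (0, ε) a).2)
      (by simp only [hΦ0]) hda hdb ht hle hbe'
  have hiv := intermediate_value_Icc hε2 hG.continuousOn
  obtain ⟨x, hx, hxe⟩ := hiv ⟨hG0.le, hG1.le⟩
  have hxe' : (Φ (0, x) (Real.pi / 2)).2 = Real.pi / 2 := hxe
  have hx2 : x < Real.pi / 2 := by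
    rcases lt_or_eq_of_le hx.2 with h | h
    · exact h
    · exfalso
      rw [h] at hxe'
      linarith
  have hx0 : 0 < x := lt_of_lt_of_le hε hx.1
  have hθ : ∀ a ∈ Icc 0 (Real.pi / 2), x ≤ (Φ (0, x) a).2 ∧ (Φ (0, x) a).2 ≤ Real.pi / 2 := by
    intro a ha
    constructor
    · have h := (hmono (0, x)).monotoneOn hp0 ha ha.1
      simp only [hΦ0] at h
      exact h
    · have h := (hmono (0, x)).monotoneOn ha hp1 ha.2
      simp only [hxe'] at h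
      exact h
  have ht := hbd ε hε hε2 (Real.pi / 2) hp1 (fun a => (Φ (0, x) a).1) (fun a => (Φ (0, x) a).2)
    (by simp only [hΦ0]) (by simp only [hΦ0]; exact hx0) (hd1 (0, x)) (hd2 (0, x))
    (fun a ha => (hθ a ha).2)
  have hden : ∀ a ∈ Icc 0 (Real.pi / 2), cutDen n F K c T ε a (Φ (0, x) a).1 (Φ (0, x) a).2 =
      den n F K c a (Φ (0, x) a).1 (Φ (0, x) a).2 := by
    intro a ha
    unfold cutDen
    rw [cl_eq (ht a ha), cl_eq ⟨le_trans hx.1 (hθ a ha).1, (hθ a ha).2⟩]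
  refine ⟨fun a => (Φ (0, x) a).1, fun a => (Φ (0, x) a).2, ?_, ?_, ?_, hxe', ?_, ?_, ?_, ?_⟩
  · simp only [hΦ0]
  · simp only [hΦ0]
    exact hx0
  · simp only [hΦ0]
    exact hx2
  · exact fun a ha => ⟨lt_of_lt_of_le hx0 (hθ a ha).1, (hθ a ha).2⟩
  · intro a ha
    have h := hlow a ha (Φ (0, x) a).1 (Φ (0, x) a).2
    rw [hden a ha] at h
    exact lt_of_lt_of_le h0 h
  · intro a ha
    have h := hd1 (0, x) a ha
    rw [hden a ha] at h
    exact h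
  · intro a ha
    have h := hd2 (0, x) a ha
    rw [hden a ha] at h
    exact h

end TwinBubble
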